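import Pool.Agent.XG.St
import Pool.Agent.MldGeo.QFin
import Pool.Agent.MldGeo.TDG

set_option autoImplicit false

/-!
# Module ASA (helper92): the gap for the geometric minimal log discrepancies of crepant quotients
-/

namespace XG

open MldGeo MldGap MldAcc MldQ

noncomputable section

namespace ASA

variable {n : ℕ} {X Y : Germ n} {G : Subgroup (X.K ≃ₐ[ℂ] X.K)} {π : Y.K →ₐ[ℂ] X.K} {T : Triple X}
  {T' : Triple Y} {D : Set ℝ}

/-- `QFin.main` with a stronger conclusion. -/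
theorem main (hn : 0 < n) (hQ : IsQuot X Y G π)
    (hC : Crepant π T T') (hLC : T.LC) (hE : T.Effective) (hD : T.CoeffIn D)
    (hG : ∀ g ∈ G, ∃ A : TorusAction X n, A.Normal g ∧ A.InvTriple T) :
    ∃ (σ : X.K ≃ₐ[ℂ] X.K) (P : QFin.Pack T σ D), P.Q.mldQ = T'.mld := by
  classical
  have : Finite G := hQ.finite
  have hp : ∀ g : G, Nonempty (QFin.Pack T (g : X.K ≃ₐ[ℂ] X.K) D) := by
    rintro ⟨g, hg⟩
    obtain ⟨A, hA, hI⟩ := hG g hg
    exact QFin.exists_pack c_TOR c_TDC t_QMON c_INVP c_TQM hn hQ hC hLC hE hD hg A hA hI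
  let P : ∀ g : G, QFin.Pack T (g : X.K ≃ₐ[ℂ] X.K) D := fun g => (hp g).some
  obtain ⟨g0, hg0⟩ := Finite.exists_min fun g : G => (P g).Q.mldQ
  obtain ⟨hq1, hq2, hq3, -⟩ := c_QGAL X Y G π hn hQ
  have hlow : ∀ v : DivVal n Y.K, Y.At v → (P g0).Q.mldQ ≤ T'.disc v := by
    intro v hv
    obtain ⟨w, e, ho⟩ := hq2 v
    have hw := (t_QAT X Y G π hQ w v e ho).2 hv
    obtain ⟨g, hg, h1, h2⟩ := hq3 w v e ho
    exact (hg0 ⟨g, hg⟩).trans
      (QFin.lower c_QPUL c_QLG c_SHF hn hQ hC (P ⟨g, hg⟩) hw ho h1 h2)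
  have hbdd : BddBelow {a : ℝ | ∃ v, Y.At v ∧ T'.disc v = a} := by
    refine ⟨(P g0).Q.mldQ, ?_⟩
    rintro _ ⟨v, hv, rfl⟩
    exact hlow v hv
  have hup : ∀ a ∈ (P g0).Q.values, T'.mld ≤ a := by
    intro a ha
    obtain ⟨v, hv, hva⟩ :=
      QFin.upper c_QGAL t_QAT c_QPUL t_POW c_SHF c_QV hn hQ hC hLC g0.2 (P g0) ha
    exact (csInf_le hbdd ⟨v, hv, rfl⟩).trans hva
  refine ⟨g0, P g0, le_antisymm ?_ ?_⟩
  · refine le_csInf ?_ ?_
    · obtain ⟨a, ha⟩ := TQ.exists_value (P g0).Q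
      obtain ⟨v, hv, -⟩ :=
        QFin.upper c_QGAL t_QAT c_QPUL t_POW c_SHF c_QV hn hQ hC hLC g0.2 (P g0) ha
      exact ⟨_, v, hv, rfl⟩
    · rintro _ ⟨v, hv, rfl⟩
      exact hlow v hv
  · exact le_csInf (TQ.exists_value (P g0).Q) hup

end ASA

theorem t_ASA (h : Stmt_LVL) : Stmt_ASA := by
  intro n p q hn hp hq μ hμ hlt
  obtain ⟨X, Y, G, π, T, T', hQ, hC, hJ, hJ', hH, hG, rfl⟩ := hμ
  have hq' : (0 : ℝ) < q := by exact_mod_cast hq
  have hb : ∀ P b, T.Coeff P b → 0 ≤ b ∧ b ≤ 1 := by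
    intro P b hPb
    obtain ⟨c, m, hc, hm, rfl⟩ := hH P b hPb
    have hm' : (1 : ℝ) ≤ m := by exact_mod_cast hm
    have hc' : (c : ℝ) ≤ q := by exact_mod_cast hc
    have h1 : 0 ≤ (c : ℝ) / q / m := by positivity
    have h2 : (c : ℝ) / q ≤ 1 := by rw [div_le_one hq']; exact hc'
    have h3 : (c : ℝ) / q / m ≤ 1 := by
      rw [div_le_one (by linarith)]; linarith
    constructor <;> linarith
  have hLC : T.LC := by
    obtain ⟨A, -, hI⟩ := hG 1 G.one_mem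
    obtain ⟨χ, S, hS, hgr⟩ := c_TOR X A
    exact TDG.lc t_CON c_TRAY c_PSI c_GAV c_FDL t_TBAS X A χ S hn hS hgr T hJ hI
      fun P b hPb => (hb P b hPb).2
  obtain ⟨σ, P, hP⟩ := ASA.main (D := Set.univ) hn hQ hC hLC (fun P b hPb => (hb P b hPb).1)
    ⟨fun _ _ _ _ => Set.mem_univ _, fun _ _ => Set.mem_univ _⟩ hG
  have hPJ : IsEmpty P.Q.J := by
    obtain ⟨e, -⟩ := P.model.ideals
    exact ⟨fun j => hJ.false (e j)⟩
  rw [← hP] at hlt ⊢
  refine h P.Q hp hq hPJ (fun i => ?_) hlt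
  obtain ⟨I, hI⟩ := P.model.coeff i
  exact hH I _ hI

end

end XG
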