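import Pool.Agent.XG.St

set_option autoImplicit false

/-!
# XG, module CLA (helper83): every value in terms of at most `n` numbers
-/

namespace XG

open MldGeo MldGap MldAcc MldQ

noncomputable section

namespace CLA

variable {n : ℕ}

lemma ray_pow (Q : TQ n) {g : Aff n} (hg : g ∈ Q.Γ) (i : Q.ι) (j : ℕ) :
    ∃ i', (g.1 ^ j) (Q.ray i) = Q.ray i' ∧ Q.b i' = Q.b i := by
  induction j with
  | zero => exact ⟨i, rfl, rfl⟩
  | succ j ih =>
    obtain ⟨i', h1, h2⟩ := ih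
    obtain ⟨i'', h3, h4⟩ := Q.map_ray g hg i'
    refine ⟨i'', ?_, h4.trans h2⟩
    rw [pow_succ', Module.End.mul_apply, h1, h3]

lemma psi_avg (Q : TQ n) {g : Aff n} (hg : g ∈ Q.Γ) {k : ℕ} (hk : 0 < k) (i : Q.ι) (c : ℝ) :
    Q.ψ (avg k g.1 (c • Q.ray i)) = c * (1 - Q.b i) := by
  rw [avg_apply, map_smul, map_sum]
  have h : ∀ j ∈ Finset.range k, Q.ψ ((g.1 ^ j) (c • Q.ray i)) = c * (1 - Q.b i) := by
    intro j _
    obtain ⟨i', h1, h2⟩ := ray_pow Q hg i j
    rw [map_smul, h1, map_smul, Q.ψ_ray, h2, smul_eq_mul]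
  rw [Finset.sum_congr rfl h, Finset.sum_const, Finset.card_range, nsmul_eq_mul, smul_eq_mul,
    ← mul_assoc, inv_mul_cancel₀ (by exact_mod_cast hk.ne'), one_mul]

lemma thr_le {t : ℝ} {y : ℤ} (h : (y : ℝ) < t) : thr t ≤ t - y := by
  have h1 : y + 1 ≤ ⌈t⌉ := Int.add_one_le_iff.mpr (Int.lt_ceil.mpr h)
  have h2 : ((y : ℝ) + 1) ≤ (⌈t⌉ : ℝ) := by exact_mod_cast h1
  unfold thr
  linarith

lemma thr_self {t : ℝ} (h0 : 0 < t) (h1 : t < 1) : thr t = t := by
  have h2 : ⌈t⌉ = 1 := by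
    rw [Int.ceil_eq_iff]
    constructor
    · push_cast
      linarith
    · push_cast
      linarith
  unfold thr
  rw [h2]
  push_cast
  ring

end CLA

theorem t_CLA (h1 : Stmt_CLO) (h2 : Stmt_CLK) (h3 : Stmt_EIGA) : Stmt_CLA := by
  intro n Q m hm hμ g hg u hu hint
  obtain ⟨k, hk, hgk, -⟩ := Q.finite_order g hg
  obtain ⟨I, x, hx, hux, hli, hcard⟩ := h1 Q m hm g hg hk hgk u hu.fix (interior_subset hint)
  obtain ⟨α, hα, hsum⟩ := h3 g.1 hk hgk
  refine ⟨{i // i ∈ I} ⊕ Fin (rk g.1), inferInstance, Sum.elim (fun i => x i) α,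
    Sum.elim (fun i => (m i : ℝ) * (1 - Q.b i)) (fun _ => 1), ?_, ?_, ?_, ?_, ?_⟩
  · rw [Fintype.card_sum, Fintype.card_coe, Fintype.card_fin]
    exact hcard
  · rintro (i | i)
    · exact hx i i.2
    · exact (hα i).1
  · rintro (i | i)
    · exact Or.inr ⟨i, rfl⟩
    · exact Or.inl rfl
  · rw [Fintype.sum_sum_type]
    simp only [Sum.elim_inl, Sum.elim_inr, one_mul]
    have e1 : ∑ i, α i = (rk g.1 : ℝ) / 2 := by
      have e2 := hsum 1
      rw [pow_one] at e2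
      have e3 : ∀ i, thr (((1 : ℕ) : ℝ) * α i) = α i := by
        intro i
        rw [Nat.cast_one, one_mul]
        exact CLA.thr_self (hα i).1 (hα i).2
      simp only [e3] at e2
      rw [e2]
      ring
    have e4 : Q.ψ u = ∑ i : {i // i ∈ I}, (m i : ℝ) * (1 - Q.b i) * x i := by
      rw [hux, map_sum, ← Finset.sum_coe_sort I]
      refine Finset.sum_congr rfl fun i _ => ?_
      rw [map_smul, CLA.psi_avg Q hg hk, smul_eq_mul]
      ring
    rw [e1, e4, add_comm]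
    rfl
  · intro j hj y hy
    obtain ⟨g', hg', u', hu', hint', hle⟩ := h2 Q m hm hμ g hg hk hgk u hu hint I x hx hux hli j hj
    refine ⟨g', hg', u', hu', hint', hle.trans ?_⟩
    rw [add_sub_assoc, ← hsum j, ← Finset.sum_coe_sort I, Fintype.sum_sum_type]
    simp only [Sum.elim_inl, Sum.elim_inr, one_mul]
    refine add_le_add (Finset.sum_le_sum fun i _ => ?_) (Finset.sum_le_sum fun i _ => ?_)
    · refine mul_le_mul_of_nonneg_left ?_ ?_
      · exact CLA.thr_le (hy (Sum.inl i))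
      · have := Q.b_le_one i
        have h0 : (0 : ℝ) ≤ m i := Nat.cast_nonneg _
        exact mul_nonneg h0 (by linarith)
    · exact CLA.thr_le (hy (Sum.inr i))

end

end XG
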