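import Pool.Agent.XG.St

set_option autoImplicit false

/-!
# XG, module CLK (helper4): the powers
-/

namespace XG

open MldGeo MldGap MldAcc MldQ

noncomputable section

namespace CLK

variable {n : ℕ}

lemma ray_pow (Q : TQ n) {g : Aff n} (hg : g ∈ Q.Γ) (i : Q.ι) (j : ℕ) :
    ∃ i', (g.1 ^ j) (Q.ray i) = Q.ray i' ∧ Q.b i' = Q.b i := by
  induction j with
  | zero => exact ⟨i, rfl, rfl⟩
  | succ j ih =>
    obtain ⟨i', h1, h2⟩ := ih
    obtain ⟨i'', h3, h4⟩ := Q.map_ray g hg i'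
    refine ⟨i'', ?_, h4.trans h2⟩
    rw [pow_succ', Module.End.mul_apply, h1, h3]

lemma psi_pow (Q : TQ n) {g : Aff n} (hg : g ∈ Q.Γ) (i : Q.ι) (c : ℝ) (l : ℕ) :
    Q.ψ ((g.1 ^ l) (c • Q.ray i)) = c * (1 - Q.b i) := by
  obtain ⟨i', h1, h2⟩ := ray_pow Q hg i l
  rw [map_smul, h1, map_smul, Q.ψ_ray, h2, smul_eq_mul]

lemma psi_E (Q : TQ n) {g : Aff n} (hg : g ∈ Q.Γ) {k : ℕ} (hk : 0 < k) (i : Q.ι) (c : ℝ)
    (j l : ℕ) :
    Q.ψ (avg k (g.1 ^ j) ((g.1 ^ l) (c • Q.ray i))) = c * (1 - Q.b i) := by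
  rw [avg_apply, map_smul, map_sum]
  have h : ∀ t ∈ Finset.range k, Q.ψ (((g.1 ^ j) ^ t) ((g.1 ^ l) (c • Q.ray i))) =
      c * (1 - Q.b i) := by
    intro t _
    rw [← pow_mul, ← Module.End.mul_apply, ← pow_add]
    exact psi_pow Q hg i c _
  rw [Finset.sum_congr rfl h, Finset.sum_const, Finset.card_range, nsmul_eq_mul, smul_eq_mul,
    ← mul_assoc, inv_mul_cancel₀ (by exact_mod_cast hk.ne'), one_mul]

lemma cone_sum {ι : Type} [Fintype ι] {κ : Type} {e : ι → (Fin n → ℝ)} (s : Finset κ)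
    (f : κ → (Fin n → ℝ)) (h : ∀ x ∈ s, f x ∈ coneOf e) : ∑ x ∈ s, f x ∈ coneOf e := by
  classical
  induction s using Finset.induction_on with
  | empty => exact ⟨fun _ => 0, fun _ => le_rfl, by simp⟩
  | insert a s ha ih =>
    rw [Finset.sum_insert ha]
    exact coneOf_add (h a (Finset.mem_insert_self a s))
      (ih fun x hx => h x (Finset.mem_insert_of_mem hx))

lemma ray_cone {ι : Type} [Fintype ι] (e : ι → (Fin n → ℝ)) (i : ι) : e i ∈ coneOf e := by
  classical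
  refine ⟨fun i' => if i' = i then 1 else 0, fun i' => ?_, ?_⟩
  · dsimp only
    split_ifs
    · exact zero_le_one
    · exact le_rfl
  · simp

lemma E_cone (Q : TQ n) {g : Aff n} (hg : g ∈ Q.Γ) {k : ℕ} (i : Q.ι) {c : ℝ}
    (hc : 0 ≤ c) (j l : ℕ) :
    avg k (g.1 ^ j) ((g.1 ^ l) (c • Q.ray i)) ∈ coneOf Q.ray := by
  rw [avg_apply]
  refine coneOf_smul (cone_sum _ _ fun t _ => ?_) (inv_nonneg.2 (Nat.cast_nonneg _))
  rw [← pow_mul, ← Module.End.mul_apply, ← pow_add, map_smul]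
  obtain ⟨i', h1, -⟩ := ray_pow Q hg i (j * t + l)
  rw [h1]
  exact coneOf_smul (ray_cone _ _) hc

/-- positive combinations of the same vectors of the cone as an interior point are interior
points -/
lemma interior_of_pos' {ι κ : Type} [Fintype ι] (e : ι → (Fin n → ℝ)) (E : κ → (Fin n → ℝ))
    (hE : ∀ s, E s ∈ coneOf e) (S : Finset κ) (x w : κ → ℝ)
    (hx : ∀ i ∈ S, 0 < x i) (hw : ∀ i ∈ S, 0 < w i)
    (hint : ∑ i ∈ S, x i • E i ∈ interior (coneOf e)) :
    ∑ i ∈ S, w i • E i ∈ interior (coneOf e) := by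
  rcases S.eq_empty_or_nonempty with h | h
  · subst h; simpa using hint
  · obtain ⟨i0, hi0, hmin⟩ := S.exists_min_image (fun i => w i / x i) h
    set t := w i0 / x i0 with ht
    have ht0 : 0 < t := div_pos (hw i0 hi0) (hx i0 hi0)
    have h1 : ∑ i ∈ S, w i • E i = t • ∑ i ∈ S, x i • E i + ∑ i ∈ S, (w i - t * x i) • E i := by
      rw [Finset.smul_sum, ← Finset.sum_add_distrib]
      refine Finset.sum_congr rfl fun i _ => ?_
      rw [smul_smul, ← add_smul]
      congr 1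
      ring
    rw [h1]
    refine interior_add_mem (interior_smul_mem hint ht0) (cone_sum _ _ fun i hi => ?_)
    refine coneOf_smul (hE i) ?_
    have h2 := hmin i hi
    have h3 : t * x i ≤ w i := by
      rw [← le_div_iff₀ (hx i hi)]
      exact h2
    linarith

lemma avg_step {k : ℕ} {φ : (Fin n → ℝ) →ₗ[ℝ] (Fin n → ℝ)} (hφ : φ ^ k = 1)
    (x : Fin n → ℝ) : avg k φ (φ x) = avg k φ x := by
  have h1 : avg k φ (φ x) = φ (avg k φ x) := by
    rw [avg_apply, avg_apply, map_smul, map_sum]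
    congr 1
    refine Finset.sum_congr rfl fun t _ => ?_
    rw [← Module.End.mul_apply, ← Module.End.mul_apply, ← pow_succ, ← pow_succ']
  rw [h1, avg_mem_fix hφ]

lemma avg_pow {k : ℕ} {φ : (Fin n → ℝ) →ₗ[ℝ] (Fin n → ℝ)} (hφ : φ ^ k = 1)
    (l : ℕ) (x : Fin n → ℝ) : avg k φ ((φ ^ l) x) = avg k φ x := by
  induction l with
  | zero => rfl
  | succ l ih => rw [pow_succ', Module.End.mul_apply, avg_step hφ, ih]

lemma avg_avg {k : ℕ} (hk : 0 < k) {φ : (Fin n → ℝ) →ₗ[ℝ] (Fin n → ℝ)} (hφ : φ ^ k = 1)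
    (j : ℕ) (x : Fin n → ℝ) : avg k φ (avg k (φ ^ j) x) = avg k φ x := by
  rw [avg_apply k (φ ^ j), map_smul, map_sum]
  have h : ∀ t ∈ Finset.range k, avg k φ (((φ ^ j) ^ t) x) = avg k φ x := by
    intro t _
    rw [← pow_mul]
    exact avg_pow hφ _ _
  rw [Finset.sum_congr rfl h, Finset.sum_const, Finset.card_range, ← Nat.cast_smul_eq_nsmul ℝ,
    smul_smul, inv_mul_cancel₀ (by exact_mod_cast hk.ne'), one_smul]

lemma thr_pos (t : ℝ) : 0 < thr t := by
  have := Int.ceil_lt_add_one t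
  unfold thr
  linarith

lemma thr_le_one (t : ℝ) : thr t ≤ 1 := by
  have := Int.le_ceil t
  unfold thr
  linarith

/-- the sum of the representatives -/
lemma thr_sum {κ : Type} (S : Finset κ) (c : κ → ℝ) :
    ∑ s ∈ S, thr (c s) ≤ (S.card : ℝ) - 1 + thr (∑ s ∈ S, c s) := by
  set D : ℤ := ⌈∑ s ∈ S, c s⌉ - 1 - ∑ s ∈ S, (⌈c s⌉ - 1) with hD
  have h1 : ∑ s ∈ S, thr (c s) - thr (∑ s ∈ S, c s) = (D : ℝ) := by
    rw [hD]
    unfold thr
    push_cast
    rw [Finset.sum_add_distrib, Finset.sum_sub_distrib, Finset.sum_sub_distrib]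
    ring
  have h2 : ∑ s ∈ S, thr (c s) ≤ (S.card : ℝ) := by
    have := Finset.sum_le_sum fun s (_ : s ∈ S) => thr_le_one (c s)
    simpa using this
  have h3 := thr_pos (∑ s ∈ S, c s)
  have h4 : (D : ℝ) < ((S.card : ℤ) : ℝ) := by
    rw [← h1]
    push_cast
    linarith
  have h5 : D ≤ (S.card : ℤ) - 1 := by
    have h6 : D < (S.card : ℤ) := by exact_mod_cast h4
    omega
  have h7 : (D : ℝ) ≤ (S.card : ℝ) - 1 := by exact_mod_cast h5
  linarith

end CLK

open CLK

theorem t_CLK (h1 : Stmt_DIMB) (h2 : Stmt_SHP) : Stmt_CLK := by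
  classical
  intro n k Q m hm hμ g hg hk hgk u hu hint I x hx hux hli j hj
  set φ := g.1 with hφ
  have hk' : (k : ℝ) ≠ 0 := by exact_mod_cast hk.ne'
  have hj' : (0 : ℝ) < j := by exact_mod_cast hj
  have hφj : (φ ^ j) ^ k = 1 := by rw [← pow_mul, mul_comm, pow_mul, hgk, one_pow]
  have hufix : φ u = u := hu.fix
  -- the family
  let σ : Type := {i // i ∈ I} × Fin k
  let E' : σ → (Fin n → ℝ) := fun s =>
    avg k (φ ^ j) ((φ ^ (s.2 : ℕ)) ((m s.1.1 : ℝ) • Q.ray s.1.1))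
  have hju : (j : ℝ) • u = ∑ s : σ, ((j : ℝ) * x s.1.1 / k) • E' s := by
    have e1 : avg k (φ ^ j) u = u := avg_fix hk (pow_fix hufix j)
    have e2 : (j : ℝ) • u = (j : ℝ) • avg k (φ ^ j)
        (∑ i ∈ I, x i • avg k φ ((m i : ℝ) • Q.ray i)) := by
      rw [← hux, e1]
    rw [e2, map_sum, Finset.smul_sum, Fintype.sum_prod_type, ← Finset.sum_coe_sort I]
    refine Finset.sum_congr rfl fun i _ => ?_
    rw [map_smul, avg_apply k φ, map_smul, map_sum, Finset.sum_range, smul_smul, smul_smul,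
      Finset.smul_sum]
    refine Finset.sum_congr rfl fun l _ => ?_
    rw [div_eq_mul_inv]
  have hcone : (j : ℝ) • u ∈ coneOf E' := by
    refine ⟨fun s => (j : ℝ) * x s.1.1 / k, fun s => ?_, hju⟩
    have := hx s.1.1 s.1.2
    positivity
  obtain ⟨S, c, hc, huS, hS⟩ := caratheodory E' _ hcone
  -- the sums over the fibres
  have hfib : ∀ i : {i // i ∈ I}, ∑ s ∈ S.filter (fun s => s.1 = i), c s = (j : ℝ) * x i := by
    have e1 : avg k φ ((j : ℝ) • u) = ∑ i : {i // i ∈ I}, ((j : ℝ) * x i) •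
        avg k φ ((m i : ℝ) • Q.ray i) := by
      rw [map_smul, avg_fix hk hufix]
      conv_lhs => rw [hux]
      rw [Finset.smul_sum, ← Finset.sum_coe_sort I]
      refine Finset.sum_congr rfl fun i _ => ?_
      rw [smul_smul]
    have e2 : avg k φ ((j : ℝ) • u) = ∑ i : {i // i ∈ I},
        (∑ s ∈ S.filter (fun s => s.1 = i), c s) • avg k φ ((m i : ℝ) • Q.ray i) := by
      rw [huS, map_sum]
      have e3 : ∀ s ∈ S, avg k φ (c s • E' s) =
          c s • avg k φ ((m s.1.1 : ℝ) • Q.ray s.1.1) := by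
        intro s _
        rw [map_smul]
        congr 1
        show avg k φ (avg k (φ ^ j) ((φ ^ (s.2 : ℕ)) ((m s.1.1 : ℝ) • Q.ray s.1.1))) = _
        rw [avg_avg hk hgk, avg_pow hgk]
      rw [Finset.sum_congr rfl e3, ← Finset.sum_fiberwise S (fun s => s.1)]
      refine Finset.sum_congr rfl fun i _ => ?_
      rw [Finset.sum_smul]
      refine Finset.sum_congr rfl fun s hs => ?_
      rw [(Finset.mem_filter.1 hs).2]
    have e4 := e2.symm.trans e1
    rw [← sub_eq_zero, ← Finset.sum_sub_distrib] at e4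
    simp only [← sub_smul] at e4
    intro i
    have e5 := Fintype.linearIndependent_iff.1 hli _ e4 i
    exact sub_eq_zero.1 e5
  have hsurj : ∀ i : {i // i ∈ I}, (S.filter (fun s => s.1 = i)).Nonempty := by
    intro i
    by_contra h
    rw [Finset.not_nonempty_iff_eq_empty] at h
    have e1 := hfib i
    rw [h, Finset.sum_empty] at e1
    have := mul_pos hj' (hx i i.2)
    linarith
  -- dimensions
  have hdim : S.card + rk (φ ^ j) ≤ I.card + rk φ := by
    have e1 := h1 (k := k) (j := j) φ hk hgk (fun s : {s // s ∈ S} => E' s)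
      (fun i : {i // i ∈ I} => avg k φ ((m i : ℝ) • Q.ray i)) (fun s => s.1.1)
      (fun s => avg_mem_fix hφj _) hS hli
      (fun s => by
        show avg k φ (avg k (φ ^ j) ((φ ^ (s.1.2 : ℕ)) ((m s.1.1.1 : ℝ) • Q.ray s.1.1.1))) = _
        rw [avg_avg hk hgk, avg_pow hgk])
      (fun i => by
        obtain ⟨s, hs⟩ := hsurj i
        exact ⟨⟨s, (Finset.mem_filter.1 hs).1⟩, (Finset.mem_filter.1 hs).2⟩)
    rwa [Fintype.card_coe, Fintype.card_coe] at e1
  -- the lattice vector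
  set v : Fin n → ℝ := - ∑ s ∈ S, (⌈c s⌉ - 1 : ℤ) •
    ((φ ^ (s.2 : ℕ)) ((m s.1.1 : ℝ) • Q.ray s.1.1)) with hv
  have hvN : v ∈ Q.N := by
    refine Q.N.neg_mem (Q.N.sum_mem fun s _ => Q.N.zsmul_mem ?_ _)
    have e1 : ∀ l : ℕ, ∀ y ∈ Q.N, (φ ^ l) y ∈ Q.N := by
      intro l
      induction l with
      | zero => exact fun y hy => hy
      | succ l ih =>
        intro y hy
        rw [pow_succ', Module.End.mul_apply]
        exact Q.map_lattice g hg _ (ih y hy)
    refine e1 _ _ ?_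
    have e2 := Q.N.nsmul_mem (Q.ray_mem s.1.1) (m s.1.1)
    rw [← Nat.cast_smul_eq_nsmul ℝ] at e2
    exact e2
  have hu' : (j : ℝ) • u + avg k (φ ^ j) v = ∑ s ∈ S, thr (c s) • E' s := by
    rw [huS, hv, map_neg, map_sum, ← sub_eq_add_neg, ← Finset.sum_sub_distrib]
    refine Finset.sum_congr rfl fun s _ => ?_
    rw [map_zsmul, ← Int.cast_smul_eq_zsmul ℝ]
    show c s • E' s - _ • E' s = _
    rw [← sub_smul]
    congr 1
    unfold thr
    push_cast
    ring
  refine ⟨(φ ^ j, trans g j + v), Q.add_mem _ (Q.pow_mem g hg j) v hvN,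
    (j : ℝ) • u + avg k (φ ^ j) v, h2 g u hk hgk hu j v, ?_, ?_⟩
  · rw [hu']
    refine interior_of_pos' Q.ray E' (fun s => E_cone Q hg _ (Nat.cast_nonneg _) _ _) S c _ hc
      (fun s _ => thr_pos _) ?_
    rw [← huS]
    exact interior_smul_mem hint hj'
  · have hcod : codim ((φ ^ j, trans g j + v) : Aff n) = rk (φ ^ j) := rfl
    rw [hcod, hu', map_sum]
    have e1 : ∀ s ∈ S, Q.ψ (thr (c s) • E' s) =
        (m s.1.1 : ℝ) * (1 - Q.b s.1.1) * thr (c s) := by
      intro s _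
      rw [map_smul, smul_eq_mul, mul_comm]
      congr 1
      exact psi_E Q hg hk s.1.1 _ j s.2
    rw [Finset.sum_congr rfl e1, ← Finset.sum_fiberwise S (fun s => s.1),
      ← Finset.sum_coe_sort I (fun i => (m i : ℝ) * (1 - Q.b i) * thr (j * x i))]
    have e2 : ∀ i : {i // i ∈ I}, ∑ s ∈ S.filter (fun s => s.1 = i),
        (m s.1.1 : ℝ) * (1 - Q.b s.1.1) * thr (c s) ≤
        (m i : ℝ) * (1 - Q.b i) * thr (j * x i) +
          (((S.filter (fun s => s.1 = i)).card : ℝ) - 1) := by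
      intro i
      have e3 : ∑ s ∈ S.filter (fun s => s.1 = i),
          (m s.1.1 : ℝ) * (1 - Q.b s.1.1) * thr (c s) =
          (m i : ℝ) * (1 - Q.b i) * ∑ s ∈ S.filter (fun s => s.1 = i), thr (c s) := by
        rw [Finset.mul_sum]
        refine Finset.sum_congr rfl fun s hs => ?_
        rw [(Finset.mem_filter.1 hs).2]
      rw [e3]
      have e4 := thr_sum (S.filter (fun s => s.1 = i)) c
      rw [hfib i] at e4
      have e5 : 0 ≤ (m i : ℝ) * (1 - Q.b i) :=
        mul_nonneg (Nat.cast_nonneg _) (by linarith [Q.b_le_one i])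
      have e6 := hμ i
      have e7 : (1 : ℝ) ≤ ((S.filter (fun s => s.1 = i)).card : ℝ) := by
        exact_mod_cast (hsurj i).card_pos
      have e8 := mul_le_mul_of_nonneg_left e4 e5
      have e9 := mul_le_mul_of_nonneg_right e6 (sub_nonneg.2 e7)
      nlinarith
    have e3 := Finset.sum_le_sum fun i (_ : i ∈ (Finset.univ : Finset {i // i ∈ I})) => e2 i
    rw [Finset.sum_add_distrib, Finset.sum_sub_distrib] at e3
    have e4 : ∑ i : {i // i ∈ I}, ((S.filter (fun s => s.1 = i)).card : ℝ) = (S.card : ℝ) := by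
      rw [← Nat.cast_sum]
      congr 1
      exact (Finset.card_eq_sum_card_fiberwise (fun s _ => Finset.mem_univ _)).symm
    rw [e4] at e3
    simp only [Finset.sum_const, Finset.card_univ, Fintype.card_coe, nsmul_eq_mul, mul_one] at e3
    have e5 : (S.card : ℝ) + rk (φ ^ j) ≤ (I.card : ℝ) + rk φ := by exact_mod_cast hdim
    linarith

end

end XG
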