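import Pool.Agent.XG.St

/-!
# Sharp gaps for quotients, module CLO: an interior fixed point in terms of the averages of the rays (helper8)
-/

set_option autoImplicit false

namespace XG

open MldGeo MldGap MldAcc MldQ

noncomputable section

namespace CLO

/-- an independent family of fixed vectors -/
theorem card_le {n : ℕ} (φ : (Fin n → ℝ) →ₗ[ℝ] (Fin n → ℝ)) {ι : Type} (I : Finset ι)
    (E : ι → Fin n → ℝ) (hE : ∀ i, φ (E i) = E i)
    (hli : LinearIndependent ℝ (fun i : I => E i)) : I.card + rk φ ≤ n := by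
  have h1 : Module.finrank ℝ (LinearMap.range (φ - 1)) +
      Module.finrank ℝ (LinearMap.ker (φ - 1)) = Module.finrank ℝ (Fin n → ℝ) :=
    LinearMap.finrank_range_add_finrank_ker (φ - 1)
  have hk : ∀ i, E i ∈ LinearMap.ker (φ - 1) := by
    intro i
    rw [LinearMap.mem_ker, LinearMap.sub_apply, hE i, Module.End.one_apply, sub_self]
  let E' : I → LinearMap.ker (φ - 1) := fun i => ⟨E i, hk i⟩
  have h2 : LinearIndependent ℝ E' := by
    apply LinearIndependent.of_comp (LinearMap.ker (φ - 1)).subtype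
    exact hli
  have h3 := h2.fintype_card_le_finrank
  rw [Fintype.card_coe] at h3
  rw [Module.finrank_fin_fun] at h1
  unfold rk
  omega

end CLO

theorem t_CLO : Stmt_CLO := by
  intro n k Q m hm g hg hk hgk u hu hcone
  classical
  obtain ⟨E, hE⟩ : ∃ E : Q.ι → Fin n → ℝ, E = fun i => avg k g.1 ((m i : ℝ) • Q.ray i) := ⟨_, rfl⟩
  have h1 : u ∈ coneOf E := by
    obtain ⟨c, hc, hcu⟩ := hcone
    refine ⟨fun i => c i / m i, fun i => div_nonneg (hc i) (Nat.cast_nonneg _), ?_⟩
    have h2 : u = avg k g.1 u := (avg_fix hk hu).symm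
    rw [h2]
    conv_lhs => rw [hcu]
    rw [map_sum]
    refine Finset.sum_congr rfl fun i _ => ?_
    have h3 : (m i : ℝ) ≠ 0 := by exact_mod_cast (hm i).ne'
    rw [hE]
    change avg k g.1 (c i • Q.ray i) = (c i / m i) • avg k g.1 ((m i : ℝ) • Q.ray i)
    rw [map_smul, map_smul, smul_smul, div_mul_cancel₀ _ h3]
  obtain ⟨I, x, hx, hux, hli⟩ := caratheodory E u h1
  have hfix : ∀ i, g.1 (E i) = E i := by
    intro i
    rw [hE]
    exact avg_mem_fix hgk _
  have h4 := CLO.card_le g.1 I E hfix hli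
  subst hE
  exact ⟨I, x, hx, hux, hli, h4⟩

end

end XG
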