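import Pool.Agent.XG.St
import Pool.Agent.MldGeo.POW

set_option autoImplicit false

/-!
# CODR: integral matrices of finite order with linear part of codimension at most one
-/

namespace XG

open MldGeo MldGap MldAcc MldQ

namespace CODR

variable {n : ℕ}

/-- A lattice vector is determined by its linear form. -/
theorem eq_of_form {u v : Fin n → ℤ} (h : ∀ y : Fin n → ℝ, form u y = form v y) : u = v := by
  classical
  funext i
  have h1 := h (Pi.single i 1)
  rw [TDC.form_apply, TDC.form_apply, Finset.sum_eq_single i, Finset.sum_eq_single i,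
    Pi.single_eq_same, mul_one, mul_one] at h1
  · exact_mod_cast h1
  · intro j _ hj
    rw [Pi.single_eq_of_ne hj, mul_zero]
  · intro hi
    exact absurd (Finset.mem_univ i) hi
  · intro j _ hj
    rw [Pi.single_eq_of_ne hj, mul_zero]
  · intro hi
    exact absurd (Finset.mem_univ i) hi

/-- If `dual φ = 1`, then `φ` is the identity. -/
theorem fix_of_dual (φ : (Fin n → ℤ) →ₗ[ℤ] (Fin n → ℤ)) (h : dual φ = 1) (u : Fin n → ℤ) :
    φ u = u := by
  refine eq_of_form fun y => ?_
  rw [← POW.form_dual, h]
  rfl

/-- If `φ` is the identity, then `dual φ = 1`. -/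
theorem dual_of_fix (φ : (Fin n → ℤ) →ₗ[ℤ] (Fin n → ℤ)) (h : ∀ u, φ u = u) : dual φ = 1 := by
  have h1 : φ = 1 := LinearMap.ext h
  have h2 := POW.dual_pow φ 0
  rw [pow_zero, pow_zero] at h2
  rw [h1]
  exact h2

/-- Powers of an integral matrix and its dual. -/
theorem dual_iter {k : ℕ} (φ : (Fin n → ℤ) →ₗ[ℤ] (Fin n → ℤ)) (h : φ ^ k = 1) :
    dual φ ^ k = 1 := by
  rw [← POW.dual_pow, h]
  exact dual_of_fix 1 fun u => rfl

theorem form_sub (u v : Fin n → ℤ) (y : Fin n → ℝ) : form (u - v) y = form u y - form v y := by
  rw [TDC.form_apply, TDC.form_apply, TDC.form_apply, ← Finset.sum_sub_distrib]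
  refine Finset.sum_congr rfl fun i _ => ?_
  rw [Pi.sub_apply]
  push_cast
  ring

end CODR

theorem t_CODR (_h : Stmt_EIGM) : Stmt_CODR := by
  intro n k φ hk hφ
  have hDk : dual φ ^ k = 1 := CODR.dual_iter φ hφ
  constructor
  · intro h0 u
    refine CODR.fix_of_dual φ ?_ u
    unfold cod at h0
    have h1 : LinearMap.range (dual φ - 1) = ⊥ := Submodule.finrank_eq_zero.mp h0
    exact sub_eq_zero.mp (LinearMap.range_eq_bot.mp h1)
  · intro h1
    unfold cod at h1
    obtain ⟨⟨y, hy⟩, hy0, hall⟩ := finrank_eq_one_iff'.mp h1
    have hyne : y ≠ 0 := fun h => hy0 (Subtype.ext h)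
    have hex : ∀ x : Fin n → ℝ, ∃ c : ℝ, dual φ x = x + c • y := by
      intro x
      obtain ⟨c, hc⟩ := hall ⟨(dual φ - 1) x, LinearMap.mem_range_self _ x⟩
      refine ⟨c, ?_⟩
      have h2 : c • y = (dual φ - 1) x := congrArg Subtype.val hc
      rw [h2, LinearMap.sub_apply, Module.End.one_apply]
      abel
    choose f hf using hex
    -- the eigenvalue on `y`
    have hyy : ∀ j : ℕ, (dual φ ^ j) y = (1 + f y) ^ j • y := by
      intro j
      induction j with
      | zero => simp
      | succ j ih =>
        rw [pow_succ', Module.End.mul_apply, ih, map_smul, hf y, pow_succ]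
        module
    have hpow : (1 + f y) ^ k = 1 := by
      have h2 := hyy k
      rw [hDk, Module.End.one_apply] at h2
      have h3 : ((1 + f y) ^ k - 1) • y = 0 := by
        rw [sub_smul, one_smul, ← h2, sub_self]
      rcases smul_eq_zero.mp h3 with h4 | h4
      · linarith
      · exact absurd h4 hyne
    have habs : |1 + f y| = 1 := by
      have h2 : |1 + f y| ^ k = 1 := by rw [← abs_pow, hpow, abs_one]
      exact (pow_eq_one_iff_of_nonneg (abs_nonneg _) hk.ne').mp h2
    have hm1 : 1 + f y = -1 := by
      rcases eq_or_eq_neg_of_abs_eq habs with h2 | h2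
      · exfalso
        obtain ⟨x0, hx0⟩ := hy
        rw [LinearMap.sub_apply, Module.End.one_apply] at hx0
        have hDy : dual φ y = y := by
          rw [hf y]
          have h3 : f y = 0 := by linarith
          rw [h3, zero_smul, add_zero]
        have hx : dual φ x0 = x0 + y := by
          rw [← hx0]
          abel
        have hit : ∀ j : ℕ, (dual φ ^ j) x0 = x0 + (j : ℝ) • y := by
          intro j
          induction j with
          | zero => simp
          | succ j ih =>
            rw [pow_succ', Module.End.mul_apply, ih, map_add, map_smul, hx, hDy]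
            push_cast
            module
        have h3 := hit k
        rw [hDk, Module.End.one_apply] at h3
        have h4 : (k : ℝ) • y = 0 := by
          have := h3.symm
          rwa [add_eq_left] at this
        rcases smul_eq_zero.mp h4 with h5 | h5
        · exact hk.ne' (by exact_mod_cast h5)
        · exact hyne h5
      · exact h2
    have hDy : dual φ y = -y := by
      rw [hf y]
      have h3 : f y = -2 := by linarith
      rw [h3]
      module
    have hDD : ∀ x, dual φ (dual φ x) = x := by
      intro x
      rw [hf x, map_add, map_smul, hDy, hf x]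
      module
    refine ⟨?_, ?_, ?_⟩
    · intro u
      refine CODR.eq_of_form fun z => ?_
      rw [← POW.form_dual, ← POW.form_dual, hDD]
    · by_contra hcon
      push Not at hcon
      have h2 := CODR.dual_of_fix φ hcon
      rw [h2, sub_self, LinearMap.range_zero, finrank_bot] at h1
      exact absurd h1 (by norm_num)
    · intro m0 m hm0
      -- the differences are proportional
      have hdiff : ∀ (m : Fin n → ℤ) (z : Fin n → ℝ),
          form (φ m - m) z = f z * form m y := by
        intro m z
        rw [CODR.form_sub, ← POW.form_dual, hf z, map_add, map_smul, smul_eq_mul]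
        ring
      have hcoord : ∀ (m : Fin n → ℤ) (i : Fin n),
          (((φ m - m) i : ℤ) : ℝ) = f (Pi.single i 1) * form m y := by
        intro m i
        rw [← hdiff m (Pi.single i 1)]
        classical
        rw [TDC.form_apply, Finset.sum_eq_single i, Pi.single_eq_same, mul_one]
        · intro j _ hj
          rw [Pi.single_eq_of_ne hj, mul_zero]
        · intro hi
          exact absurd (Finset.mem_univ i) hi
      have hprop : ∀ i j : Fin n,
          (φ m0 - m0) i * (φ m - m) j = (φ m - m) i * (φ m0 - m0) j := by
        intro i j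
        have h2 : (((φ m0 - m0) i * (φ m - m) j : ℤ) : ℝ) = (((φ m - m) i * (φ m0 - m0) j : ℤ) : ℝ) := by
          push_cast [hcoord]
          ring
        exact_mod_cast h2
      obtain ⟨i, hi⟩ : ∃ i, (φ m0 - m0) i ≠ 0 := by
        by_contra hcon
        push Not at hcon
        refine hm0 (sub_eq_zero.mp (funext hcon))
      refine ⟨(φ m0 - m0) i * (φ m0 - m0) i, (φ m0 - m0) i * (φ m - m) i,
        mul_self_pos.mpr hi, ?_⟩
      rw [map_sub, map_zsmul, map_zsmul]
      funext j
      have h2 := hprop i j
      simp only [Pi.sub_apply, Pi.smul_apply, smul_eq_mul] at h2 ⊢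
      linear_combination ((φ m0) i - m0 i) * h2

end XG
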