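import Pool.Agent.XG.St

set_option autoImplicit false

/-!
# XG, module DIMB: a dimension count
-/

namespace XG

open MldGeo MldGap MldAcc MldQ

namespace DIMB

theorem key {n : ℕ} (f : (Fin n → ℝ) →ₗ[ℝ] (Fin n → ℝ)) (P : Submodule ℝ (Fin n → ℝ)) :
    Module.finrank ℝ (P.map f) +
      Module.finrank ℝ (P ⊓ LinearMap.ker f : Submodule ℝ (Fin n → ℝ)) = Module.finrank ℝ P := by
  have h := LinearMap.finrank_range_add_finrank_ker (f.domRestrict P)
  have e0 : LinearMap.range (f.domRestrict P) = P.map f := by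
    ext x
    simp only [LinearMap.mem_range, LinearMap.domRestrict_apply, Submodule.mem_map]
    constructor
    · rintro ⟨y, rfl⟩
      exact ⟨y, y.2, rfl⟩
    · rintro ⟨y, hy, rfl⟩
      exact ⟨⟨y, hy⟩, rfl⟩
  have e1 : (LinearMap.ker (f.domRestrict P)).map P.subtype = P ⊓ LinearMap.ker f := by
    ext x
    simp only [Submodule.mem_map, LinearMap.mem_ker, LinearMap.domRestrict_apply,
      Submodule.mem_inf]
    constructor
    · rintro ⟨y, hy, rfl⟩
      exact ⟨y.2, hy⟩
    · rintro ⟨hx, hx'⟩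
      exact ⟨⟨x, hx⟩, hx', rfl⟩
  rw [e0] at h
  rw [← e1, Submodule.finrank_map_subtype_eq]
  exact h

end DIMB

theorem t_DIMB : Stmt_DIMB := by
  intro n k j φ hk hφ S I _ _ e E p he hei hE hav hp
  set W : Submodule ℝ (Fin n → ℝ) := Submodule.span ℝ (Set.range e) with hW
  set F : Submodule ℝ (Fin n → ℝ) := LinearMap.ker (φ - 1) with hF
  set Fj : Submodule ℝ (Fin n → ℝ) := LinearMap.ker (φ ^ j - 1) with hFj
  -- dimensions
  have d1 : Module.finrank ℝ W = Fintype.card S := finrank_span_eq_card hei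
  have d2 : rk φ + Module.finrank ℝ F = n := by
    have h := LinearMap.finrank_range_add_finrank_ker (φ - 1)
    rw [Module.finrank_fin_fun] at h
    exact h
  have d3 : rk (φ ^ j) + Module.finrank ℝ Fj = n := by
    have h := LinearMap.finrank_range_add_finrank_ker (φ ^ j - 1)
    rw [Module.finrank_fin_fun] at h
    exact h
  have i1 : W ≤ Fj := by
    rw [hW, Submodule.span_le]
    rintro _ ⟨s, rfl⟩
    rw [hFj, SetLike.mem_coe, LinearMap.mem_ker, LinearMap.sub_apply, Module.End.one_apply, he s,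
      sub_self]
  have i2 : F ≤ Fj.map (avg k φ) := by
    intro x hx
    rw [hF, LinearMap.mem_ker, LinearMap.sub_apply, Module.End.one_apply, sub_eq_zero] at hx
    refine Submodule.mem_map.2 ⟨x, ?_, avg_fix hk hx⟩
    rw [hFj, LinearMap.mem_ker, LinearMap.sub_apply, Module.End.one_apply, pow_fix hx j, sub_self]
  have i3 : W.map (avg k φ) ≤ Submodule.span ℝ (Set.range E) := by
    rw [hW, Submodule.map_span, Submodule.span_le]
    rintro _ ⟨_, ⟨s, rfl⟩, rfl⟩
    rw [hav s]
    exact Submodule.subset_span ⟨p s, rfl⟩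
  have d4 : Module.finrank ℝ (W.map (avg k φ)) ≤ Fintype.card I :=
    (Submodule.finrank_mono i3).trans (finrank_range_le_card E)
  have d5 : Module.finrank ℝ F ≤ Module.finrank ℝ (Fj.map (avg k φ)) := Submodule.finrank_mono i2
  have k1 := DIMB.key (avg k φ) W
  have k2 := DIMB.key (avg k φ) Fj
  have k3 : Module.finrank ℝ (W ⊓ LinearMap.ker (avg k φ) : Submodule ℝ (Fin n → ℝ)) ≤
      Module.finrank ℝ (Fj ⊓ LinearMap.ker (avg k φ) : Submodule ℝ (Fin n → ℝ)) :=
    Submodule.finrank_mono (inf_le_inf_right _ i1)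
  omega

end XG
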