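import Pool.Agent.XG.St

set_option autoImplicit false

namespace XG

open MldGeo MldGap MldAcc MldQ

namespace EigaAux

theorem rank_eq {n : ℕ} (φ : (Fin n → ℝ) →ₗ[ℝ] (Fin n → ℝ)) (j : ℕ) :
    ((LinearMap.toMatrix' φ) ^ j - 1).rank = rk (φ ^ j) := by
  have h1 : (LinearMap.toMatrix' φ) ^ j - 1 = LinearMap.toMatrix' (φ ^ j - 1) := by
    rw [map_sub, LinearMap.toMatrix'_one]
    congr 1
    induction j with
    | zero => simp
    | succ m ih => rw [pow_succ, pow_succ, LinearMap.toMatrix'_mul, ih]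
  rw [h1]
  unfold Matrix.rank rk
  rw [← Matrix.toLin'_apply', Matrix.toLin'_toMatrix']

theorem thr_eq (k m : ℕ) (hk : 0 < k) :
    thr ((m : ℝ) / k) = (if k ∣ m then (1 : ℝ) else 0) + ((m % k : ℕ) : ℝ) / k := by
  have hk' : (0 : ℝ) < k := by exact_mod_cast hk
  have hkk : (k : ℝ) ≠ 0 := hk'.ne'
  obtain ⟨q, hq⟩ : ∃ q, q = m / k := ⟨_, rfl⟩
  obtain ⟨s, hs⟩ : ∃ s, s = m % k := ⟨_, rfl⟩
  have hN : k * q + s = m := by rw [hq, hs]; exact Nat.div_add_mod m k
  have hdiv : (m : ℝ) = k * (q : ℝ) + (s : ℝ) := by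
    exact_mod_cast hN.symm
  have h1 : (m : ℝ) / k = (q : ℝ) + (s : ℝ) / k := by
    rw [hdiv]
    field_simp
  unfold thr
  rw [← hs]
  by_cases h : k ∣ m
  · have h0 : s = 0 := by rw [hs]; exact Nat.mod_eq_zero_of_dvd h
    rw [if_pos h, h1, h0]
    simp
  · have hpos : 0 < s := by
      rw [hs]
      exact Nat.pos_of_ne_zero fun h0 => h (Nat.dvd_of_mod_eq_zero h0)
    have hlt : s < k := by rw [hs]; exact Nat.mod_lt _ hk
    have hp' : (0 : ℝ) < (s : ℝ) / k := by
      apply div_pos _ hk'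
      exact_mod_cast hpos
    have hl' : (s : ℝ) / k < 1 := by
      rw [div_lt_one hk']
      exact_mod_cast hlt
    have hc : ⌈(m : ℝ) / k⌉ = (q : ℤ) + 1 := by
      rw [Int.ceil_eq_iff, h1]
      push_cast
      constructor <;> linarith
    rw [if_neg h, hc, h1]
    push_cast
    ring

end EigaAux

open EigaAux in
theorem t_EIGA (h : Stmt_EIGM) : Stmt_EIGA := by
  classical
  intro n k φ hk hφ
  set A : Matrix (Fin n) (Fin n) ℝ := LinearMap.toMatrix' φ with hA
  have hpow : ∀ j : ℕ, A ^ j = LinearMap.toMatrix' (φ ^ j) := by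
    intro j
    induction j with
    | zero => simp
    | succ m ih => rw [pow_succ, pow_succ, LinearMap.toMatrix'_mul, ih]
  have hAk : A ^ k = 1 := by
    rw [hpow, hφ, LinearMap.toMatrix'_one]
  obtain ⟨R, a, -, -, hlt, hj⟩ := h A hk hAk
  have hcard : ∀ j : ℕ, (Finset.univ.filter fun r => ¬ k ∣ j * a r).card = rk (φ ^ j) := by
    intro j
    rw [← (hj j).1, hA, rank_eq]
  set S : Finset (Fin n) := Finset.univ.filter fun r => ¬ k ∣ a r with hS
  have hSc : S.card = rk φ := by
    have := hcard 1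
    simpa [hS] using this
  have hkR : (0 : ℝ) < k := by exact_mod_cast hk
  let e : Fin (rk φ) ≃ S := (S.equivFinOfCardEq hSc).symm
  refine ⟨fun i => (a (e i).1 : ℝ) / k, ?_, ?_⟩
  · intro i
    have hm : ¬ k ∣ a (e i).1 := (Finset.mem_filter.1 (e i).2).2
    have hpos : 0 < a (e i).1 := Nat.pos_of_ne_zero fun h0 => hm (by rw [h0]; exact dvd_zero k)
    constructor
    · apply div_pos _ hkR
      exact_mod_cast hpos
    · rw [div_lt_one hkR]
      exact_mod_cast hlt _
  · intro j
    have h1 : ∀ i : Fin (rk φ), thr ((j : ℝ) * ((a (e i).1 : ℝ) / k)) =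
        (fun r : Fin n => (if k ∣ j * a r then (1 : ℝ) else 0) + ((j * a r % k : ℕ) : ℝ) / k)
          ((e i).1) := by
      intro i
      have := thr_eq k (j * a (e i).1) hk
      refine Eq.trans ?_ this
      congr 1
      push_cast
      ring
    rw [Finset.sum_congr rfl fun i _ => h1 i]
    rw [Equiv.sum_comp e (fun s : S => (fun r : Fin n =>
      (if k ∣ j * a r then (1 : ℝ) else 0) + ((j * a r % k : ℕ) : ℝ) / k) s.1)]
    rw [Finset.sum_coe_sort S (fun r : Fin n =>
      (if k ∣ j * a r then (1 : ℝ) else 0) + ((j * a r % k : ℕ) : ℝ) / k)]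
    rw [Finset.sum_add_distrib]
    have h2 : ∑ r ∈ S, ((j * a r % k : ℕ) : ℝ) / k = (rk (φ ^ j) : ℝ) / 2 := by
      have h3 : ∑ r ∈ S, ((j * a r % k : ℕ) : ℝ) / k =
          ∑ r, ((j * a r % k : ℕ) : ℝ) / k := by
        apply Finset.sum_subset (Finset.subset_univ _)
        intro r _ hr
        have hd : k ∣ a r := by
          by_contra hc
          exact hr (Finset.mem_filter.2 ⟨Finset.mem_univ _, hc⟩)
        have h0 : a r = 0 := Nat.eq_zero_of_dvd_of_lt hd (hlt r)
        rw [h0]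
        simp
      rw [h3, ← Finset.sum_div]
      have h4 := (hj j).2
      rw [hcard j] at h4
      have h5 : (2 : ℝ) * ∑ r, ((j * a r % k : ℕ) : ℝ) = k * (rk (φ ^ j) : ℝ) := by
        exact_mod_cast h4
      field_simp
      linarith
    have h6 : ∑ r ∈ S, (if k ∣ j * a r then (1 : ℝ) else 0) = (rk φ : ℝ) - (rk (φ ^ j) : ℝ) := by
      rw [Finset.sum_boole]
      have h7 : (S.filter fun r => k ∣ j * a r).card + (S.filter fun r => ¬ k ∣ j * a r).card =
          S.card := Finset.card_filter_add_card_filter_not _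
      have h8 : (S.filter fun r => ¬ k ∣ j * a r) = Finset.univ.filter fun r => ¬ k ∣ j * a r := by
        ext r
        simp only [hS, Finset.mem_filter, Finset.mem_univ, true_and]
        constructor
        · exact fun hh => hh.2
        · exact fun hh => ⟨fun hd => hh (Dvd.dvd.mul_left hd j), hh⟩
      rw [h8, hcard j, hSc] at h7
      have h9 : (((S.filter fun r => k ∣ j * a r).card : ℕ) : ℝ) + (rk (φ ^ j) : ℝ) = (rk φ : ℝ) := by
        exact_mod_cast h7
      linarith
    rw [h2, h6]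
    ring

end XG
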