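import Pool.Agent.XG.St

/-!
# EIGM: diagonalization of real matrices of finite order
-/

set_option autoImplicit false

namespace XG

open MldGeo MldGap MldAcc MldQ

noncomputable section

namespace EIGM

/-- The rank does not change under the extension of scalars from `ℝ` to `ℂ`. -/
theorem rank_map {m : Type} [Fintype m] [DecidableEq m] (M : Matrix m m ℝ) :
    (M.map (algebraMap ℝ ℂ)).rank = M.rank := by
  classical
  obtain ⟨V, U, e, hV, hU, h⟩ := Matrix.exists_rank_normal_form M
  obtain ⟨w, hw⟩ : ∃ w : m → ℝ, V * M * U = Matrix.diagonal w := by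
    refine ⟨(Sum.elim (fun _ => (1 : ℝ)) (fun _ => (0 : ℝ))) ∘ e, ?_⟩
    rw [h, ← Matrix.submatrix_diagonal_equiv, ← Matrix.fromBlocks_diagonal, Matrix.diagonal_one,
      Matrix.diagonal_zero]
  let φ := (algebraMap ℝ ℂ).mapMatrix (m := m)
  have hV' : IsUnit (φ V).det := (Matrix.isUnit_iff_isUnit_det _).1 (hV.map φ)
  have hU' : IsUnit (φ U).det := (Matrix.isUnit_iff_isUnit_det _).1 (hU.map φ)
  have hφ : φ V * φ M * φ U = Matrix.diagonal (fun i => (w i : ℂ)) := by
    rw [← map_mul, ← map_mul, hw]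
    show (Matrix.diagonal w).map (algebraMap ℝ ℂ) = _
    rw [Matrix.diagonal_map (map_zero _)]
    rfl
  have h1 : (φ M).rank = Fintype.card {i // (w i : ℂ) ≠ 0} := by
    rw [← Matrix.rank_mul_eq_right_of_isUnit_det (φ V) (φ M) hV',
      ← Matrix.rank_mul_eq_left_of_isUnit_det (φ U) (φ V * φ M) hU', hφ, Matrix.rank_diagonal]
  have h2 : M.rank = Fintype.card {i // w i ≠ 0} := by
    rw [← Matrix.rank_mul_eq_right_of_isUnit_det V M ((Matrix.isUnit_iff_isUnit_det _).1 hV),
      ← Matrix.rank_mul_eq_left_of_isUnit_det U (V * M) ((Matrix.isUnit_iff_isUnit_det _).1 hU),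
      hw, Matrix.rank_diagonal]
  show (φ M).rank = M.rank
  rw [h1, h2]
  exact Fintype.card_congr (Equiv.subtypeEquivRight fun i => by simp)

/-- Residues of opposite multiples. -/
theorem mod_add {k a j : ℕ} (hk : 0 < k) (ha : a < k) :
    (j * a) % k + (j * ((k - a) % k)) % k = if k ∣ j * a then 0 else k := by
  rw [Nat.mul_mod_mod]
  have h1 : j * a + j * (k - a) = j * k := by
    rw [← mul_add]
    congr 1
    omega
  have h2 : ((j * a) % k + (j * (k - a)) % k) % k = 0 := by
    rw [← Nat.add_mod, h1, Nat.mul_mod_left]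
  have h3 := Nat.mod_lt (j * a) hk
  have h4 := Nat.mod_lt (j * (k - a)) hk
  by_cases hd : k ∣ j * a
  · rw [if_pos hd, Nat.mod_eq_zero_of_dvd hd, zero_add]
    rw [Nat.mod_eq_zero_of_dvd hd, zero_add, Nat.mod_mod] at h2
    exact h2
  · rw [if_neg hd]
    have h5 : (j * a) % k ≠ 0 := fun h => hd (Nat.dvd_of_mod_eq_zero h)
    obtain ⟨c, hc⟩ := Nat.dvd_of_mod_eq_zero h2
    have h6 : c = 1 := by
      rcases Nat.lt_or_ge c 1 with h | h
      · have : c = 0 := by omega
        rw [this, mul_zero] at hc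
        omega
      · rcases Nat.lt_or_ge c 2 with h' | h'
        · omega
        · have : k * 2 ≤ k * c := Nat.mul_le_mul_left _ h'
          omega
    rw [h6, mul_one] at hc
    exact hc

end EIGM

open EIGM in
/-- EIGM -/
theorem t_EIGM : Stmt_EIGM := by
  classical
  intro n k A hk hA
  let φ := (algebraMap ℝ ℂ).mapMatrix (m := Fin n)
  obtain ⟨B, hB⟩ : ∃ B : Matrix (Fin n) (Fin n) ℂ, B = A.map (algebraMap ℝ ℂ) := ⟨_, rfl⟩
  have hφA : ∀ j : ℕ, (A ^ j).map (algebraMap ℝ ℂ) = B ^ j := by
    intro j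
    have h1 : φ (A ^ j) = φ A ^ j := map_pow φ A j
    rw [hB]
    exact h1
  have hBk : B ^ k = 1 := by
    rw [← hφA k, hA]
    exact map_one φ
  have hf : (Matrix.toLin' B) ^ k = 1 := by
    rw [← Matrix.toLin'_pow, hBk, Matrix.toLin'_one]
    rfl
  obtain ⟨b, l, hb⟩ := DIA.exists_basis _ k hk hf
  have : NeZero k := ⟨hk.ne'⟩
  have hprim := Complex.isPrimitiveRoot_exp k hk.ne'
  set ζ := Complex.exp (2 * Real.pi * Complex.I / k) with hζ
  obtain ⟨R, hRdef⟩ : ∃ R : Matrix (Fin n) (Fin n) ℂ, R = Matrix.of fun i j => b j i := ⟨_, rfl⟩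
  have hRapp : ∀ i j, R i j = b j i := fun i j => by rw [hRdef]; rfl
  have hRT : IsUnit R.transpose := by
    rw [← Matrix.linearIndependent_rows_iff_isUnit]
    have : R.transpose.row = fun i => b i := by
      funext i j
      show R j i = b i j
      rw [hRapp]
    rw [this]
    exact b.linearIndependent
  have hRdet : R.det ≠ 0 := by
    have h1 := ((Matrix.isUnit_iff_isUnit_det _).1 hRT).ne_zero
    rwa [Matrix.det_transpose] at h1
  have hRu : IsUnit R := (Matrix.isUnit_iff_isUnit_det _).2 (isUnit_iff_ne_zero.2 hRdet)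
  have hBR : B * R = R * Matrix.diagonal l := by
    ext i j
    rw [Matrix.mul_diagonal, Matrix.mul_apply, hRapp]
    have h1 := congrFun (hb j) i
    rw [Matrix.toLin'_apply, Matrix.mulVec, dotProduct, Pi.smul_apply, smul_eq_mul] at h1
    rw [mul_comm, ← h1]
    exact Finset.sum_congr rfl fun m _ => by rw [hRapp]
  have hBRj : ∀ j : ℕ, B ^ j * R = R * Matrix.diagonal (fun r => l r ^ j) := by
    intro j
    induction j with
    | zero => simp
    | succ j ih =>
      rw [pow_succ, mul_assoc, hBR, ← mul_assoc, ih, mul_assoc, Matrix.diagonal_mul_diagonal]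
      congr 2
  have hlk : ∀ r, l r ^ k = 1 := by
    intro r
    have h1 := hBRj k
    rw [hBk, one_mul] at h1
    have h2 : R * 1 = R * Matrix.diagonal (fun r => l r ^ k) := by rw [mul_one]; exact h1
    have h3 := hRu.mul_left_cancel h2
    have h4 := congrFun (congrFun h3 r) r
    rw [Matrix.diagonal_apply_eq, Matrix.one_apply_eq] at h4
    exact h4.symm
  choose a hak haζ using fun r => hprim.eq_pow_of_pow_eq_one (hlk r)
  have hexp : ∀ r, Complex.exp (2 * Real.pi * Complex.I * a r / k) = l r := by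
    intro r
    rw [← haζ r, hζ, ← Complex.exp_nat_mul]
    congr 1
    ring
  have hone : ∀ (j : ℕ) (r : Fin n), l r ^ j = 1 ↔ k ∣ j * a r := by
    intro j r
    rw [← haζ r, ← pow_mul, hprim.pow_eq_one_iff_dvd, mul_comm]
  -- the invariance under complex conjugation
  have hchar : B.charpoly = ∏ r, (Polynomial.X - Polynomial.C (l r)) := by
    obtain ⟨P, hP⟩ := hRu
    have h1 : B = (P : Matrix (Fin n) (Fin n) ℂ) * Matrix.diagonal l *
        ((P⁻¹ : (Matrix (Fin n) (Fin n) ℂ)ˣ) : Matrix (Fin n) (Fin n) ℂ) := by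
      rw [hP, ← hBR, ← hP, mul_assoc, Units.mul_inv, mul_one]
    rw [h1, Matrix.coe_units_inv, Matrix.charpoly_units_conj, Matrix.charpoly_diagonal]
  have hconjB : B.map (starRingEnd ℂ) = B := by
    rw [hB, Matrix.map_map]
    congr 1
    funext x
    exact Complex.conj_ofReal x
  have hroots : ∀ f : Fin n → ℂ, (∏ r, (Polynomial.X - Polynomial.C (f r))).roots =
      Multiset.map f Finset.univ.val := by
    intro f
    have h2 : (∏ i, (Polynomial.X - Polynomial.C (f i))) =
        ((Multiset.map f Finset.univ.val).map fun a => Polynomial.X - Polynomial.C a).prod := by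
      rw [Multiset.map_map]
      rfl
    rw [h2, Polynomial.roots_multiset_prod_X_sub_C]
  have hconj : Multiset.map (fun r => (starRingEnd ℂ) (l r)) Finset.univ.val =
      Multiset.map l Finset.univ.val := by
    have h1 : B.charpoly.map (starRingEnd ℂ) = B.charpoly := by
      rw [← Matrix.charpoly_map, hconjB]
    rw [hchar, Polynomial.map_prod] at h1
    simp only [Polynomial.map_sub, Polynomial.map_X, Polynomial.map_C] at h1
    rw [← hroots, ← hroots, h1]
  -- the exponents
  have hinj : Set.InjOn (fun i : ℕ => ζ ^ i) (Set.Iio k) := by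
    intro i hi j hj hij
    exact hprim.pow_inj hi hj hij
  obtain ⟨g, hg⟩ : ∃ g : ℂ → ℕ, ∀ i < k, g (ζ ^ i) = i :=
    ⟨Function.invFunOn (fun i : ℕ => ζ ^ i) (Set.Iio k), fun i hi => hinj.leftInvOn_invFunOn hi⟩
  have hcl : ∀ r, (starRingEnd ℂ) (l r) = ζ ^ ((k - a r) % k) := by
    intro r
    have h0 : l r ≠ 0 := by
      intro h
      have := hlk r
      rw [h, zero_pow hk.ne'] at this
      exact zero_ne_one this
    have h1 : (starRingEnd ℂ) (l r) * l r = 1 := by
      rw [mul_comm, Complex.mul_conj, Complex.normSq_eq_norm_sq,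
        Complex.norm_eq_one_of_pow_eq_one (hlk r) hk.ne']
      simp
    have h2 : ζ ^ ((k - a r) % k) * l r = 1 := by
      rw [← haζ r, ← pow_add, hprim.pow_eq_one_iff_dvd]
      refine Nat.dvd_of_mod_eq_zero ?_
      rw [Nat.mod_add_mod, Nat.sub_add_cancel (hak r).le, Nat.mod_self]
    exact mul_right_cancel₀ h0 (h1.trans h2.symm)
  have hsum : ∀ j : ℕ, ∑ r, (j * ((k - a r) % k)) % k = ∑ r, (j * a r) % k := by
    intro j
    have h1 := congrArg (fun s : Multiset ℂ => (s.map fun z => (j * g z) % k).sum) hconj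
    simp only [Multiset.map_map, Function.comp_def] at h1
    have h2 : ∑ r, (j * g ((starRingEnd ℂ) (l r))) % k = ∑ r, (j * g (l r)) % k := h1
    have h3 : ∀ r, g (l r) = a r := fun r => by rw [← haζ r]; exact hg _ (hak r)
    have h4 : ∀ r, g ((starRingEnd ℂ) (l r)) = (k - a r) % k := fun r => by
      rw [hcl r]
      exact hg _ (Nat.mod_lt _ hk)
    simp only [h3, h4] at h2
    exact h2
  refine ⟨R, a, hRdet, ?_, hak, fun j => ⟨?_, ?_⟩⟩
  · rw [← hB, hBR]
    congr 2
    funext r
    exact (hexp r).symm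
  · rw [← rank_map]
    have h1 : (A ^ j - 1).map (algebraMap ℝ ℂ) = B ^ j - 1 := by
      rw [← hφA j]
      have h2 : φ (A ^ j - 1) = φ (A ^ j) - φ 1 := map_sub φ _ _
      rw [map_one] at h2
      exact h2
    have h2 : (B ^ j - 1) * R = R * Matrix.diagonal (fun r => l r ^ j - 1) := by
      rw [sub_mul, hBRj j, one_mul]
      ext i r
      rw [Matrix.sub_apply, Matrix.mul_diagonal, Matrix.mul_diagonal]
      ring
    have hRd : IsUnit R.det := isUnit_iff_ne_zero.2 hRdet
    rw [h1, ← Matrix.rank_mul_eq_left_of_isUnit_det R (B ^ j - 1) hRd, h2,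
      Matrix.rank_mul_eq_right_of_isUnit_det R _ hRd, Matrix.rank_diagonal,
      Fintype.card_subtype]
    congr 1
    ext r
    simp only [Finset.mem_filter, Finset.mem_univ, true_and, ne_eq, sub_eq_zero, hone j r]
  · have h1 : ∑ r, ((j * a r) % k + (j * ((k - a r) % k)) % k) =
        ∑ r, if k ∣ j * a r then 0 else k :=
      Finset.sum_congr rfl fun r _ => mod_add hk (hak r)
    rw [Finset.sum_add_distrib, hsum j] at h1
    rw [two_mul, h1]
    have h2 : ∀ r : Fin n, (if k ∣ j * a r then 0 else k) =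
        if ¬ k ∣ j * a r then k else 0 := fun r => by
      by_cases h : k ∣ j * a r <;> simp [h]
    simp only [h2]
    rw [← Finset.sum_filter, Finset.sum_const, smul_eq_mul, mul_comm]

end

end XG
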