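import Pool.Agent.XG.FIX

set_option autoImplicit false

/-!
# FIC: the bound for the minimal log discrepancy at closed points of the quotients of toric germs
-/

namespace XG

open MldGeo MldGap MldAcc MldQ

noncomputable section

namespace FIC

open FIX TDC

variable {n : ℕ} {X : Germ n} {T : Triple X}

theorem core_nonneg {b : ℝ} (h : G5.Core n 1 b) : 0 ≤ b := by
  have h1 := h 0 (Nat.zero_le n) (fun i : Fin 0 => i.elim0)
    ⟨fun i => i.elim0, fun i => i.elim0, by simp, fun k => by simp, fun i => i.elim0⟩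
  simpa using h1

/-- Positive on the nonzero elements implies nonnegative. -/
theorem nonneg_of_pos {S : AddSubmonoid (Fin n → ℤ)} {z : Fin n → ℝ}
    (h : ∀ u ∈ S, u ≠ 0 → 0 < form u z) : ∀ u ∈ S, 0 ≤ form u z := by
  intro u hu
  by_cases h0 : u = 0
  · subst h0
    have h1 : form (0 : Fin n → ℤ) z = 0 := by simp [form]
    rw [h1]
  · exact (h u hu h0).le

theorem ne_of_pos {S : AddSubmonoid (Fin n → ℤ)} (hn : 0 < n)
    (hgen : AddSubgroup.closure (S : Set (Fin n → ℤ)) = ⊤) {z : Fin n → ℝ}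
    (h : ∀ u ∈ S, u ≠ 0 → 0 < form u z) : z ≠ 0 := by
  rintro rfl
  obtain ⟨u, hu, hu0⟩ := QFin.exists_ne hn hgen
  have h1 := h u hu hu0
  rw [map_zero] at h1
  exact lt_irrefl _ h1

end FIC

open FIX FIC TDC in
/-- FIC -/
theorem t_FIC (h1 : Stmt_TDT) (h2 : Stmt_LWX) (h3 : Stmt_UPX) (h4 : Stmt_RFT) : Stmt_FIC := by
  classical
  intro n b hn hcore μ hμ hlt
  obtain ⟨X, Y, G, π, T, T', hQ, hC, hJ, hJ', hNB, hNB', hA, rfl⟩ := hμ
  have hfin : Finite G := hQ.finite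
  have hex : ∀ g : G, ∃ (A : TorusAction X n) (D : TDat X T),
      A.Normal (g : X.K ≃ₐ[ℂ] X.K) ∧ GradedBy A D.χ D.S := by
    intro g
    obtain ⟨A, hA1⟩ := hA g g.2
    obtain ⟨D, hD⟩ := h1 X A T hn hJ hNB
    exact ⟨A, D, hA1, hD⟩
  choose A D hAN hAG using hex
  by_cases hbdd : BddBelow {a : ℝ | ∃ v, Y.At v ∧ T'.disc v = a}
  swap
  · unfold Triple.mld
    rw [Real.sInf_of_not_bddBelow hbdd]
    exact FIC.core_nonneg hcore
  by_cases hne : {a : ℝ | ∃ v, Y.At v ∧ T'.disc v = a}.Nonempty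
  swap
  · rw [Set.not_nonempty_iff_eq_empty] at hne
    unfold Triple.mld
    rw [hne, Real.sInf_empty]
    exact FIC.core_nonneg hcore
  obtain ⟨_, ⟨v, hv, rfl⟩, hvlt⟩ := exists_lt_of_csInf_lt hne hlt
  have hlow := h2 X Y G π T T' hn hQ hC hJ hJ' hNB D
    (fun g => ⟨A g, hAN g, hAG g⟩) v (at_through hv) hvlt
  obtain ⟨s0, g0, hg0, z0, -, -, hz0a, hz0d, hz0p⟩ :=
    hlow.resolve_left fun h => h.1 hv
  have hz0p := hz0p hv
  -- the order of the group
  obtain ⟨N, hN0, hN⟩ : ∃ N : ℕ, 0 < N ∧ ∀ g ∈ G, g ^ N = 1 := by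
    refine ⟨Nat.card G, Nat.card_pos, fun g hg => ?_⟩
    have h4 : (⟨g, hg⟩ : G) ^ Nat.card G = 1 := pow_card_eq_one'
    exact congrArg Subtype.val h4
  -- the least value
  obtain ⟨Z, hZ⟩ : ∃ Z : Set (G × (Fin n → ℝ)), Z = {p |
    (∀ u ∈ (D p.1).S, u ≠ 0 → 0 < form u p.2) ∧ (∃ g ∈ G, (D p.1).Acts g p.2) ∧
      (D p.1).ψ p.2 ≤ 1} := ⟨_, rfl⟩
  have hZf : Z.Finite := by
    refine (Set.finite_iUnion (fun s : G => (finite_z (D s) hN0 hN).image (Prod.mk s))).subset ?_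
    rw [hZ]
    rintro ⟨s, z⟩ ⟨hz1, hz2, hz3⟩
    exact Set.mem_iUnion.2 ⟨s, z, ⟨nonneg_of_pos hz1, hz2, hz3⟩, rfl⟩
  have hz0lt : (D s0).ψ z0 < 1 := lt_of_le_of_lt hz0d hvlt
  have hZn : Z.Nonempty := ⟨(s0, z0), by rw [hZ]; exact ⟨hz0p, ⟨g0, hg0, hz0a⟩, hz0lt.le⟩⟩
  obtain ⟨⟨s, z⟩, hzZ, hzmin⟩ := hZf.exists_minimalFor (fun p => (D p.1).ψ p.2) Z hZn
  have hmin0 : ∀ (t : G) (w : Fin n → ℝ), (∀ u ∈ (D t).S, u ≠ 0 → 0 < form u w) →
      (∃ g ∈ G, (D t).Acts g w) → (D s).ψ z ≤ (D t).ψ w := by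
    intro t w hw hwa
    have hz1 : (D s).ψ z ≤ 1 := by
      rw [hZ] at hzZ
      exact hzZ.2.2
    by_cases hw1 : (D t).ψ w ≤ 1
    · have hwZ : ((t, w) : G × (Fin n → ℝ)) ∈ Z := by
        rw [hZ]
        exact ⟨hw, hwa, hw1⟩
      rcases le_total ((D s).ψ z) ((D t).ψ w) with h | h
      · exact h
      · exact hzmin hwZ h
    · linarith
  rw [hZ] at hzZ
  obtain ⟨hzp, ⟨g, hg, hgz⟩, -⟩ := hzZ
  replace hzp : ∀ u ∈ (D s).S, u ≠ 0 → 0 < form u z := hzp
  replace hgz : (D s).Acts g z := hgz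
  have hz1 : (D s).ψ z < 1 := lt_of_le_of_lt (hmin0 s0 z0 hz0p ⟨g0, hg0, hz0a⟩) hz0lt
  have hmld : T'.mld ≤ (D s).ψ z := by
    obtain ⟨w, -, hwd, hw⟩ := h3 X Y G π T T' hn hQ hC hJ hJ' (D s) g hg z
      (ne_of_pos hn (D s).coord.gen hzp) (nonneg_of_pos hzp) hgz
    exact (csInf_le hbdd ⟨w, hw hzp, rfl⟩).trans hwd
  refine hmld.trans ?_
  -- Carathéodory
  obtain ⟨ray, hray⟩ : ∃ ray : Fin (D s).r → Fin n → ℝ, ray = fun i => toR ((D s).ρ i) :=
    ⟨_, rfl⟩
  have hrayi : ∀ i, ray i = toR ((D s).ρ i) := fun i => congrFun hray i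
  have hint : ∀ w : Fin n → ℝ, w ∈ interior (coneOf ray) ↔
      ∀ u ∈ (D s).S, u ≠ 0 → 0 < form u w := by
    intro w
    rw [hray, (D s).int]
    rfl
  have hzint : z ∈ interior (coneOf ray) := (hint z).2 hzp
  obtain ⟨I, x, hx, hzx, hind⟩ := caratheodory ray z (interior_subset hzint)
  have hψs : ∀ y : Fin (D s).r → ℝ, (D s).ψ (∑ i ∈ I, y i • ray i) = ∑ i ∈ I, y i := by
    intro y
    rw [map_sum]
    refine Finset.sum_congr rfl fun i _ => ?_
    rw [map_smul, hrayi, (D s).ψρ, smul_eq_mul, mul_one]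
  have hsum : ∑ i ∈ I, x i = (D s).ψ z := by
    rw [hzx]
    exact (hψs x).symm
  have hmin : ∀ w : Fin (D s).r → ℝ, (∀ i ∈ I, 0 < w i) →
      (∃ g ∈ G, (D s).Acts g (∑ i ∈ I, w i • ray i)) → (D s).ψ z ≤ ∑ i ∈ I, w i := by
    intro w hw hN
    rw [← hψs]
    refine hmin0 s _ ((hint _).1 ?_) hN
    rw [hzx] at hzint
    exact interior_of_pos ray I x w hx hw hzint
  have hcard : I.card ≤ n := by
    have := hind.fintype_card_le_finrank
    simpa using this
  have hshift : ∀ (k : ℤ) (y : Fin (D s).r → ℤ),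
      (D s).Acts (g ^ k) (∑ i ∈ I, ((k : ℝ) * x i - y i) • ray i) := by
    intro k y
    have h5 := acts_mul (D s) (acts_zpow (D s) hgz k) (acts_one (D s) (-∑ i ∈ I, y i • (D s).ρ i))
    have h6 : (k : ℝ) • z + toR (-∑ i ∈ I, y i • (D s).ρ i) =
        ∑ i ∈ I, ((k : ℝ) * x i - y i) • ray i := by
      have h7 : toR (∑ i ∈ I, y i • (D s).ρ i) = ∑ i ∈ I, (y i : ℝ) • ray i := by
        rw [hray]
        funext j
        simp only [toR, Finset.sum_apply, Pi.smul_apply, smul_eq_mul, Int.cast_sum, Int.cast_mul]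
      rw [toR_neg, h7, hzx, Finset.smul_sum, ← sub_eq_add_neg, ← Finset.sum_sub_distrib]
      refine Finset.sum_congr rfl fun i _ => ?_
      rw [smul_smul, ← sub_smul]
    rw [mul_one, h6] at h5
    exact h5
  obtain ⟨e⟩ : Nonempty (Fin I.card ≃ I) := ⟨I.equivFin.symm⟩
  have hre : ∀ F : Fin (D s).r → ℝ, ∑ j : Fin I.card, F (e j) = ∑ i ∈ I, F i := by
    intro F
    rw [← Finset.sum_coe_sort I F]
    exact e.sum_comp (fun i => F i)
  have hCP : G5.CPt 1 (fun j => x (e j)) := by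
    refine ⟨fun j => hx _ (e j).2, fun j => ?_, ?_, fun k => ?_, fun j k hj => ?_⟩
    · by_contra hcon
      have hcon : 1 < x (e j) := not_le.1 hcon
      have h5 := hshift 1 (fun i => if i = (e j : Fin (D s).r) then 1 else 0)
      have h6 := hmin _ (fun i hi => ?_) ⟨g ^ (1 : ℤ), G.zpow_mem hg 1, h5⟩
      · rw [Finset.sum_sub_distrib] at h6
        have h7 : ∑ i ∈ I, (((if i = (e j : Fin (D s).r) then 1 else 0 : ℤ)) : ℝ) = 1 := by
          simp
        rw [h7] at h6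
        have h8 : ∑ i ∈ I, ((1 : ℤ) : ℝ) * x i = (D s).ψ z := by
          rw [← hsum]
          refine Finset.sum_congr rfl fun i _ => ?_
          rw [Int.cast_one, one_mul]
        rw [h8] at h6
        linarith
      · by_cases h : i = (e j : Fin (D s).r)
        · subst h
          simp only [if_true, Int.cast_one]
          linarith
        · simp only [h, if_false, Int.cast_zero, Int.cast_one]
          linarith [hx i hi]
    · rw [hre x, hsum, Nat.cast_one]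
      exact hz1
    · rw [hre x, hsum, hre (fun i => G5.thr (k * x i))]
      have h0 : ∀ i, G5.thr ((k : ℝ) * x i) =
          (k : ℝ) * x i - ((⌈(k : ℝ) * x i⌉ - 1 : ℤ) : ℝ) := by
        intro i
        unfold G5.thr
        push_cast
        ring
      refine hmin _ (fun i _ => ?_) ⟨g ^ k, G.zpow_mem hg k, ?_⟩
      · unfold G5.thr
        linarith [Int.ceil_lt_add_one ((k : ℝ) * x i)]
      · simp only [h0]
        exact hshift k (fun i => ⌈(k : ℝ) * x i⌉ - 1)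
    · have h5 := hshift k (fun i => ⌊(k : ℝ) * x i⌋)
      have h6 : ∑ i ∈ I, ((k : ℝ) * x i - ((⌊(k : ℝ) * x i⌋ : ℤ) : ℝ)) • ray i =
          Int.fract ((k : ℝ) * x (e j)) • ray (e j) := by
        refine Finset.sum_eq_single_of_mem (e j : Fin (D s).r) (e j).2 fun i hi hne => ?_
        have h7 := hj (e.symm ⟨i, hi⟩) (fun h => hne (by rw [← h, Equiv.apply_symm_apply]))
        simp only [Equiv.apply_symm_apply] at h7
        show Int.fract ((k : ℝ) * x i) • ray i = 0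
        rw [h7, zero_smul]
      rw [h6, hrayi] at h5
      by_contra hne
      have h8 : 0 < Int.fract ((k : ℝ) * x (e j)) :=
        lt_of_le_of_ne (Int.fract_nonneg _) (Ne.symm hne)
      exact h4 X Y G π T T' hn hQ hC hNB hNB' (D s) (g ^ k) (G.zpow_mem hg k) (e j) _ h8
        (Int.fract_lt_one _) h5
  have h := hcore I.card hcard _ hCP
  rw [hre x, hsum] at h
  exact h

end

end XG
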