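import Pool.Agent.XG.St

set_option autoImplicit false

/-!
# FIX: the bound for the total minimal log discrepancy of the quotients of toric germs
-/

namespace XG

open MldGeo MldGap MldAcc MldQ

noncomputable section

namespace FIX

open TDC G4.TFX

variable {n : ℕ} {X : Germ n} {T : Triple X}

/-- Vectors of the cone. -/
theorem rep (D : TDat X T) (y : Fin n → ℝ) (hy : ∀ u ∈ D.S, 0 ≤ form u y) :
    ∃ c : Fin D.r → ℝ, (∀ i, 0 ≤ c i) ∧ y = ∑ i, c i • toR (D.ρ i) ∧ D.ψ y = ∑ i, c i := by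
  have h3 : y ∈ coneOf (fun i => toR (D.ρ i)) := by
    rw [D.cone]
    exact hy
  obtain ⟨c, hc, he⟩ := h3
  refine ⟨c, hc, he, ?_⟩
  rw [he, map_sum]
  refine Finset.sum_congr rfl fun i _ => ?_
  rw [map_smul, D.ψρ, smul_eq_mul, mul_one]

theorem acts_mul (D : TDat X T) {g g' : X.K ≃ₐ[ℂ] X.K} {z z' : Fin n → ℝ} (h : D.Acts g z)
    (h' : D.Acts g' z') : D.Acts (g * g') (z + z') := by
  intro m
  have h1 : (g * g') (D.χ m) = g (g' (D.χ m)) := rfl
  rw [h1, h' m, map_mul, AlgEquiv.commutes, h m, ← mul_assoc, ← map_mul, ← Complex.exp_add,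
    map_add]
  congr 3
  push_cast
  ring

theorem acts_one (D : TDat X T) (U : Fin n → ℤ) : D.Acts 1 (toR U) := by
  intro m
  have h1 : (1 : X.K ≃ₐ[ℂ] X.K) (D.χ m) = D.χ m := rfl
  have h2 : Complex.exp (2 * Real.pi * Complex.I * (form m (toR U) : ℝ)) = 1 := by
    rw [Complex.exp_eq_one_iff]
    refine ⟨pair m U, ?_⟩
    rw [form_toR]
    push_cast
    ring
  rw [h1, h2, map_one, one_mul]

theorem acts_inv (D : TDat X T) {g : X.K ≃ₐ[ℂ] X.K} {z : Fin n → ℝ} (h : D.Acts g z) :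
    D.Acts g⁻¹ (-z) := by
  intro m
  apply g.injective
  have h1 : g (g⁻¹ (D.χ m)) = D.χ m := by
    show (g * g⁻¹) (D.χ m) = D.χ m
    rw [mul_inv_cancel]
    rfl
  rw [h1, map_mul, AlgEquiv.commutes, h m, ← mul_assoc, ← map_mul, ← Complex.exp_add, map_neg]
  have h2 : 2 * (Real.pi : ℂ) * Complex.I * ((-(form m z) : ℝ) : ℂ) +
      2 * Real.pi * Complex.I * (form m z : ℝ) = 0 := by
    push_cast
    ring
  rw [h2, Complex.exp_zero, map_one, one_mul]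

theorem acts_pow (D : TDat X T) {g : X.K ≃ₐ[ℂ] X.K} {z : Fin n → ℝ} (h : D.Acts g z) (k : ℕ) :
    D.Acts (g ^ k) ((k : ℝ) • z) := by
  induction k with
  | zero =>
    have h1 := acts_one D (0 : Fin n → ℤ)
    rw [toR_zero] at h1
    simpa using h1
  | succ k ih =>
    have h1 := acts_mul D ih h
    rw [pow_succ]
    have h2 : ((k + 1 : ℕ) : ℝ) • z = (k : ℝ) • z + z := by
      push_cast
      rw [add_smul, one_smul]
    rw [h2]
    exact h1

theorem acts_zpow (D : TDat X T) {g : X.K ≃ₐ[ℂ] X.K} {z : Fin n → ℝ} (h : D.Acts g z) (k : ℤ) :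
    D.Acts (g ^ k) ((k : ℝ) • z) := by
  obtain ⟨m, rfl | rfl⟩ := k.eq_nat_or_neg
  · have h1 := acts_pow D h m
    rw [zpow_natCast, Int.cast_natCast]
    exact h1
  · have h1 := acts_inv D (acts_pow D h m)
    rw [zpow_neg, zpow_natCast, Int.cast_neg, Int.cast_natCast, neg_smul]
    exact h1

/-- The multiples by the order are integral. -/
theorem acts_int (D : TDat X T) {g : X.K ≃ₐ[ℂ] X.K} {z : Fin n → ℝ} (h : D.Acts g z) {N : ℕ}
    (hN : g ^ N = 1) : ∃ U : Fin n → ℤ, (N : ℝ) • z = toR U := by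
  have h1 := acts_pow D h N
  rw [hN] at h1
  have h2 : ∀ j : Fin n, ∃ u : ℤ, (N : ℝ) * z j = u := by
    intro j
    have h3 := h1 (Pi.single j 1)
    have h4 : (1 : X.K ≃ₐ[ℂ] X.K) (D.χ (Pi.single j 1)) = D.χ (Pi.single j 1) := rfl
    rw [h4] at h3
    have hne := chi_ne D.coord.toTorusField (Pi.single j 1)
    have h5 : algebraMap ℂ X.K (Complex.exp (2 * Real.pi * Complex.I *
        (form (Pi.single j 1) ((N : ℝ) • z) : ℝ))) = algebraMap ℂ X.K 1 := by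
      rw [map_one]
      exact (mul_right_cancel₀ hne (by rw [one_mul]; exact h3)).symm
    have h6 := (algebraMap ℂ X.K).injective h5
    obtain ⟨u, hu⟩ := Complex.exp_eq_one_iff.1 h6
    refine ⟨u, ?_⟩
    rw [QFin.form_smul, QFin.form_single] at hu
    have h7 : (2 * Real.pi * Complex.I : ℂ) ≠ 0 := Complex.two_pi_I_ne_zero
    have h8 : (((N : ℝ) * z j : ℝ) : ℂ) = (u : ℂ) := by
      apply mul_left_cancel₀ h7
      rw [hu]
      ring
    exact_mod_cast h8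
  choose U hU using h2
  refine ⟨U, ?_⟩
  funext j
  exact hU j

/-- The vectors of small value are finite in number. -/
theorem finite_z (D : TDat X T) {G : Subgroup (X.K ≃ₐ[ℂ] X.K)} {N : ℕ} (hN0 : 0 < N)
    (hN : ∀ g ∈ G, g ^ N = 1) :
    {z : Fin n → ℝ | (∀ u ∈ D.S, 0 ≤ form u z) ∧ (∃ g ∈ G, D.Acts g z) ∧ D.ψ z ≤ 1}.Finite := by
  refine ((Set.finite_Icc (fun j => -((N : ℤ) * ∑ i, |D.ρ i j|))
    (fun j => (N : ℤ) * ∑ i, |D.ρ i j|)).image (fun U : Fin n → ℤ => (N : ℝ)⁻¹ • toR U)).subset ?_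
  rintro z ⟨hz1, ⟨g, hg, hgz⟩, hz2⟩
  have hNR : (0 : ℝ) < N := by exact_mod_cast hN0
  obtain ⟨U, hU⟩ := acts_int D hgz (hN g hg)
  refine ⟨U, ?_, ?_⟩
  · obtain ⟨c, hc, he, hs⟩ := rep D z hz1
    have hc1 : ∀ i, c i ≤ 1 := fun i => by
      have h1 := Finset.single_le_sum (fun j _ => hc j) (Finset.mem_univ i)
      linarith
    have h1 : ∀ j, |U j| ≤ (N : ℤ) * ∑ i, |D.ρ i j| := by
      intro j
      have h2 : z j = ∑ i, c i * (D.ρ i j : ℝ) := by
        have h3 := congrFun he j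
        rw [Finset.sum_apply] at h3
        exact h3
      have h3 : |z j| ≤ ∑ i, |(D.ρ i j : ℝ)| := by
        rw [h2]
        refine (Finset.abs_sum_le_sum_abs _ _).trans (Finset.sum_le_sum fun i _ => ?_)
        rw [abs_mul, abs_of_nonneg (hc i)]
        exact mul_le_of_le_one_left (abs_nonneg _) (hc1 i)
      have h4 : (U j : ℝ) = N * z j := (congrFun hU j).symm
      have h5 : |(U j : ℝ)| ≤ N * ∑ i, |(D.ρ i j : ℝ)| := by
        rw [h4, abs_mul, abs_of_nonneg hNR.le]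
        exact mul_le_mul_of_nonneg_left h3 hNR.le
      exact_mod_cast h5
    exact ⟨fun j => neg_le_of_abs_le (h1 j), fun j => le_of_abs_le (h1 j)⟩
  · show (N : ℝ)⁻¹ • toR U = z
    rw [← hU, smul_smul, inv_mul_cancel₀ hNR.ne', one_smul]

/-- One half. -/
theorem half_le {b : ℝ} (hn : 0 < n) (h : G4.Core n b) : 1 / 2 ≤ b := by
  have h1 := core_of_le h (ι := Unit) (by rw [Fintype.card_unit]; omega) (fun _ => 1 / 2) (fun _ => by norm_num)
    (by simp; norm_num) (fun k hk => ?_)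
  · simpa using h1
  · obtain ⟨i, hi⟩ := hk
    simp only [Finset.univ_unique, Finset.sum_const, Finset.card_singleton, one_smul] at *
    rcases Int.even_or_odd' k with ⟨m, rfl | rfl⟩
    · exfalso
      apply hi
      have h2 : (((2 * m : ℤ)) : ℝ) * (1 / 2) = ((m : ℤ) : ℝ) := by
        push_cast
        ring
      rw [h2, Int.fract_intCast]
    · have h2 : (((2 * m + 1 : ℤ)) : ℝ) * (1 / 2) = ((m : ℤ) : ℝ) + 1 / 2 := by
        push_cast
        ring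
      rw [h2, Int.fract_intCast_add]
      have h3 : Int.fract (1 / 2 : ℝ) = 1 / 2 := Int.fract_eq_self.2 ⟨by norm_num, by norm_num⟩
      rw [h3]

end FIX

open FIX TDC G4.TFX in
/-- FIX -/
theorem t_FIX (h1 : Stmt_TDT) (h2 : Stmt_LWX) (h3 : Stmt_UPX) : Stmt_FIX := by
  classical
  intro n b hn hcore μ hμ hlt
  obtain ⟨X, Y, G, π, T, T', hQ, hC, hJ, hJ', hNB, hA, rfl⟩ := hμ
  have hfin : Finite G := hQ.finite
  have hex : ∀ g : G, ∃ (A : TorusAction X n) (D : TDat X T),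
      A.Normal (g : X.K ≃ₐ[ℂ] X.K) ∧ GradedBy A D.χ D.S := by
    intro g
    obtain ⟨A, hA1⟩ := hA g g.2
    obtain ⟨D, hD⟩ := h1 X A T hn hJ hNB
    exact ⟨A, D, hA1, hD⟩
  choose A D hAN hAG using hex
  by_cases hbdd : BddBelow {a : ℝ | ∃ v : DivVal n Y.K, Y.Through v ∧ T'.disc v = a}
  swap
  · unfold G4.tmld
    rw [Real.sInf_of_not_bddBelow hbdd]
    exact core_nonneg hcore
  by_cases hne : {a : ℝ | ∃ v : DivVal n Y.K, Y.Through v ∧ T'.disc v = a}.Nonempty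
  swap
  · rw [Set.not_nonempty_iff_eq_empty] at hne
    unfold G4.tmld
    rw [hne, Real.sInf_empty]
    exact core_nonneg hcore
  by_cases hhalf : ∃ v1 : DivVal n Y.K, Y.Through v1 ∧ T'.disc v1 ≤ 1 / 2
  · obtain ⟨v1, hv1, hv1'⟩ := hhalf
    exact ((csInf_le hbdd ⟨v1, hv1, rfl⟩).trans hv1').trans (half_le hn hcore)
  obtain ⟨_, ⟨v, hv, rfl⟩, hvlt⟩ := exists_lt_of_csInf_lt hne hlt
  have hlow := h2 X Y G π T T' hn hQ hC hJ hJ' hNB D
    (fun g => ⟨A g, hAN g, hAG g⟩) v hv hvlt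
  obtain ⟨s0, g0, hg0, z0, hz0, hz0c, hz0a, hz0d, -⟩ :=
    hlow.resolve_left fun h => hhalf h.2
  -- the order of the group
  obtain ⟨N, hN0, hN⟩ : ∃ N : ℕ, 0 < N ∧ ∀ g ∈ G, g ^ N = 1 := by
    refine ⟨Nat.card G, Nat.card_pos, fun g hg => ?_⟩
    have h4 : (⟨g, hg⟩ : G) ^ Nat.card G = 1 := pow_card_eq_one'
    exact congrArg Subtype.val h4
  -- the least value
  obtain ⟨Z, hZ⟩ : ∃ Z : Set (G × (Fin n → ℝ)), Z = {p | p.2 ≠ 0 ∧
    (∀ u ∈ (D p.1).S, 0 ≤ form u p.2) ∧ (∃ g ∈ G, (D p.1).Acts g p.2) ∧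
      (D p.1).ψ p.2 ≤ 1} := ⟨_, rfl⟩
  have hZf : Z.Finite := by
    refine (Set.finite_iUnion (fun s : G => (finite_z (D s) hN0 hN).image (Prod.mk s))).subset ?_
    rw [hZ]
    rintro ⟨s, z⟩ ⟨-, hz1, hz2, hz3⟩
    exact Set.mem_iUnion.2 ⟨s, z, ⟨hz1, hz2, hz3⟩, rfl⟩
  have hz0lt : (D s0).ψ z0 < 1 := lt_of_le_of_lt hz0d hvlt
  have hZn : Z.Nonempty := ⟨(s0, z0), by rw [hZ]; exact ⟨hz0, hz0c, ⟨g0, hg0, hz0a⟩, hz0lt.le⟩⟩
  obtain ⟨⟨s, z⟩, hzZ, hzmin⟩ := hZf.exists_minimalFor (fun p => (D p.1).ψ p.2) Z hZn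
  have hmin : ∀ (t : G) (w : Fin n → ℝ), w ≠ 0 → (∀ u ∈ (D t).S, 0 ≤ form u w) →
      (∃ g ∈ G, (D t).Acts g w) → (D s).ψ z ≤ (D t).ψ w := by
    intro t w hw0 hw hwa
    have hz1 : (D s).ψ z ≤ 1 := by
      rw [hZ] at hzZ
      exact hzZ.2.2.2
    by_cases hw1 : (D t).ψ w ≤ 1
    · have hwZ : ((t, w) : G × (Fin n → ℝ)) ∈ Z := by
        rw [hZ]
        exact ⟨hw0, hw, hwa, hw1⟩
      rcases le_total ((D s).ψ z) ((D t).ψ w) with h | h
      · exact h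
      · exact hzmin hwZ h
    · linarith
  rw [hZ] at hzZ
  obtain ⟨hz0', hzS, ⟨g, hg, hgz⟩, -⟩ := hzZ
  replace hz0' : z ≠ 0 := hz0'
  replace hzS : ∀ u ∈ (D s).S, 0 ≤ form u z := hzS
  replace hgz : (D s).Acts g z := hgz
  have hz1 : (D s).ψ z < 1 := lt_of_le_of_lt (hmin s0 z0 hz0 hz0c ⟨g0, hg0, hz0a⟩) hz0lt
  have hmld : G4.tmld T' ≤ (D s).ψ z := by
    obtain ⟨w, hw, hwd, -⟩ := h3 X Y G π T T' hn hQ hC hJ hJ' (D s) g hg z hz0' hzS hgz
    exact (csInf_le hbdd ⟨w, hw, rfl⟩).trans hwd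
  refine hmld.trans ?_
  -- Carathéodory
  have hzc : z ∈ coneOf (fun i => toR ((D s).ρ i)) := by
    rw [(D s).cone]
    exact hzS
  obtain ⟨I, x, hx, hzx, hind⟩ := caratheodory (fun i => toR ((D s).ρ i)) z hzc
  have hψs : ∀ y : Fin (D s).r → ℝ,
      (D s).ψ (∑ i ∈ I, y i • toR ((D s).ρ i)) = ∑ i : I, y i := by
    intro y
    rw [map_sum, Finset.sum_coe_sort I y]
    refine Finset.sum_congr rfl fun i _ => ?_
    rw [map_smul, (D s).ψρ, smul_eq_mul, mul_one]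
  have hsum : (D s).ψ z = ∑ i : I, x i := by
    rw [hzx]
    exact hψs x
  rw [hsum] at hz1 ⊢
  refine core_of_le hcore (ι := I) ?_ (fun i => x i) (fun i => (hx i i.2).le) hz1 fun k hk => ?_
  · have := hind.fintype_card_le_finrank
    simpa using this
  · obtain ⟨i0, hi0⟩ := hk
    obtain ⟨w, hw⟩ : ∃ w : Fin n → ℝ,
        w = (k : ℝ) • z + toR (-∑ i ∈ I, ⌊(k : ℝ) * x i⌋ • (D s).ρ i) := ⟨_, rfl⟩
    have hwR : w = ∑ i ∈ I, Int.fract ((k : ℝ) * x i) • toR ((D s).ρ i) := by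
      have h4 : toR (∑ i ∈ I, ⌊(k : ℝ) * x i⌋ • (D s).ρ i) =
          ∑ i ∈ I, (⌊(k : ℝ) * x i⌋ : ℝ) • toR ((D s).ρ i) := by
        funext j
        simp only [toR, Finset.sum_apply, Pi.smul_apply, smul_eq_mul, Int.cast_sum, Int.cast_mul]
      rw [hw, toR_neg, h4, hzx, Finset.smul_sum, ← sub_eq_add_neg, ← Finset.sum_sub_distrib]
      refine Finset.sum_congr rfl fun i _ => ?_
      rw [smul_smul, ← sub_smul]
      rfl
    have hwS : ∀ u ∈ (D s).S, 0 ≤ form u w := by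
      intro u hu
      rw [hwR, map_sum]
      refine Finset.sum_nonneg fun i _ => ?_
      rw [map_smul, smul_eq_mul, form_toR]
      refine mul_nonneg (Int.fract_nonneg _) ?_
      exact_mod_cast (D s).nonneg i u hu
    have hw0 : w ≠ 0 := by
      intro h
      rw [h] at hwR
      have h4 : ∑ i : I, Int.fract ((k : ℝ) * x i) • toR ((D s).ρ i) = 0 := by
        rw [Finset.sum_coe_sort I (fun i => Int.fract ((k : ℝ) * x i) • toR ((D s).ρ i))]
        exact hwR.symm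
      exact hi0 (Fintype.linearIndependent_iff.1 hind _ h4 i0)
    have hwa : (D s).Acts (g ^ k) w := by
      have h4 := acts_mul (D s) (acts_zpow (D s) hgz k)
        (acts_one (D s) (-∑ i ∈ I, ⌊(k : ℝ) * x i⌋ • (D s).ρ i))
      rw [mul_one, ← hw] at h4
      exact h4
    have h4 := hmin s w hw0 hwS ⟨g ^ k, G.zpow_mem hg k, hwa⟩
    rw [hsum, hwR, hψs (fun i => Int.fract ((k : ℝ) * x i))] at h4
    exact h4

end

end XG
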