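import Pool.Agent.XG.St

set_option autoImplicit false

/-!
# The gap below a level for toric pairs with automorphisms (module LVL)
-/

namespace XG

open MldGeo MldGap MldAcc MldQ

namespace LVL

theorem disc_eq {n : ℕ} (Q : TQ n) (hJ : IsEmpty Q.J) (v : Fin n → ℝ) : Q.disc v = Q.ψ v := by
  unfold ToricTriple.disc
  rw [Finset.univ_eq_empty, Finset.sum_empty, sub_zero]

theorem bdd {n : ℕ} (Q : TQ n) (hJ : IsEmpty Q.J) : BddBelow Q.values := by
  refine ⟨0, ?_⟩
  rintro _ ⟨g, _, u, _, hui, rfl⟩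
  rw [disc_eq Q hJ]
  have h1 : 0 ≤ Q.ψ u := Q.toToricGerm.ψ_nonneg (interior_subset hui)
  positivity

end LVL

open Finset in
theorem t_LVL (h : Stmt_CLA) : Stmt_LVL := by
  intro n p q Q hp hq hJ hB hlt
  classical
  have hq' : (0 : ℝ) < q := by exact_mod_cast hq
  have hp' : (0 : ℝ) < p := by exact_mod_cast hp
  choose c m hc hm hb using hB
  have hm' : ∀ i, (0 : ℝ) < m i := fun i => by exact_mod_cast hm i
  have hμ : ∀ i, (m i : ℝ) * (1 - Q.b i) = (c i : ℝ) / q := fun i => by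
    rw [hb i]
    have := (hm' i).ne'
    field_simp
    ring
  have hμ1 : ∀ i, (m i : ℝ) * (1 - Q.b i) ≤ 1 := fun i => by
    rw [hμ i, div_le_one hq']
    exact_mod_cast hc i
  -- an almost minimal value
  obtain ⟨_, ⟨g, hg, u, hu, hui, rfl⟩, hvlt⟩ := exists_lt_of_csInf_lt (TQ.exists_value Q)
    (show Q.mldQ < (Q.mldQ + (p : ℝ) / q) / 2 by linarith)
  rw [LVL.disc_eq Q hJ] at hvlt
  obtain ⟨K, fK, θ, γ, hcard, hθ, hγ, hval, hall⟩ := h Q m hm hμ1 g hg u hu hui
  have hγ' : ∀ i, ∃ d : ℕ, d ≤ q ∧ γ i = (d : ℝ) / q := by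
    intro i
    rcases hγ i with h1 | ⟨i', h1⟩
    · exact ⟨q, le_refl q, by rw [h1, div_self hq'.ne']⟩
    · exact ⟨c i', hc i', by rw [h1, hμ i']⟩
  choose d hd hγd using hγ'
  have hγ0 : ∀ i, 0 ≤ γ i := fun i => by
    rw [hγd i]
    positivity
  -- reduce the coordinates
  obtain ⟨z, hz⟩ : ∃ z : K → ℤ, z = fun i => ⌈θ i⌉ - 1 := ⟨_, rfl⟩
  obtain ⟨x, hx⟩ : ∃ x : K → ℝ, x = fun i => θ i - z i := ⟨_, rfl⟩
  have hx0 : ∀ i, 0 < x i := fun i => by
    simp only [hx, hz]
    have := Int.ceil_lt_add_one (θ i)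
    push_cast
    linarith
  have hx1 : ∀ i, x i ≤ 1 := fun i => by
    simp only [hx, hz]
    have := Int.le_ceil (θ i)
    push_cast
    linarith
  have hz0 : ∀ i, 0 ≤ z i := fun i => by
    have := Int.one_le_ceil_iff.2 (hθ i)
    simp only [hz]
    omega
  have hmin : ∀ j : ℕ, 0 < j → ∀ y : K → ℤ, (∀ i, (y i : ℝ) < j * x i) →
      Q.mldQ ≤ ∑ i, γ i * (j * x i - y i) := by
    intro j hj y hy
    obtain ⟨g', hg', u', hu', hui', hle⟩ := hall j hj (fun i => y i + j * z i) (fun i => by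
      have := hy i
      simp only [hx] at this
      push_cast
      linarith)
    have h1 : Q.mldQ ≤ (codim g' : ℝ) / 2 + Q.ψ u' := by
      refine csInf_le (LVL.bdd Q hJ) ⟨g', hg', u', hu', hui', ?_⟩
      rw [LVL.disc_eq Q hJ]
    refine h1.trans (hle.trans (le_of_eq ?_))
    refine sum_congr rfl fun i _ => ?_
    simp only [hx]
    push_cast
    ring
  obtain ⟨s, hs⟩ : ∃ s : ℝ, s = ∑ i, γ i * x i := ⟨_, rfl⟩
  have hmld' : Q.mldQ ≤ s := by
    have h1 := hmin 1 one_pos (fun _ => 0) (fun i => by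
      have := hx0 i
      push_cast
      linarith)
    rw [hs]
    refine h1.trans (le_of_eq ?_)
    refine sum_congr rfl fun i _ => ?_
    push_cast
    ring
  have hslt : s < (Q.mldQ + (p : ℝ) / q) / 2 := by
    refine lt_of_le_of_lt ?_ hvlt
    rw [hval, hs]
    refine sum_le_sum fun i _ => ?_
    refine mul_le_mul_of_nonneg_left ?_ (hγ0 i)
    simp only [hx]
    have : (0 : ℝ) ≤ z i := by exact_mod_cast hz0 i
    linarith
  -- the core inequality
  have hsumI : ∀ w : K → ℝ, ∑ i, ((d i : ℤ) : ℝ) * w i = q * ∑ i, γ i * w i := by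
    intro w
    rw [mul_sum]
    refine sum_congr rfl fun i _ => ?_
    rw [hγd i]
    field_simp
    push_cast
    ring
  have hcore := core (ι := K) x hx0 hx1 (fun i => (d i : ℤ)) hp hq (fun i => by positivity)
    (fun i => by exact_mod_cast hd i)
    (by
      rw [hsumI, ← hs]
      have : s < (p : ℝ) / q := by linarith
      rw [lt_div_iff₀ hq'] at this
      linarith)
    (by
      intro k hk y hy hsum
      have hk' : (2 : ℝ) ≤ k := by exact_mod_cast hk
      have h1 := hmin k (by omega) y hy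
      have h2 : ∑ i, γ i * (k * x i - y i) = k * s - ((k : ℝ) - 1) * (p / q) := by
        have h3 : ∑ i, γ i * y i = ((k : ℝ) - 1) * (p / q) := by
          have h4 : ∑ i, ((d i : ℤ) : ℝ) * ((y i : ℤ) : ℝ) = ((k : ℝ) - 1) * p := by
            have h5 : ((∑ i, (d i : ℤ) * y i : ℤ) : ℝ) = ((((k : ℤ) - 1) * p : ℤ) : ℝ) := by
              rw [hsum]
            push_cast at h5
            rw [← h5]
            push_cast
            rfl
          rw [hsumI (fun i => ((y i : ℤ) : ℝ))] at h4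
          field_simp at h4 ⊢
          linarith
        rw [← h3, hs, mul_sum, ← sum_sub_distrib]
        refine sum_congr rfl fun i _ => ?_
        ring
      rw [h2] at h1
      nlinarith)
  rw [hsumI, ← hs, mul_div_cancel_left₀ _ hq'.ne'] at hcore
  refine hmld'.trans (hcore.trans ?_)
  unfold levelBound
  exact gapSeq_fst_mono hq' (by positivity) hcard

end XG
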