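import Pool.Agent.XG.St
import Pool.Agent.MldGeo.QFin
import Pool.Agent.MldGeo.QAT
import Pool.Agent.MldGeo.QMON

/-!
# LWX: the lower bound
-/

set_option autoImplicit false

namespace XG

open MldGeo MldGap MldAcc MldQ

noncomputable section

namespace LWX

open TDC

variable {n : ℕ}

/-- An automorphism which fixes all characters is the identity. -/
theorem eq_one {K : Type} [Field K] [Algebra ℂ K] {χ : (Fin n → ℤ) → K} (hχ : TorusField χ)
    (σ : K ≃ₐ[ℂ] K) (h : ∀ m, σ (χ m) = χ m) (a : K) : σ a = a := by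
  have hs : ∀ r ∈ Submodule.span ℂ (Set.range χ), σ r = r := by
    intro r hr
    induction hr using Submodule.span_induction with
    | mem x hx =>
      obtain ⟨m, rfl⟩ := hx
      exact h m
    | zero => exact map_zero σ
    | add x y _ _ hx hy => rw [map_add, hx, hy]
    | smul c x _ hx => rw [map_smul, hx]
  obtain ⟨r, hr, s, hs', hs0, he⟩ := hχ.frac a
  have h1 : σ a * s = a * s := by
    rw [he]
    conv_lhs => rw [← hs s hs']
    rw [← map_mul, he, hs r hr]
  exact mul_right_cancel₀ hs0 h1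

/-- The discrepancy function is nonnegative on the cone. -/
theorem psi_nonneg {X : Germ n} {T : Triple X} (D : TDat X T) (z : Fin n → ℝ)
    (hz : ∀ u ∈ D.S, 0 ≤ form u z) : 0 ≤ D.ψ z := by
  have h1 : z ∈ coneOf (fun i => toR (D.ρ i)) := by
    rw [D.cone]
    exact hz
  obtain ⟨c, hc, rfl⟩ := h1
  rw [map_sum]
  refine Finset.sum_nonneg fun i _ => ?_
  rw [map_smul, D.ψρ, smul_eq_mul, mul_one]
  exact hc i

/-- The divisors along prime divisors through the point. -/
theorem through_of_along {X : Germ n} {P : Ideal X.R} {w : DivVal n X.K} (hP : P ≤ X.m)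
    (h : X.IsOrdAlong w P) : X.Through w := by
  obtain ⟨-, -, h1, h2⟩ := h
  refine ⟨h1, fun a ha => ?_⟩
  have h3 : ¬ (a = 0 ∨ 0 < w.ord (a : X.K)) := fun h4 => ha (hP ((h2 a).2 h4))
  push Not at h3
  exact le_antisymm h3.2 (h1 a)

/-- The ramification index is one if the inertia is trivial. -/
theorem e_one {K : Type} [Field K] [Algebra ℂ K] (w : DivVal n K) {e : ℕ} (he : 0 < e)
    (h : ∀ a : K, a ≠ 0 → w.Ge (w.ord a + 1)
      (a - algebraMap ℂ K (Complex.exp (2 * Real.pi * Complex.I * w.ord a / e)) * a)) : e = 1 := by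
  obtain ⟨t, ht, ht1⟩ := w.unif
  have h1 := h t ht
  rw [ht1] at h1
  have h2 : Complex.exp (2 * Real.pi * Complex.I * ((1 : ℤ) : ℂ) / e) = 1 := by
    by_contra hne
    have h3 : t - algebraMap ℂ K (Complex.exp (2 * Real.pi * Complex.I * ((1 : ℤ) : ℂ) / e)) * t =
        algebraMap ℂ K (1 - Complex.exp (2 * Real.pi * Complex.I * ((1 : ℤ) : ℂ) / e)) * t := by
      rw [map_sub, map_one, sub_mul, one_mul]
    rw [h3] at h1
    have h4 := h1.le (mul_ne_zero ((map_ne_zero _).2 (sub_ne_zero.2 (Ne.symm hne))) ht)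
    rw [DivVal.ord_const_mul w (sub_ne_zero.2 (Ne.symm hne)), ht1] at h4
    omega
  obtain ⟨k, hk⟩ := Complex.exp_eq_one_iff.1 h2
  have heC : (e : ℂ) ≠ 0 := by exact_mod_cast he.ne'
  have h5 : (1 : ℂ) = k * e := by
    have h6 := Complex.two_pi_I_ne_zero
    rw [div_eq_iff heC] at hk
    have h7 : (2 * Real.pi * Complex.I) * 1 = (2 * Real.pi * Complex.I) * (k * e) := by
      rw [← mul_assoc, mul_comm _ (k : ℂ), ← hk]
      push_cast
      ring
    exact mul_left_cancel₀ h6 h7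
  have h6 : (1 : ℤ) = k * e := by exact_mod_cast h5
  have h7 : (e : ℤ) ∣ 1 := ⟨k, by rw [h6]; ring⟩
  have h8 := Int.eq_one_of_dvd_one (by positivity) h7
  exact_mod_cast h8

end LWX

open TDC LWX in
/-- LWX -/
theorem t_LWX (_h1 : Stmt_TDT) (h2 : Stmt_QTH) (h3 : Stmt_QLZ) (h4 : Stmt_CODR) (h5 : Stmt_RFP)
    (h6 : Stmt_RFE) : Stmt_LWX := by
  classical
  intro n X Y G π T T' hn hQ hC hJ hJ' hNB D hD v hv hlt
  obtain ⟨hq1, hq2, hq3, -⟩ := c_QGAL X Y G π hn hQ
  obtain ⟨w, e, ho⟩ := hq2 v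
  have hw : X.Through w := (h2 X Y G π hQ w v e ho).2 hv
  obtain ⟨σ, hσ, hσ1, hσ2⟩ := hq3 w v e ho
  obtain ⟨A, hA, hG⟩ := hD ⟨σ, hσ⟩
  obtain ⟨D0, hD0⟩ : ∃ D0 : TDat X T, D0 = D ⟨σ, hσ⟩ := ⟨_, rfl⟩
  rw [← hD0] at hG
  have hχ : TorusField D0.χ := D0.coord.toTorusField
  have he : (0 : ℝ) < e := by exact_mod_cast ho.1
  have : Finite G := hQ.finite
  obtain ⟨k, hk, hσk⟩ : ∃ k : ℕ, 0 < k ∧ σ ^ k = 1 := by
    have h7 := isOfFinOrder_of_finite (⟨σ, hσ⟩ : G)
    refine ⟨orderOf (⟨σ, hσ⟩ : G), h7.orderOf_pos, ?_⟩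
    have h8 := pow_orderOf_eq_one (⟨σ, hσ⟩ : G)
    exact congrArg Subtype.val h8
  obtain ⟨φ, c, hmon, hst⟩ :=
    t_QMON X A D0.χ D0.S D0.coord hG σ (hQ.map_R σ hσ) hA k hk hσk
  obtain ⟨U, hU⟩ : ∃ U : Fin n → ℤ, U = ordVec D0.χ w := ⟨_, rfl⟩
  have hord : ∀ m, w.ord (D0.χ m) = pair m U := fun m => by rw [hU, ord_chi hχ]
  have hfix : ∀ m, pair (φ m) U = pair m U := by
    intro m
    rw [← hord, ← hord, ← hσ1 (D0.χ m), hmon.eq, DivVal.ord_const_mul w (hmon.ne m)]
  obtain ⟨z, hz⟩ : ∃ z : Fin n → ℝ, z = (e : ℝ)⁻¹ • toR U := ⟨_, rfl⟩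
  have hUz : toR U = (e : ℝ) • z := by
    rw [hz, smul_smul, mul_inv_cancel₀ he.ne', one_smul]
  have hform : ∀ m, form m z = (e : ℝ)⁻¹ * (pair m U : ℝ) := by
    intro m
    rw [hz, QFin.form_smul, form_toR]
  have hU0 : ∀ u ∈ D0.S, 0 ≤ pair u U := by
    intro u hu
    rw [← hord]
    exact hw.1 ⟨D0.χ u, (D0.coord.mem_R u).1 hu⟩
  have hz0 : ∀ u ∈ D0.S, 0 ≤ form u z := by
    intro u hu
    rw [hform]
    have h7 := hU0 u hu
    have h8 : (0 : ℝ) ≤ pair u U := by exact_mod_cast h7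
    positivity
  have hψ0 : 0 ≤ D0.ψ z := psi_nonneg D0 z hz0
  have hat : Y.At v → ∀ u ∈ D0.S, u ≠ 0 → 0 < form u z := by
    intro hY u hu hu0
    have hX : X.At w := (t_QAT X Y G π hQ w v e ho).2 hY
    have h7 : 0 < w.ord (D0.χ u) :=
      hX.2 ⟨D0.χ u, (D0.coord.mem_R u).1 hu⟩ (D0.coord.pos u hu hu0 ((D0.coord.mem_R u).1 hu))
        fun h => chi_ne hχ u (congrArg Subtype.val h)
    rw [hord] at h7
    rw [hform]
    have h8 : (0 : ℝ) < pair u U := by exact_mod_cast h7
    positivity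
  have hatz : Y.At v → z ≠ 0 := by
    intro hY h
    obtain ⟨s, hs, hs0⟩ := QFin.exists_ne hn D0.coord.gen
    have h7 := hat hY s hs hs0
    rw [h, map_zero] at h7
    exact lt_irrefl _ h7
  have hc : ∀ m, φ m = m →
      c m = Complex.exp (2 * Real.pi * Complex.I * (form m z : ℝ)) := by
    intro m hm
    have h7 := hσ2 (D0.χ m) (chi_ne hχ m)
    rw [hmon.eq, hm, ← sub_mul, ← map_sub] at h7
    have h8 : c m = Complex.exp (2 * Real.pi * Complex.I * w.ord (D0.χ m) / e) := by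
      by_contra hne
      have h9 := h7.le (mul_ne_zero ((map_ne_zero _).2 (sub_ne_zero.2 hne)) (chi_ne hχ m))
      rw [DivVal.ord_const_mul w (sub_ne_zero.2 hne)] at h9
      omega
    rw [h8, hform, hord]
    congr 1
    push_cast
    field_simp
  -- the discrepancy
  have hd1 : T.disc w = e * T'.disc v := QFin.disc_over c_QPUL hn hQ hC hw ho
  have hd2 : T.disc w = w.logOrd (torForm D0.χ) + (e : ℝ) * D0.ψ z := by
    rw [D0.disc w hw, ← hU, hUz, map_smul, smul_eq_mul]
  have hd3 := h3 D0.χ hχ X.trdeg hn σ φ c k hmon w e ho.1 hσ1 hσ2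
  have hd3' : (e : ℝ) * cod φ ≤ 2 * w.logOrd (torForm D0.χ) := by exact_mod_cast hd3
  have hd4 : (cod φ : ℝ) / 2 + D0.ψ z ≤ T'.disc v := by
    have h7 : (e : ℝ) * ((cod φ : ℝ) / 2 + D0.ψ z) ≤ e * T'.disc v := by
      rw [← hd1, hd2]
      linarith
    exact le_of_mul_le_mul_left h7 he
  have hcod : cod φ < 2 := by
    by_contra hcon
    have h7 : (2 : ℝ) ≤ cod φ := by exact_mod_cast not_lt.1 hcon
    linarith
  obtain ⟨hc0, hc1⟩ := h4 φ hk hmon.iter
  rcases Nat.lt_or_ge (cod φ) 1 with hcd | hcd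
  · -- codimension zero
    have hcd0 : cod φ = 0 := by omega
    have hφ : ∀ u, φ u = u := hc0 hcd0
    have hacts : D0.Acts σ z := by
      intro m
      rw [hmon.eq, hφ m, hc m (hφ m)]
    by_cases hzz : z = 0
    · exfalso
      have hUU : U = 0 := by
        apply toR_inj
        rw [hUz, hzz, smul_zero, toR_zero]
      have hσ0 : ∀ a, σ a = a := by
        refine eq_one hχ σ fun m => ?_
        rw [hacts m, hzz, map_zero]
        simp
      have he1 : e = 1 := e_one w ho.1 fun a ha => by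
        have h7 := hσ2 a ha
        rw [hσ0 a] at h7
        exact h7
      have h7 := G4.TFX.one_le hn hχ X.trdeg w (by rw [← hU, hUU])
      have h8 : (1 : ℝ) ≤ (w.logOrd (torForm D0.χ) : ℝ) := by exact_mod_cast h7
      rw [hd2, hzz, map_zero, mul_zero, add_zero, he1] at hd1
      push_cast at hd1
      linarith
    · right
      refine ⟨⟨σ, hσ⟩, σ, hσ, z, hzz, ?_, ?_, ?_, ?_⟩
      · rw [← hD0]
        exact hz0
      · rw [← hD0]
        exact hacts
      · rw [← hD0]
        have h7 : (0 : ℝ) ≤ cod φ := Nat.cast_nonneg _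
        linarith
      · rw [← hD0]
        exact hat
  · -- codimension one
    have hcd1 : cod φ = 1 := by omega
    obtain ⟨hφφ, hφ1, hφ2⟩ := hc1 hcd1
    rw [hcd1] at hd4
    push_cast at hd4
    by_cases hzz : z = 0
    · left
      refine ⟨fun hY => hatz hY hzz, ?_⟩
      have hUU : ordVec D0.χ w = 0 := by
        rw [← hU]
        apply toR_inj
        rw [hUz, hzz, smul_zero, toR_zero]
      have hσne : σ ≠ 1 := by
        rintro rfl
        obtain ⟨u, hu⟩ := hφ1
        have h7 : algebraMap ℂ X.K (c u) * D0.χ (φ u) = algebraMap ℂ X.K 1 * D0.χ u := by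
          rw [← hmon.eq, map_one, one_mul]
          rfl
        exact hu (QMON.uniq hχ (hmon.ne u) h7).1
      obtain ⟨P, w1, hP, hw1, hge⟩ := h5 X D0.χ D0.S hn D0.coord σ φ c hmon
        (hQ.map_R σ hσ) hφ1 hφ2 w hw hUU fun a ha ha0 => by
          have h7 := hσ2 a ha0
          rw [ha] at h7
          simpa using h7
      obtain ⟨v1, e1, ho1⟩ := hq1 w1
      have he1 : 2 ≤ e1 := h6 X Y G π hQ σ hσ hσne P w1 hw1 hge v1 e1 ho1
      have hw1t : X.Through w1 := through_of_along hP hw1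
      refine ⟨v1, (h2 X Y G π hQ w1 v1 e1 ho1).1 hw1t, ?_⟩
      have h7 : T.logDisc w1 = 1 := by
        have h8 := hNB P (1 - T.logDisc w1) ⟨hP, w1, hw1, by ring⟩
        linarith
      have h8 : T.disc w1 = e1 * T'.disc v1 := QFin.disc_over c_QPUL hn hQ hC hw1t ho1
      rw [MLQ.disc_eq T hJ, h7] at h8
      have h9 : (2 : ℝ) ≤ e1 := by exact_mod_cast he1
      by_contra hcon
      push Not at hcon
      nlinarith
    · right
      have hform2 : ∀ m, form (φ m) z = form m z := by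
        intro m
        rw [hform, hform, hfix]
      refine ⟨⟨σ, hσ⟩, σ * σ, G.mul_mem hσ hσ, (2 : ℝ) • z, smul_ne_zero two_ne_zero hzz,
        ?_, ?_, ?_, ?_⟩
      · rw [← hD0]
        intro u hu
        rw [QFin.form_smul]
        have := hz0 u hu
        positivity
      · rw [← hD0]
        intro m
        have h7 : φ (m + φ m) = m + φ m := by
          rw [map_add, hφφ, add_comm]
        have h8 := hc (m + φ m) h7
        have h9 : form (m + φ m) z = form m ((2 : ℝ) • z) := by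
          rw [hform, pair_add_left, hfix, QFin.form_smul, hform]
          push_cast
          ring
        rw [h9, hmon.mul] at h8
        rw [← h8, AlgEquiv.mul_apply, hmon.eq, map_mul, AlgEquiv.commutes, hmon.eq, hφφ,
          map_mul]
        ring
      · rw [← hD0, map_smul, smul_eq_mul]
        linarith
      · rw [← hD0]
        intro hY u hu hu0
        rw [QFin.form_smul]
        have := hat hY u hu hu0
        positivity

end

end XG
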