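import Pool.Agent.XG.St
import Pool.Agent.MldGeo.QAT
import Pool.Agent.MldGeo.DIV

/-!
# XG_PDR: the image of a prime divisor (helper34)
-/

set_option autoImplicit false

namespace XG

open MldGeo MldGap MldAcc MldQ

noncomputable section

namespace PDR

variable {n : ℕ} {X Y : Germ n} {G : Subgroup (X.K ≃ₐ[ℂ] X.K)} {π : Y.K →ₐ[ℂ] X.K}

/-- the inclusion of the rings of regular functions -/
def phi (hq : IsQuot X Y G π) : Y.R →+* X.R where
  toFun b := ⟨π b, (hq.mem_R b).1 b.2⟩
  map_one' := by
    apply Subtype.ext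
    simp
  map_mul' a b := by
    apply Subtype.ext
    simp
  map_zero' := by
    apply Subtype.ext
    simp
  map_add' a b := by
    apply Subtype.ext
    simp

theorem phi_coe (hq : IsQuot X Y G π) (b : Y.R) : (phi hq b : X.K) = π b := rfl

theorem phi_inj (hq : IsQuot X Y G π) : Function.Injective (phi hq) := by
  intro a b hab
  have h1 : (phi hq a : X.K) = phi hq b := by rw [hab]
  rw [phi_coe, phi_coe] at h1
  exact Subtype.ext (π.injective h1)

theorem phi_integral (hq : IsQuot X Y G π) : (phi hq).IsIntegral := by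
  classical
  intro a
  have : Finite G := hq.finite
  have : Fintype G := Fintype.ofFinite G
  have hl : QAT.chp X G hq.map_R a ∈ Polynomial.lifts (phi hq) := by
    rw [Polynomial.lifts_iff_coeff_lifts]
    intro k
    obtain ⟨b, hb⟩ := (hq.inv _).2 fun g hg => QAT.chp_coeff_fixed X G hq.map_R a k g hg
    have hbR : b ∈ Y.R := by
      rw [hq.mem_R, hb]
      exact ((QAT.chp X G hq.map_R a).coeff k).2
    exact ⟨⟨b, hbR⟩, Subtype.ext hb⟩
  obtain ⟨p, hp, _, hpm⟩ := Polynomial.lifts_and_degree_eq_and_monic hl (QAT.chp_monic X G hq.map_R a)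
  refine ⟨p, hpm, ?_⟩
  rw [← Polynomial.eval_map, hp]
  unfold QAT.chp
  rw [Polynomial.eval_prod]
  refine Finset.prod_eq_zero (Finset.mem_univ (1 : G)) ?_
  rw [Polynomial.eval_sub, Polynomial.eval_X, Polynomial.eval_C, sub_eq_zero]
  apply Subtype.ext
  simp

end PDR

open PDR in
theorem t_PDR : Stmt_PDR := by
  intro n X Y G π _ hq P w v e hP hPm hO
  obtain ⟨hPp, hPh, hPo, hPi⟩ := hP
  obtain ⟨he, hord⟩ := hO
  have he' : (0 : ℤ) < e := by exact_mod_cast he
  let _ : Algebra Y.R X.R := (phi hq).toAlgebra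
  have hmap : algebraMap Y.R X.R = phi hq := rfl
  have : Algebra.IsIntegral Y.R X.R := ⟨fun a => phi_integral hq a⟩
  have : FaithfulSMul Y.R X.R := (faithfulSMul_iff_algebraMap_injective _ _).2 (phi_inj hq)
  have : P.IsPrime := hPp
  have hmem : ∀ b : Y.R, b ∈ P.comap (algebraMap Y.R X.R) ↔ b = 0 ∨ 0 < v.ord b := by
    intro b
    rw [Ideal.mem_comap, hmap, hPi, phi_coe, hord]
    constructor
    · rintro (h | h)
      · left
        exact phi_inj hq (by rw [h, map_zero])
      · right
        exact pos_of_mul_pos_right h he'.le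
    · rintro (h | h)
      · left
        rw [h, map_zero]
      · right
        exact mul_pos he' h
  refine ⟨P.comap (algebraMap Y.R X.R), ?_, Ideal.IsPrime.comap _, ?_, ?_, hmem⟩
  · intro b hb
    have h1 : phi hq b ∈ P := hb
    exact (hq.mem_m b (phi hq b) rfl).2 (hPm h1)
  · have : P.LiesOver (P.comap (algebraMap Y.R X.R)) := ⟨rfl⟩
    have h1 := Ideal.height_eq_height_add_of_liesOver_of_hasGoingDown
      (P.comap (algebraMap Y.R X.R)) P
    rw [hPh] at h1
    apply le_antisymm
    · rw [h1]
      exact le_self_add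
    · rw [Order.one_le_iff_ne_zero]
      intro h0
      have h3 := Ideal.height_eq_zero_iff_eq_bot.1 h0
      have h2 : P = ⊥ := Ideal.eq_bot_of_comap_eq_bot h3
      rw [h2, Ideal.height_bot] at hPh
      exact zero_ne_one hPh
  · intro b
    have h1 := hPo (phi hq b)
    rw [phi_coe, hord] at h1
    exact nonneg_of_mul_nonneg_right h1 he'

end

end XG
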