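import Pool.Agent.XG.St

/-!
# QLZ: the lower bound for the order of the invariant form, without a condition on the orders
-/

set_option autoImplicit false

namespace XG

open MldGeo MldGap MldAcc MldQ

noncomputable section

namespace QLZ

/-- the real matrix of `φ` -/
def mat {n : ℕ} (φ : (Fin n → ℤ) →ₗ[ℤ] (Fin n → ℤ)) : Matrix (Fin n) (Fin n) ℝ :=
  (Int.castRingHom ℝ).mapMatrix (LinearMap.toMatrixAlgEquiv' φ)

theorem mat_apply {n : ℕ} (φ : (Fin n → ℤ) →ₗ[ℤ] (Fin n → ℤ)) (i j : Fin n) :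
    mat φ i j = ((φ (Pi.single j 1) i : ℤ) : ℝ) := by
  unfold mat
  rw [RingHom.mapMatrix_apply, Matrix.map_apply, LinearMap.toMatrixAlgEquiv'_apply]
  rfl

theorem mat_pow {n k : ℕ} {φ : (Fin n → ℤ) →ₗ[ℤ] (Fin n → ℤ)} (hφ : φ ^ k = 1) :
    mat φ ^ k = 1 := by
  unfold mat
  rw [← map_pow, ← map_pow, hφ, map_one, map_one]

theorem rank_eq {n : ℕ} (φ : (Fin n → ℤ) →ₗ[ℤ] (Fin n → ℤ)) :
    (mat φ - 1).rank = cod φ := by
  rw [← Matrix.rank_transpose]
  unfold Matrix.rank cod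
  have h1 : (mat φ - 1).transpose.mulVecLin = dual φ - 1 := by
    refine LinearMap.ext fun y => funext fun i => ?_
    have h2 : dual φ y i = ∑ l, ((φ (Pi.single i 1) l : ℤ) : ℝ) * y l := by
      unfold dual form
      simp
    rw [LinearMap.sub_apply, Module.End.one_apply, Pi.sub_apply, h2, Matrix.transpose_sub,
      Matrix.transpose_one, Matrix.mulVecLin_apply, Matrix.sub_mulVec, Matrix.one_mulVec,
      Pi.sub_apply]
    congr 1
  rw [h1]

/-- the matrix of eigenvectors -/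
theorem eigmat (h : Stmt_EIGM) {n k : ℕ} (φ : (Fin n → ℤ) →ₗ[ℤ] (Fin n → ℤ))
    (hk : 0 < k) (hφ : φ ^ k = 1) :
    ∃ (R : Matrix (Fin n) (Fin n) ℂ) (a : Fin n → ℕ), R.det ≠ 0 ∧
      (∀ i r, ∑ j, ((φ (Pi.single j 1) i : ℤ) : ℂ) * R j r =
        Complex.exp (2 * Real.pi * Complex.I * a r / k) * R i r) ∧
      (∀ r, a r < k) ∧ 2 * ∑ r, a r = k * cod φ := by
  obtain ⟨R, a, hR, hAR, ha, hj⟩ := h (mat φ) hk (mat_pow hφ)
  refine ⟨R, a, hR, fun i r => ?_, ha, ?_⟩
  · have h1 := congrFun (congrFun hAR i) r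
    rw [Matrix.mul_apply, Matrix.mul_diagonal, mul_comm] at h1
    rw [← h1]
    refine Finset.sum_congr rfl fun j _ => ?_
    rw [Matrix.map_apply, mat_apply]
    simp
  · obtain ⟨h1, h2⟩ := hj 1
    rw [pow_one, rank_eq] at h1
    rw [← h1] at h2
    rw [← h2]
    congr 1
    refine Finset.sum_congr rfl fun r _ => ?_
    rw [one_mul, Nat.mod_eq_of_lt (ha r)]

end QLZ

open QLG in
/-- the lower bound -/
theorem t_QLZ (h : Stmt_EIGM) : Stmt_QLZ := by
  classical
  intro n K _ _ χ hχ htr hn σ φ c k hM w e he hord hσ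
  obtain ⟨m, rfl⟩ : ∃ m, n = m + 1 := ⟨n - 1, by omega⟩
  obtain ⟨⟨t, u, hF⟩, -⟩ := t_FRA w
  obtain ⟨Δ, h1, h2, h3, h4, h5⟩ := c_DDER htr w t u hF
  have hσ' : ∀ a : K, a ≠ 0 → w.Ge (w.ord a + 1) (σ a - algebraMap ℂ K (zt (w.ord a) e) * a) :=
    hσ
  -- the logarithmic derivatives
  let E : Fin (m + 1) → Fin (m + 1) → ℤ := fun j => Pi.single j 1
  have hEne : ∀ j, χ (E j) ≠ 0 := fun j => TDC.chi_ne hχ _
  obtain ⟨hdet, hlog⟩ := h5 (fun j => χ (E j)) hEne (TDC.torForm_ne t_TBAS hχ htr)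
  let C : Matrix (Fin (m + 1)) (Fin (m + 1)) K := Matrix.of fun j l => Δ l (χ (E j)) / χ (E j)
  have hC : ∀ j l, w.Ge 0 (C j l) := by
    intro j l
    have h6 := (h3 l _ _ (DivVal.Ge.self w (χ (E j)))).div (χ (E j))
    rwa [sub_self] at h6
  let S : Fin (m + 1) → Fin (m + 1) → K := fun l =>
    Fin.cons (Δ l (σ t) / σ t) (fun j => Δ l (σ (u j)))
  have hS : ∀ l k, w.Ge 1 (S l k - if l = k then 1 else 0) := fun l k =>
    frame_cong w t u hF Δ h1 h2 h3 σ e hord hσ' l k
  -- the equation of the automorphism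
  have hstar : ∀ j l, ∑ i, ((φ (E j) i : ℤ) : K) * C i l = ∑ i, S l i * σ (C j i) := by
    intro j l
    have h6 := h4 (σ : K →ₐ[ℂ] K) (fun a => Δ l (σ a)) (fun a b => by rw [map_add, map_add])
      (fun a b => by
        rw [map_mul, Derivation.leibniz, smul_eq_mul, smul_eq_mul]
        rfl)
      (fun c => by rw [AlgEquiv.commutes, Derivation.map_algebraMap]) (χ (E j))
    have h7 : σ (χ (E j)) ≠ 0 := (map_ne_zero_iff σ σ.injective).2 (hEne j)
    have h8 : Δ l (σ (χ (E j))) / σ (χ (E j)) = ∑ i, ((φ (E j) i : ℤ) : K) * C i l := by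
      rw [hM.eq, ← Algebra.smul_def, Derivation.map_smul, Algebra.smul_def, Algebra.smul_def]
      have h9 : algebraMap ℂ K (c (E j)) ≠ 0 :=
        (map_ne_zero_iff _ (algebraMap ℂ K).injective).2 (hM.ne _)
      rw [mul_div_mul_left _ _ h9]
      exact logder hχ (Δ l) (φ (E j))
    rw [← h8]
    have h10 : Δ l (σ (χ (E j))) = ∑ i, σ (Δ i (χ (E j))) * S l i := h6
    rw [h10, Finset.sum_div]
    refine Finset.sum_congr rfl fun i _ => ?_
    show σ (Δ i (χ (E j))) * S l i / σ (χ (E j)) = S l i * σ (Δ i (χ (E j)) / χ (E j))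
    rw [map_div₀]
    ring
  -- eigenvectors
  obtain ⟨R, a, hR, hRφ, ha, hsum⟩ := QLZ.eigmat h φ hM.pos hM.iter
  let RK : Matrix (Fin (m + 1)) (Fin (m + 1)) K := R.map (algebraMap ℂ K)
  have hRK : RK.det = algebraMap ℂ K R.det := ((algebraMap ℂ K).map_det R).symm
  let cc : Matrix (Fin (m + 1)) (Fin (m + 1)) K := RK.transpose * C
  have hcc : ∀ r l, cc r l = ∑ j, algebraMap ℂ K (R j r) * C j l := fun r l => rfl
  have hccdet : cc.det = algebraMap ℂ K R.det * C.det := by
    show (RK.transpose * C).det = _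
    rw [Matrix.det_mul, Matrix.det_transpose, hRK]
  have hRne : algebraMap ℂ K R.det ≠ 0 := (map_ne_zero_iff _ (algebraMap ℂ K).injective).2 hR
  have hccne : cc.det ≠ 0 := by
    rw [hccdet]
    exact mul_ne_zero hRne hdet
  have hcc0 : ∀ r l, w.Ge 0 (cc r l) := by
    intro r l
    rw [hcc]
    exact DivVal.Ge.sum _ _ fun j _ => (hC j l).const_mul _
  have hlead : ∀ r, ∃ κ : ℕ, (∀ l, w.Ge (κ : ℤ) (cc r l)) ∧ e * a r ≤ k * κ := by
    intro r
    have h6 : ∃ l, cc r l ≠ 0 := by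
      by_contra hcon
      push Not at hcon
      exact hccne (Matrix.det_eq_zero_of_row_eq_zero r hcon)
    have h7 : ∀ l, ∑ i, S l i * σ (cc r i) =
        algebraMap ℂ K (Complex.exp (2 * Real.pi * Complex.I * a r / k)) * cc r l := by
      intro l
      calc ∑ i, S l i * σ (cc r i)
          = ∑ i, ∑ j, algebraMap ℂ K (R j r) * (S l i * σ (C j i)) := by
            refine Finset.sum_congr rfl fun i _ => ?_
            rw [hcc, map_sum, Finset.mul_sum]
            refine Finset.sum_congr rfl fun j _ => ?_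
            rw [map_mul, AlgEquiv.commutes]
            ring
        _ = ∑ j, algebraMap ℂ K (R j r) * ∑ i, S l i * σ (C j i) := by
            rw [Finset.sum_comm]
            exact Finset.sum_congr rfl fun j _ => (Finset.mul_sum _ _ _).symm
        _ = ∑ j, algebraMap ℂ K (R j r) * ∑ i, ((φ (E j) i : ℤ) : K) * C i l := by
            exact Finset.sum_congr rfl fun j _ => by rw [hstar]
        _ = ∑ i, (∑ j, algebraMap ℂ K (((φ (E j) i : ℤ) : ℂ) * R j r)) * C i l := by
            simp only [Finset.mul_sum, Finset.sum_mul]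
            rw [Finset.sum_comm]
            refine Finset.sum_congr rfl fun i _ => Finset.sum_congr rfl fun j _ => ?_
            rw [map_mul, map_intCast]
            ring
        _ = ∑ i, algebraMap ℂ K (Complex.exp (2 * Real.pi * Complex.I * a r / k) * R i r) *
              C i l := by
            refine Finset.sum_congr rfl fun i _ => ?_
            rw [← map_sum, hRφ]
        _ = algebraMap ℂ K (Complex.exp (2 * Real.pi * Complex.I * a r / k)) * cc r l := by
            rw [hcc, Finset.mul_sum]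
            refine Finset.sum_congr rfl fun i _ => ?_
            rw [map_mul, mul_assoc]
    obtain ⟨κ, hκ1, hκ2⟩ := leading w σ e hord hσ' S hS (cc r) (hcc0 r) h6 _ h7
    exact ⟨κ, hκ1, exp_le hM.pos he (ha r) hκ2⟩
  choose κ hκ1 hκ2 using hlead
  have h6 : w.Ge (∑ r, (κ r : ℤ)) cc.det := by
    rw [← Matrix.det_transpose]
    exact DivVal.Ge.det_cols (fun r => (κ r : ℤ)) fun i j => hκ1 j i
  have h7 := h6.le hccne
  rw [hccdet, DivVal.ord_const_mul w hR] at h7
  have h8 : w.logOrd (torForm χ) = w.ord C.det := hlog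
  rw [h8]
  have h9 : e * ∑ r, a r ≤ k * ∑ r, κ r := by
    rw [Finset.mul_sum, Finset.mul_sum]
    exact Finset.sum_le_sum fun r _ => hκ2 r
  have h10 : k * (e * cod φ) ≤ k * (2 * ∑ r, κ r) := by
    calc k * (e * cod φ) = e * (k * cod φ) := by ring
      _ = e * (2 * ∑ r, a r) := by rw [hsum]
      _ = 2 * (e * ∑ r, a r) := by ring
      _ ≤ 2 * (k * ∑ r, κ r) := Nat.mul_le_mul_left 2 h9
      _ = k * (2 * ∑ r, κ r) := by ring
  have h11 : e * cod φ ≤ 2 * ∑ r, κ r := Nat.le_of_mul_le_mul_left h10 hM.pos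
  have h12 : (e : ℤ) * cod φ ≤ 2 * ∑ r, (κ r : ℤ) := by
    have := (Int.ofNat_le.2 h11)
    push_cast at this
    exact this
  omega

end

end XG
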