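import Pool.Agent.XG.St
import Pool.Agent.MldGeo.QAT

set_option autoImplicit false

/-!
# Module QTH: divisors whose centre contains the point, over `X` and over `X / G`
-/

namespace XG

open MldGeo MldGap MldAcc MldQ

noncomputable section

open Polynomial MldGeo.QAT in
theorem t_QTH : Stmt_QTH := by
  classical
  intro n X Y G π hq w v e hO
  obtain ⟨he, hO⟩ := hO
  have hfin := hq.finite
  have hft : Fintype G := Fintype.ofFinite G
  have he' : (0 : ℤ) < e := by exact_mod_cast he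
  constructor
  · rintro ⟨h1, h2⟩
    refine ⟨fun b => ?_, fun b hb => ?_⟩
    · have h3 := h1 ⟨π b, (hq.mem_R b).1 b.2⟩
      change 0 ≤ w.ord (π b) at h3
      rw [hO] at h3
      exact nonneg_of_mul_nonneg_right h3 he'
    · have h3 := h2 ⟨π b, (hq.mem_R b).1 b.2⟩ fun h => hb ((hq.mem_m b _ rfl).2 h)
      change w.ord (π b) = 0 at h3
      rw [hO] at h3
      rcases mul_eq_zero.1 h3 with h4 | h4
      · omega
      · exact h4
  · rintro ⟨h1, h2⟩
    have key : ∀ (a : X.R) (k : ℕ), ∃ b : Y.R,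
        (((chp X G hq.map_R a).coeff k : X.R) : X.K) = π b := by
      intro a k
      obtain ⟨b, hb⟩ := (hq.inv _).2 fun g hg => chp_coeff_fixed X G hq.map_R a k g hg
      refine ⟨⟨b, (hq.mem_R b).2 ?_⟩, hb.symm⟩
      rw [hb]
      exact ((chp X G hq.map_R a).coeff k).2
    have hnn : ∀ a : X.R, 0 ≤ w.ord a := by
      intro a
      by_cases ha : (a : X.K) = 0
      · rw [ha, w.ord_zero]
      refine bound w ha (fun k => ((chp X G hq.map_R a).coeff k : X.K))
        (chp_root X G hq.map_R a) fun k _ => ?_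
      obtain ⟨b, hb⟩ := key a k
      rw [hb]
      refine DivVal.Ge.of_le ?_
      rw [hO]
      exact mul_nonneg he'.le (h1 b)
    refine ⟨hnn, fun a ha => ?_⟩
    -- the factors of the norm
    set f : G → X.R := fun g => -(⟨(g : X.K ≃ₐ[ℂ] X.K) a, hq.map_R g g.2 a a.2⟩ : X.R) with hf
    have hfm : ∀ g, f g ∉ X.m := by
      intro g h
      have h3 : (⟨(g : X.K ≃ₐ[ℂ] X.K) a, hq.map_R g g.2 a a.2⟩ : X.R) ∈ X.m := by
        rw [hf] at h
        exact (neg_mem_iff (S := Ideal X.R)).1 h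
      refine ha (hq.map_m (g : X.K ≃ₐ[ℂ] X.K)⁻¹ (G.inv_mem g.2) _ a ?_ h3)
      change (a : X.K) = (g : X.K ≃ₐ[ℂ] X.K)⁻¹ ((g : X.K ≃ₐ[ℂ] X.K) a)
      exact ((g : X.K ≃ₐ[ℂ] X.K).symm_apply_apply (a : X.K)).symm
    have hc : (chp X G hq.map_R a).coeff 0 = ∏ g, f g := by
      rw [coeff_zero_eq_eval_zero]
      unfold chp
      rw [eval_prod]
      refine Finset.prod_congr rfl fun g _ => ?_
      rw [eval_sub, eval_X, eval_C, zero_sub]
    have hprime : X.m.IsPrime := X.max.isPrime
    have hcm : (chp X G hq.map_R a).coeff 0 ∉ X.m := by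
      rw [hc]
      intro h
      obtain ⟨g, -, hg⟩ := (Ideal.IsPrime.prod_mem_iff (s := Finset.univ) (x := f) (p := X.m)).1 h
      exact hfm g hg
    obtain ⟨b, hb⟩ := key a 0
    have hbm : b ∉ Y.m := fun h => hcm ((hq.mem_m b _ hb).1 h)
    have h3 : w.ord ((chp X G hq.map_R a).coeff 0 : X.K) = 0 := by
      rw [hb, hO, h2 b hbm, mul_zero]
    rw [hc, ← Finset.mul_prod_erase Finset.univ f (Finset.mem_univ 1)] at h3 hcm
    set r := ∏ g ∈ Finset.univ.erase (1 : G), f g with hr
    have h4 : f 1 = -a := by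
      rw [hf]
      apply Subtype.ext
      rfl
    have ha0 : (a : X.K) ≠ 0 := fun h => ha (by
      have : a = 0 := Subtype.ext h
      rw [this]; exact X.m.zero_mem)
    have hr0 : (r : X.K) ≠ 0 := fun h => hcm (by
      have : r = 0 := Subtype.ext h
      rw [this, mul_zero]; exact X.m.zero_mem)
    have h5 : ((f 1 * r : X.R) : X.K) = (a : X.K) * (-(r : X.K)) := by
      rw [h4]
      push_cast
      ring
    rw [h5, w.ord_mul _ _ ha0 (neg_ne_zero.2 hr0)] at h3
    have h6 : 0 ≤ w.ord (-(r : X.K)) := hnn (-r)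
    have h7 := hnn a
    omega

end

end XG
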