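import Pool.Agent.XG.St
import Pool.Agent.MldGeo.OLC
import Pool.Agent.MldGeo.INE

/-!
# RFE: the ramification index of an automorphism which is trivial modulo a prime divisor
-/

set_option autoImplicit false

namespace XG

open MldGeo MldGap MldAcc MldQ

namespace RFEaux

variable {n : ℕ} {X : Germ n} {P : Ideal X.R} {w : DivVal n X.K} {σ : X.K ≃ₐ[ℂ] X.K}

/-- The automorphism is trivial modulo the maximal ideal of the local ring. -/
theorem step (hP : X.IsOrdAlong w P) (h1 : ∀ a : X.R, w.Ge 1 (σ (a : X.K) - a)) (a : X.K)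
    (ha : w.Ge 0 a) : w.Ge 0 (σ a) ∧ w.Ge 1 (σ a - a) := by
  obtain ⟨r, s, hs, hrs⟩ := t_OLC X P w hP a ha
  obtain ⟨hPp, -, hnn, hmem⟩ := hP
  have hs0 : (s : X.K) ≠ 0 := by
    intro h
    apply hs
    rw [hmem]
    left
    exact Subtype.ext h
  have hsle : ¬ 0 < w.ord (s : X.K) := fun h => hs ((hmem s).2 (Or.inr h))
  have hso : w.ord (s : X.K) = 0 := le_antisymm (not_lt.1 hsle) (hnn s)
  have hσs0 : σ (s : X.K) ≠ 0 := by
    rw [Ne, map_eq_zero]
    exact hs0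
  have hsge : w.Ge 0 (s : X.K) := Or.inr hso.ge
  have hrge : w.Ge 0 (r : X.K) := Or.inr (hnn r)
  have hσsge : w.Ge 0 (σ (s : X.K)) := by
    have := INE.ge_add w hsge (INE.ge_mono w (by norm_num : (0 : ℤ) ≤ 1) (h1 s))
    simpa using this
  have hσso : w.ord (σ (s : X.K)) = 0 := by
    have h2 : ¬ w.Ge 1 (σ (s : X.K)) := by
      intro h
      have h3 := INE.ge_sub w h (h1 s)
      have h4 : σ (s : X.K) - (σ (s : X.K) - s) = s := by ring
      rw [h4] at h3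
      rcases h3 with h3 | h3
      · exact hs0 h3
      · omega
    have h5 := (INE.not_ge_one w h2).2
    have h6 : 0 ≤ w.ord (σ (s : X.K)) := hσsge.resolve_left hσs0
    omega
  have hnum : w.Ge 1 ((σ (r : X.K) - r) * s - r * (σ (s : X.K) - s)) :=
    INE.ge_sub w (INE.ge_mul1 w (h1 r) hsge) (INE.ge_mul1' w hrge (h1 s))
  have hden : w.Ge 0 (((s : X.K) * σ (s : X.K))⁻¹) := by
    right
    rw [INE.ord_inv w (mul_ne_zero hs0 hσs0), w.ord_mul _ _ hs0 hσs0, hso, hσso]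
    norm_num
  have hσa : σ a * σ (s : X.K) = σ (r : X.K) := by rw [← map_mul, hrs]
  have hkey : σ a - a = ((σ (r : X.K) - r) * s - r * (σ (s : X.K) - s)) *
      ((s : X.K) * σ (s : X.K))⁻¹ := by
    rw [eq_mul_inv_iff_mul_eq₀ (mul_ne_zero hs0 hσs0), ← hσa, ← hrs]
    ring
  have hge1 : w.Ge 1 (σ a - a) := by
    rw [hkey]
    exact INE.ge_mul1 w hnum hden
  refine ⟨?_, hge1⟩
  have := INE.ge_add w ha (INE.ge_mono w (by norm_num : (0 : ℤ) ≤ 1) hge1)
  simpa using this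

theorem step_pow (hP : X.IsOrdAlong w P) (h1 : ∀ a : X.R, w.Ge 1 (σ (a : X.K) - a)) (a : X.K)
    (ha : w.Ge 0 a) (j : ℕ) : w.Ge 0 ((σ ^ j) a) ∧ w.Ge 1 ((σ ^ j) a - a) := by
  induction j with
  | zero =>
    refine ⟨by simpa using ha, Or.inl (by simp)⟩
  | succ j ih =>
    have h2 := step hP h1 ((σ ^ j) a) ih.1
    have h3 : (σ ^ (j + 1)) a = σ ((σ ^ j) a) := by
      rw [pow_succ', AlgEquiv.mul_apply]
    rw [h3]
    refine ⟨h2.1, ?_⟩
    have h4 := INE.ge_add w h2.2 ih.2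
    have h5 : σ ((σ ^ j) a) - (σ ^ j) a + ((σ ^ j) a - a) = σ ((σ ^ j) a) - a := by ring
    rwa [h5] at h4

end RFEaux

theorem t_RFE : Stmt_RFE := by
  intro n X Y G π hq σ hσ hσ1 P w1 hP h1 v e hov
  by_contra hlt
  obtain ⟨he0, hover⟩ := hov
  have he : e = 1 := by omega
  subst he
  obtain ⟨b, hb0, hb1⟩ := v.unif
  have ht0 : π b ≠ 0 := by
    rw [Ne, map_eq_zero]
    exact hb0
  have hto : w1.ord (π b) = 1 := by
    rw [hover, hb1]
    norm_num
  have hσt : ∀ j : ℕ, (σ ^ j) (π b) = π b := fun j =>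
    (hq.inv (π b)).1 ⟨b, rfl⟩ (σ ^ j) (G.pow_mem hσ j)
  have hex : ∃ a, σ a ≠ a := by
    by_contra h
    push Not at h
    exact hσ1 (AlgEquiv.ext h)
  obtain ⟨a, ha⟩ := hex
  have hfin := hq.finite
  obtain ⟨N, hN0, hN⟩ : ∃ N : ℕ, 0 < N ∧ σ ^ N = 1 := by
    refine ⟨orderOf (⟨σ, hσ⟩ : G), orderOf_pos _, ?_⟩
    have h := pow_orderOf_eq_one (⟨σ, hσ⟩ : G)
    exact congrArg Subtype.val h
  have hd0 : σ a - a ≠ 0 := sub_ne_zero.2 ha
  set t : X.K := π b with ht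
  set u : X.K := (σ a - a) * t ^ (-(w1.ord (σ a - a))) with hu
  have htk : t ^ (-(w1.ord (σ a - a))) ≠ 0 := zpow_ne_zero _ ht0
  have hu0 : u ≠ 0 := mul_ne_zero hd0 htk
  have huo : w1.ord u = 0 := by
    rw [hu, w1.ord_mul _ _ hd0 htk, INE.ord_zpow w1 ht0, hto]
    ring
  have huge : w1.Ge 0 u := Or.inr huo.ge
  have hσu : ∀ j : ℕ, (σ ^ j) u = ((σ ^ (j + 1)) a - (σ ^ j) a) * t ^ (-(w1.ord (σ a - a))) := by
    intro j
    rw [hu, map_mul, map_zpow₀, hσt j, map_sub, pow_succ, AlgEquiv.mul_apply]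
  have hsum : ∑ j ∈ Finset.range N, (σ ^ j) u = 0 := by
    rw [Finset.sum_congr rfl fun j _ => hσu j, ← Finset.sum_mul,
      Finset.sum_range_sub (fun j => (σ ^ j) a) N, hN]
    simp
  have hge : w1.Ge 1 (∑ j ∈ Finset.range N, ((σ ^ j) u - u)) :=
    INE.ge_sum w1 _ _ fun j _ => (RFEaux.step_pow hP h1 u huge j).2
  have hNu : (∑ j ∈ Finset.range N, ((σ ^ j) u - u)) = -(algebraMap ℂ X.K (N : ℂ) * u) := by
    rw [Finset.sum_sub_distrib, hsum, Finset.sum_const, Finset.card_range, nsmul_eq_mul,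
      map_natCast]
    ring
  rw [hNu] at hge
  have hge2 := INE.ge_neg w1 hge
  rw [neg_neg] at hge2
  have hNc : algebraMap ℂ X.K (N : ℂ) ≠ 0 := by
    rw [Ne, map_eq_zero]
    exact_mod_cast hN0.ne'
  rcases hge2 with h | h
  · exact mul_ne_zero hNc hu0 h
  · rw [w1.ord_mul _ _ hNc hu0, w1.ord_const, huo] at h
    norm_num at h

end XG
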