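import Pool.Agent.XG.St
import Pool.Agent.MldGeo.DIV
import Pool.Agent.MldGeo.OLC
import Pool.Agent.MldGeo.TDC
import Pool.Agent.MldGeo.QMON

set_option autoImplicit false

/-!
# XG: the prime divisor of a reflection
-/

namespace XG

open MldGeo MldGap MldAcc MldQ

noncomputable section

namespace RFP

open DivVal

variable {n : ℕ}

/-- an element of order zero modulo elements of positive order -/
theorem unit_of {K : Type} [Field K] [Algebra ℂ K] {v : DivVal n K} {y : K} (h : v.Ge 1 (y - 1)) :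
    y ≠ 0 ∧ v.ord y = 0 := by
  have hone : ¬ v.Ge 1 (1 : K) := by
    rintro (h1 | h1)
    · exact one_ne_zero h1
    · rw [ord_one] at h1
      omega
  have hy : ¬ v.Ge 1 y := by
    intro h1
    have h2 := h1.sub h
    rw [sub_sub_cancel] at h2
    exact hone h2
  have h0 : y ≠ 0 := fun h1 => hy (Or.inl h1)
  refine ⟨h0, ?_⟩
  have h3 : v.Ge 0 y := by
    have h4 := (h.mono (by norm_num : (0 : ℤ) ≤ 1)).add (Ge.one v)
    rwa [sub_add_cancel] at h4
  have h5 := h3.le h0
  by_contra hne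
  exact hy (Or.inr (by omega))

theorem one_mul' {K : Type} [Field K] [Algebra ℂ K] {v : DivVal n K} {x y : K}
    (hx : v.Ge 1 (x - 1)) (hy : v.Ge 1 (y - 1)) : v.Ge 1 (x * y - 1) := by
  have h1 : v.Ge 0 y := Or.inr (unit_of hy).2.ge
  have h2 := (hx.mul_right h1).add hy
  have h3 : (x - 1) * y + (y - 1) = x * y - 1 := by ring
  rwa [h3] at h2

theorem one_inv {K : Type} [Field K] [Algebra ℂ K] {v : DivVal n K} {x : K}
    (hx : v.Ge 1 (x - 1)) : v.Ge 1 (x⁻¹ - 1) := by
  obtain ⟨h0, h1⟩ := unit_of hx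
  have h2 : v.Ge 0 x⁻¹ := Or.inr (by rw [ord_inv, h1]; simp)
  have h3 := (hx.mul_right h2).neg
  have h4 : -((x - 1) * x⁻¹) = x⁻¹ - 1 := by
    rw [sub_mul, mul_inv_cancel₀ h0]
    ring
  rwa [h4] at h3

theorem one_pow' {K : Type} [Field K] [Algebra ℂ K] {v : DivVal n K} {x : K}
    (hx : v.Ge 1 (x - 1)) (k : ℕ) : v.Ge 1 (x ^ k - 1) := by
  induction k with
  | zero => simpa using Ge.zero v 1
  | succ k ih =>
    rw [pow_succ]
    exact one_mul' ih hx

theorem one_zpow' {K : Type} [Field K] [Algebra ℂ K] {v : DivVal n K} {x : K}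
    (hx : v.Ge 1 (x - 1)) (k : ℤ) : v.Ge 1 (x ^ k - 1) := by
  rcases k with k | k
  · simpa using one_pow' hx k
  · rw [zpow_negSucc]
    exact one_inv (one_pow' hx (k + 1))

/-- if a power is one modulo elements of positive order, the element is a root of unity -/
theorem root {K : Type} [Field K] [Algebra ℂ K] {v : DivVal n K} {x : K} (hx : v.Ge 0 x)
    {a : ℕ} (ha : 0 < a) (h : v.Ge 1 (x ^ a - 1)) :
    ∃ ζ : ℂ, v.Ge 1 (x - algebraMap ℂ K ζ) := by
  classical
  have h1 : (Polynomial.X ^ a - Polynomial.C (1 : ℂ)) =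
      ((Polynomial.nthRoots a (1 : ℂ)).map fun z => Polynomial.X - Polynomial.C z).prod := by
    have hsp : (Polynomial.X ^ a - Polynomial.C (1 : ℂ)).Splits := IsAlgClosed.splits _
    have hmon : (Polynomial.X ^ a - Polynomial.C (1 : ℂ)).Monic :=
      Polynomial.monic_X_pow_sub_C _ ha.ne'
    exact hsp.eq_prod_roots_of_monic hmon
  have h2 : x ^ a - 1 =
      ((Polynomial.nthRoots a (1 : ℂ)).map fun z => x - algebraMap ℂ K z).prod := by
    have h3 := congrArg (Polynomial.aeval x) h1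
    rw [map_sub, map_pow, Polynomial.aeval_X, Polynomial.aeval_C, map_one, map_multiset_prod,
      Multiset.map_map] at h3
    rw [h3]
    congr 1
    refine Multiset.map_congr rfl fun z _ => ?_
    simp
  rw [h2] at h
  have key : ∀ s : Multiset ℂ, v.Ge 1 ((s.map fun z => x - algebraMap ℂ K z).prod) →
      ∃ ζ : ℂ, v.Ge 1 (x - algebraMap ℂ K ζ) := by
    intro s
    induction s using Multiset.induction_on with
    | empty =>
      intro h3
      rw [Multiset.map_zero, Multiset.prod_zero] at h3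
      rcases h3 with h3 | h3
      · exact absurd h3 one_ne_zero
      · rw [ord_one] at h3
        omega
    | cons z s ih =>
      intro h3
      rw [Multiset.map_cons, Multiset.prod_cons] at h3
      by_cases h4 : v.Ge 1 (x - algebraMap ℂ K z)
      · exact ⟨z, h4⟩
      · refine ih ?_
        have h5 : x - algebraMap ℂ K z ≠ 0 := fun h6 => h4 (Or.inl h6)
        have h6 : v.Ge 0 (x - algebraMap ℂ K z) := hx.sub (Ge.const v z)
        have h7 : v.ord (x - algebraMap ℂ K z) = 0 := by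
          have h8 := h6.le h5
          by_contra hne
          exact h4 (Or.inr (by omega))
        rcases h3 with h3 | h3
        · exact Or.inl ((mul_eq_zero.1 h3).resolve_left h5)
        · by_cases h9 : (s.map fun z => x - algebraMap ℂ K z).prod = 0
          · exact Or.inl h9
          · rw [v.ord_mul _ _ h5 h9, h7, zero_add] at h3
            exact Or.inr h3
  exact key _ h

/-- the prime ideal of the functions of positive order -/
theorem prime {X : Germ n} (w : DivVal n X.K) (hw : ∀ a : X.R, 0 ≤ w.ord a) :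
    (OLC.ideal w hw 1).IsPrime := by
  refine ⟨?_, ?_⟩
  · intro h
    have h1 : (1 : X.R) ∈ OLC.ideal w hw 1 := by
      rw [h]
      exact Submodule.mem_top
    have h2 : w.Ge 1 (1 : X.K) := h1
    rcases h2 with h2 | h2
    · exact one_ne_zero h2
    · rw [ord_one] at h2
      omega
  · intro a b hab
    have h2 : w.Ge 1 ((a : X.K) * (b : X.K)) := hab
    by_cases ha : (a : X.K) = 0
    · exact Or.inl (Or.inl ha)
    by_cases hb : (b : X.K) = 0
    · exact Or.inr (Or.inl hb)
    have h3 := h2.le (mul_ne_zero ha hb)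
    rw [w.ord_mul _ _ ha hb] at h3
    have h4 := hw a
    have h5 := hw b
    by_cases h6 : 1 ≤ w.ord (a : X.K)
    · exact Or.inl (Or.inr h6)
    · exact Or.inr (Or.inr (by omega))

end RFP

open RFP DivVal in
/-- RFP: the prime divisor of a reflection. -/
theorem t_RFP : Stmt_RFP := by
  classical
  intro n k X χ S hn hT σ φ c hM hσR hne hrank w hw hw0 hσ
  have hTF : TorusField χ := hT.toTorusField
  have hχ0 : ∀ u, χ u ≠ 0 := QMON.chi_ne hTF
  -- the orders of the characters along `w`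
  have hordw : ∀ u, w.ord (χ u) = 0 := by
    intro u
    rw [TDC.ord_chi hTF, hw0]
    simp [pair]
  -- an element of `S` which is not fixed
  obtain ⟨m0, hm0S, hm0⟩ : ∃ u ∈ S, φ u ≠ u := by
    by_contra hcon
    push Not at hcon
    obtain ⟨u, hu⟩ := hne
    apply hu
    have hmem : u ∈ AddSubgroup.closure (S : Set (Fin n → ℤ)) := by
      rw [hT.gen]
      exact AddSubgroup.mem_top u
    have hle : AddSubgroup.closure (S : Set (Fin n → ℤ)) ≤
        (φ.toAddMonoidHom.eqLocus (AddMonoidHom.id (Fin n → ℤ))) := by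
      rw [AddSubgroup.closure_le]
      intro u hu
      exact hcon u hu
    exact hle hmem
  have hm0R : χ m0 ∈ X.R := (hT.mem_R m0).1 hm0S
  -- the function
  let f : X.R := ⟨σ (χ m0) - χ m0, X.R.sub_mem (hσR _ hm0R) hm0R⟩
  have hf0 : f ≠ 0 := by
    intro h
    have h1 : σ (χ m0) - χ m0 = 0 := congrArg Subtype.val h
    rw [hM.eq, sub_eq_zero] at h1
    have h2 := QMON.uniq hTF (hM.ne m0) (u := φ m0) (u' := m0) (c' := 1) (by
      rw [h1, map_one, one_mul])
    exact hm0 h2.1
  let Pw : Ideal X.R := OLC.ideal w hw.1 1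
  have hPw : Pw.IsPrime := RFP.prime w hw.1
  have hfPw : f ∈ Pw := hσ (χ m0) (hordw m0) (hχ0 m0)
  obtain ⟨P, hPmin, hPle⟩ := Ideal.exists_minimalPrimes_le
    (I := Ideal.span {f}) (J := Pw) ((Ideal.span_singleton_le_iff_mem _).2 hfPw)
  have hPp : P.IsPrime := hPmin.1.1
  have hfP : f ∈ P := hPmin.1.2 (Ideal.mem_span_singleton_self f)
  have hPht : P.height = 1 := by
    refine le_antisymm ?_ ?_
    · have hpr : (Ideal.span {f}).IsPrincipal := ⟨⟨f, rfl⟩⟩
      exact Ideal.height_le_one_of_isPrincipal_of_mem_minimalPrimes (Ideal.span {f}) P hPmin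
    · have hP0 : P ≠ ⊥ := by
        intro h
        rw [h] at hfP
        exact hf0 ((Submodule.mem_bot _).1 hfP)
      have h4 := Ideal.height_add_one_le_of_lt_of_isPrime (bot_lt_iff_ne_bot.2 hP0)
      rwa [Ideal.height_bot, zero_add] at h4
  obtain ⟨w1, hw1, -⟩ := t_DIV X P hPp hPht
  have hPm : P ≤ X.m := by
    intro a ha
    by_contra h3
    have h4 := hw.2 a h3
    have h5 : w.Ge 1 (a : X.K) := hPle ha
    rcases h5 with h5 | h5
    · apply h3
      have : a = 0 := Subtype.ext h5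
      rw [this]
      exact X.m.zero_mem
    · omega
  refine ⟨P, w1, hPm, hw1, ?_⟩
  -- elements of positive order
  have hmemP : ∀ a : X.R, w1.Ge 1 (a : X.K) → w.Ge 1 (a : X.K) := by
    intro a ha
    have h1 : a ∈ P := by
      rw [hw1.2.2.2 a]
      rcases ha with h | h
      · exact Or.inl (Subtype.ext h)
      · exact Or.inr (by omega)
    exact hPle h1
  -- the orders of the characters along `w1`
  have hord1S : ∀ u ∈ S, w1.ord (χ u) = 0 := by
    intro u hu
    have hR : χ u ∈ X.R := (hT.mem_R u).1 hu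
    have h1 := hw1.2.2.1 ⟨χ u, hR⟩
    by_contra hne1
    have h2 : w.Ge 1 (χ u) := hmemP ⟨χ u, hR⟩ (Or.inr (by
      have h3 : 0 ≤ w1.ord (χ u) := h1
      show 1 ≤ w1.ord (χ u)
      omega))
    have h3 := h2.le (hχ0 u)
    rw [hordw] at h3
    omega
  have hord1 : ∀ u, w1.ord (χ u) = 0 := by
    intro u
    have hmem : u ∈ AddSubgroup.closure (S : Set (Fin n → ℤ)) := by
      rw [hT.gen]
      exact AddSubgroup.mem_top u
    induction hmem using AddSubgroup.closure_induction with
    | mem u hu => exact hord1S u hu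
    | zero => rw [hTF.zero, ord_one]
    | add u v _ _ hu hv => rw [hTF.add, w1.ord_mul _ _ (hχ0 u) (hχ0 v), hu, hv, add_zero]
    | neg u _ hu => rw [QMON.chi_neg hTF, ord_inv, hu, neg_zero]
  -- the quotients
  let h : (Fin n → ℤ) →+ Additive X.Kˣ := AddMonoidHom.mk'
    (fun m => Additive.ofMul (Units.mk0 (σ (χ m) * (χ m)⁻¹)
      (mul_ne_zero ((map_ne_zero σ).2 (hχ0 m)) (inv_ne_zero (hχ0 m))))) (by
      intro a b
      apply Additive.toMul.injective
      apply Units.ext
      show σ (χ (a + b)) * (χ (a + b))⁻¹ = σ (χ a) * (χ a)⁻¹ * (σ (χ b) * (χ b)⁻¹)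
      rw [hTF.add, map_mul, mul_inv]
      ring)
  have hval : ∀ m, ((h m).toMul : X.K) = σ (χ m) * (χ m)⁻¹ := fun m => rfl
  have hmul : ∀ m, σ (χ m) = ((h m).toMul : X.K) * χ m := by
    intro m
    rw [hval, mul_assoc, inv_mul_cancel₀ (hχ0 m), mul_one]
  have hc0 : ∀ m, w1.ord ((h m).toMul : X.K) = 0 := by
    intro m
    rw [hval, w1.ord_mul _ _ ((map_ne_zero σ).2 (hχ0 m)) (inv_ne_zero (hχ0 m)), ord_inv, hord1,
      hM.eq, ord_const_mul _ (hM.ne m), hord1]
    simp
  -- fixed vectors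
  have hfix : ∀ u, φ u = u → h u = 0 := by
    intro u hu
    have h1 := hσ (χ u) (hordw u) (hχ0 u)
    have h2 : σ (χ u) - χ u = algebraMap ℂ X.K (c u - 1) * χ u := by
      rw [hM.eq, hu, map_sub, map_one, sub_mul, one_mul]
    have h3 : c u - 1 = 0 := by
      by_contra hc
      rw [h2] at h1
      have h4 := h1.le (mul_ne_zero ((map_ne_zero _).2 hc) (hχ0 u))
      rw [ord_const_mul _ hc, hordw] at h4
      omega
    apply Additive.toMul.injective
    apply Units.ext
    show σ (χ u) * (χ u)⁻¹ = 1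
    rw [h3, map_zero, zero_mul, sub_eq_zero] at h2
    rw [h2, mul_inv_cancel₀ (hχ0 u)]
  -- the quotient of `m0`
  have hone0 : w1.Ge 1 (((h m0).toMul : X.K) - 1) := by
    have h1 : w1.Ge 1 (f : X.K) := by
      rcases (hw1.2.2.2 f).1 hfP with h2 | h2
      · exact absurd h2 hf0
      · exact Or.inr (by omega)
    have h2 : w1.Ge 0 (χ m0)⁻¹ := Or.inr (by rw [ord_inv, hord1]; simp)
    have h3 := h1.mul_right h2
    have h4 : (f : X.K) * (χ m0)⁻¹ = ((h m0).toMul : X.K) - 1 := by
      show (σ (χ m0) - χ m0) * (χ m0)⁻¹ = _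
      rw [hval, sub_mul, mul_inv_cancel₀ (hχ0 m0)]
    rwa [h4] at h3
  -- all quotients are one modulo elements of positive order
  have hS1 : ∀ m ∈ S, w1.Ge 1 (σ (χ m) - χ m) := by
    intro m hm
    obtain ⟨a, b, ha, hab⟩ := hrank m0 m hm0
    have h1 := hfix _ hab
    rw [map_sub, map_zsmul, map_zsmul, sub_eq_zero] at h1
    have h2 : ((h m).toMul : X.K) ^ a = ((h m0).toMul : X.K) ^ b := by
      have h3 := congrArg (fun z : Additive X.Kˣ => ((z.toMul : X.Kˣ) : X.K)) h1
      simpa using h3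
    obtain ⟨a', rfl⟩ := Int.eq_ofNat_of_zero_le ha.le
    rw [zpow_natCast] at h2
    have h4 : w1.Ge 1 (((h m).toMul : X.K) ^ a' - 1) := by
      rw [h2]
      exact one_zpow' hone0 b
    obtain ⟨ζ, hζ⟩ := root (v := w1) (Or.inr (hc0 m).ge) (by omega) h4
    have hmR : χ m ∈ X.R := (hT.mem_R m).1 hm
    have hR : σ (χ m) - algebraMap ℂ X.K ζ * χ m ∈ X.R :=
      X.R.sub_mem (hσR _ hmR) (X.R.mul_mem (X.R.algebraMap_mem ζ) hmR)
    have h5 : w1.Ge 1 (σ (χ m) - algebraMap ℂ X.K ζ * χ m) := by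
      have h6 := hζ.mul_right (b := χ m) (Or.inr (hord1 m).ge)
      rwa [sub_mul, ← hmul] at h6
    have h6 : w.Ge 1 (σ (χ m) - algebraMap ℂ X.K ζ * χ m) := hmemP ⟨_, hR⟩ h5
    have h7 := (hσ (χ m) (hordw m) (hχ0 m)).sub h6
    have h8 : σ (χ m) - χ m - (σ (χ m) - algebraMap ℂ X.K ζ * χ m) =
        algebraMap ℂ X.K (ζ - 1) * χ m := by
      rw [map_sub, map_one]
      ring
    rw [h8] at h7
    have h9 : ζ = 1 := by
      by_contra hz
      have hz' : ζ - 1 ≠ 0 := sub_ne_zero.2 hz
      have h10 := h7.le (mul_ne_zero ((map_ne_zero _).2 hz') (hχ0 m))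
      rw [ord_const_mul _ hz', hordw] at h10
      omega
    rw [h9, map_one, one_mul] at h5
    exact h5
  intro a
  obtain ⟨F, d, hF, ha⟩ := hT.span_R a a.2
  have h1 : σ (a : X.K) - a = ∑ u ∈ F, algebraMap ℂ X.K (d u) * (σ (χ u) - χ u) := by
    rw [ha, map_sum, ← Finset.sum_sub_distrib]
    refine Finset.sum_congr rfl fun u _ => ?_
    rw [map_mul, AlgEquiv.commutes]
    ring
  rw [h1]
  exact Ge.sum F _ fun u hu => (hS1 u (hF u hu)).const_mul _

end

end XG
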