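import Pool.Agent.XG.St

set_option autoImplicit false

/-!
# XG_SHP: the shifts of the powers
-/

namespace XG

open MldQ MldGap MldAcc Finset

namespace SHP

/-- `trans g (j * l)` as a sum over the powers of `g ^ j` -/
theorem trans_mul_sum {n : ℕ} (g : Aff n) (j l : ℕ) :
    trans g (j * l) = ∑ i ∈ range l, ((g.1 ^ j) ^ i) (trans g j) := by
  induction l with
  | zero => simp [trans_zero]
  | succ l ih =>
    rw [Nat.mul_succ, trans_add, ih, sum_range_succ, pow_mul]

end SHP

theorem t_SHP : Stmt_SHP := by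
  intro n k g u hk hg hu j v
  have hjk : (g.1 ^ j) ^ k = 1 := by rw [← pow_mul, mul_comm, pow_mul, hg, one_pow]
  refine ⟨k, hk, hjk, ?_⟩
  show (k : ℝ) • ((j : ℝ) • u + avg k (g.1 ^ j) v) =
    ∑ i ∈ range k, ((g.1 ^ j) ^ i) (trans g j + v)
  rw [smul_add, smul_avg hk]
  simp only [map_add, sum_add_distrib]
  congr 1
  rw [← SHP.trans_mul_sum, mul_comm j k, trans_mul hg, ← hu.eq hg, smul_comm]

end XG
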