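import Pool.Agent.XG.St

/-!
# TDT: toric data exist
-/

namespace XG

open MldGeo MldGap MldAcc MldQ

noncomputable section

/-- TDT -/
theorem t_TDT : Stmt_TDT := by
  classical
  intro n X A T hn hJ hNB
  have hInv : A.InvTriple T :=
    ⟨fun P b h hb => absurd (hNB P b h) hb, fun j => (hJ.false j).elim⟩
  obtain ⟨χ, S, hT, hG⟩ := c_TOR X A
  have hχ : TorusField χ := hT.toTorusField
  have hpt : ∀ u ∈ S, -u ∈ S → u = 0 := by
    intro u hu hnu
    by_contra hne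
    have h1 := hT.pos u hu hne ((hT.mem_R u).1 hu)
    have h2 : (⟨χ (-u), (hT.mem_R _).1 hnu⟩ : X.R) * ⟨χ u, (hT.mem_R u).1 hu⟩ = 1 := by
      apply Subtype.ext
      show χ (-u) * χ u = 1
      rw [← hχ.add, neg_add_cancel, hχ.zero]
    have h3 : (1 : X.R) ∈ X.m := h2 ▸ X.m.mul_mem_left _ h1
    exact X.max.ne_top ((Ideal.eq_top_iff_one _).2 h3)
  obtain ⟨r, ρ, hprim, hnonneg, hface, hcone, hint, hextr, y0, hy0⟩ := t_CON S hT.fg hT.gen hpt
  obtain ⟨ψ, hψ⟩ := c_PSI X A χ S hn hT hG T hInv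
  choose vr hvr using fun i => c_GAV χ hχ X.trdeg (ρ i) (hprim i)
  have htray := fun i => c_TRAY X χ S hn hT (ρ i) (vr i) (hvr i) (hnonneg i)
  have hψρ : ∀ i, ψ (toR (ρ i)) = 1 := by
    intro i
    obtain ⟨P, hP, hord⟩ := (htray i).2.2 (hface i)
    have h1 : T.Coeff P (1 - T.logDisc (vr i)) := ⟨hP, vr i, hord, by ring⟩
    have h2 := hNB P _ h1
    have h3 := hψ _ (htray i).1
    rw [TDC.ordVec_gauss (hvr i), (hvr i).form] at h3
    simp only [Int.cast_zero, zero_add] at h3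
    rw [← h3]
    linarith
  have hdisc : ∀ v : DivVal n X.K, X.Through v →
      T.disc v = v.logOrd (torForm χ) + ψ (toR (ordVec χ v)) := fun v hv => by
    rw [MLQ.disc_eq T hJ, hψ v hv]
  exact ⟨⟨χ, S, hT, r, ρ, hprim, hnonneg, hface, hcone, hint, ψ, hψρ, hdisc⟩, hG⟩

end

end XG
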