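import Pool.Agent.XG.St
import Pool.Agent.G4.TQX

set_option autoImplicit false

/-!
# TQG: the torus action on a quotient of affine space by a finite group of diagonal matrices
-/

namespace XG

open MldGeo MldGap MldAcc MldQ MvPolynomial

noncomputable section

namespace TQG

open G4.TQX

variable {n : ℕ} (G : Subgroup (GL (Fin n) ℂ)) [Finite G] (hG : ∀ g ∈ G, IsD g)
variable {X : Germ n} (φ : X.R ≃ₐ[ℂ] invariants G) (L : (Fin n → ℤ) ≃ₗ[ℤ] lat G hG)

theorem const (a : X.R) (ha : a ∈ gr G hG φ L 0) : ∃ c : ℂ, a = algebraMap ℂ X.R c := by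
  refine ⟨coeff 0 (po G φ a), ?_⟩
  apply φ.injective
  rw [AlgEquiv.commutes]
  apply Subtype.ext
  change po G φ a = C (coeff 0 (po G φ a))
  ext d
  rw [coeff_C]
  split_ifs with h
  · rw [← h]
  · by_contra h1
    have h2 := ha d h1
    rw [map_zero] at h2
    have h3 : ex d = ex (0 : Fin n →₀ ℕ) := by
      rw [h2, ex_zero]
      rfl
    exact h (ex_inj h3).symm

theorem vanish (hm : ∀ a : X.R, a ∈ X.m ↔
      constantCoeff (φ a : MvPolynomial (Fin n) ℂ) = 0) (u : Fin n → ℤ) (hu : u ≠ 0) (a : X.R)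
    (ha : a ∈ gr G hG φ L u) : a ∈ X.m := by
  rw [hm]
  by_contra h1
  have h2 : coeff 0 (po G φ a) ≠ 0 := h1
  have h3 := ha 0 h2
  rw [ex_zero] at h3
  have h4 : L u = 0 := Subtype.ext h3.symm
  exact hu ((LinearEquiv.map_eq_zero_iff L).1 h4)

end TQG

open G4.TQX in
theorem t_TQG : Stmt_TQG := by
  intro n X G _ hX hG
  obtain ⟨φ, hm⟩ := hX
  have hG' : ∀ g ∈ G, IsD g := hG
  obtain ⟨L⟩ := exists_equiv G hG'
  exact ⟨{
    gr := gr G hG' φ L
    graded :=
      { toDecomposition := (internal G hG' φ L).chooseDecomposition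
        toGradedMonoid := gmonoid G hG' φ L }
    effective := eff G hG' φ L
    const := TQG.const G hG' φ L
    vanish := TQG.vanish G hG' φ L hm }⟩

end

end XG
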