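import Pool.Agent.XG.St

/-!
# XG, module TRVX: the trivial group
-/

set_option autoImplicit false

namespace XG

noncomputable section

namespace TRVX

open MldX

variable {n : ℕ} {X : MldX.Germ n}

theorem mem_bot {g : X.Aut} (h : g ∈ (⊥ : Subgroup X.Aut)) : g = 1 := Subgroup.mem_bot.1 h

theorem isQuot (X : MldX.Germ n) :
    MldX.IsQuot (⊥ : Subgroup X.Aut) (AlgHom.id ℂ X.K : MldX.Map X X) where
  finite := inferInstance
  acts := by
    intro g hg a ha
    rw [mem_bot hg]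
    exact ha
  fixes := by
    intro g hg a ha
    rw [mem_bot hg]
    exact ha
  field := by
    intro a
    refine ⟨fun _ g hg => by rw [mem_bot hg]; rfl, fun _ => ⟨a, rfl⟩⟩
  ring := fun b => Iff.rfl
  point := fun b => Iff.rfl

theorem val_ext {K : Type} [Field K] [Algebra ℂ K] (w v : MldX.DivVal n K) (h : w.ord = v.ord) :
    w = v := by
  cases w
  cases v
  cases h
  rfl

theorem liesOver {w v : MldX.DivVal n X.K} {e : ℕ}
    (h : MldX.LiesOver (AlgHom.id ℂ X.K : MldX.Map X X) w v e) : e = 1 ∧ w = v := by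
  obtain ⟨he, h⟩ := h
  obtain ⟨t, ht0, ht⟩ := w.unif
  have h1 : w.ord t = e * v.ord t := h t
  rw [ht] at h1
  have h2 : (e : ℤ) ∣ 1 := ⟨_, h1⟩
  have h3 : e = 1 := by
    have := Int.natAbs_dvd_natAbs.2 h2
    simpa using this
  refine ⟨h3, val_ext w v ?_⟩
  funext b
  have h4 : w.ord b = e * v.ord b := h b
  rw [h4, h3]
  simp

theorem crepant (T : MldX.Triple X) :
    MldX.Crepant (AlgHom.id ℂ X.K : MldX.Map X X) T T where
  divisor := by
    intro w v e h _
    obtain ⟨rfl, rfl⟩ := liesOver h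
    simp
  ideals := by
    intro w v e h _
    obtain ⟨rfl, rfl⟩ := liesOver h
    simp

theorem toricQuot (A : MldX.TorusAction X n) (T : MldX.Triple X) (hA : A.Attractive)
    (hJ : IsEmpty T.J) (hT : A.InvTriple T) :
    MldX.IsToricQuot (⊥ : Subgroup X.Aut) (AlgHom.id ℂ X.K : MldX.Map X X) T T where
  quot := isQuot X
  crepant := crepant T
  empty := hJ
  empty' := hJ
  toric := by
    intro g hg
    refine ⟨A, hA, fun u => ⟨u, fun a ha => ?_⟩, hT⟩
    rw [mem_bot hg]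
    exact ha

end TRVX

theorem t_TRVX : Stmt_TRVX := by
  intro n X A T hA hJ hT
  refine ⟨fun q hq => ⟨X, X, ⊥, AlgHom.id ℂ X.K, T, T, TRVX.toricQuot A T hA hJ hT, hq, rfl⟩,
    fun hB => ⟨⟨X, X, ⊥, AlgHom.id ℂ X.K, T, T, TRVX.toricQuot A T hA hJ hT, hB, hB, rfl⟩,
      ⟨X, X, ⊥, AlgHom.id ℂ X.K, T, T, TRVX.toricQuot A T hA hJ hT, hB, hB, rfl⟩⟩⟩

end

end XG
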