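import Pool.Agent.XG.St

set_option autoImplicit false

/-!
# UPX: the upper bound: an element of a torus gives a divisor over the quotient
-/

namespace XG

open MldGeo MldGap MldAcc MldQ

noncomputable section

namespace UPX

open TDC

/-- `exp (2 π i t)` -/
def ex (t : ℝ) : ℂ := Complex.exp (2 * Real.pi * Complex.I * (t : ℝ))

theorem ex_add (s t : ℝ) : ex (s + t) = ex s * ex t := by
  unfold ex
  rw [← Complex.exp_add]
  congr 1
  push_cast
  ring

theorem ex_ne (t : ℝ) : ex t ≠ 0 := Complex.exp_ne_zero _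

theorem ex_eq_one {t : ℝ} (h : ex t = 1) : ∃ l : ℤ, t = l := by
  unfold ex at h
  obtain ⟨l, hl⟩ := Complex.exp_eq_one_iff.1 h
  refine ⟨l, ?_⟩
  have h1 : (2 * Real.pi * Complex.I : ℂ) ≠ 0 := Complex.two_pi_I_ne_zero
  have h2 : (2 * Real.pi * Complex.I : ℂ) * ((t : ℝ) : ℂ) =
      (2 * Real.pi * Complex.I : ℂ) * (l : ℂ) := by
    rw [hl]
    ring
  have h3 := mul_left_cancel₀ h1 h2
  exact_mod_cast h3

variable {n : ℕ} {K : Type} [Field K] [Algebra ℂ K]

/-- The powers of `g`. -/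
theorem pow_chi {χ : (Fin n → ℤ) → K} {g : K ≃ₐ[ℂ] K} {z : Fin n → ℝ}
    (h : ∀ m, g (χ m) = algebraMap ℂ K (ex (form m z)) * χ m) (k : ℕ) (m : Fin n → ℤ) :
    (g ^ k) (χ m) = algebraMap ℂ K (ex (k * form m z)) * χ m := by
  induction k with
  | zero =>
    have h1 : ex (((0 : ℕ) : ℝ) * form m z) = 1 := by
      unfold ex
      simp
    rw [h1, pow_zero, map_one, one_mul]
    rfl
  | succ k ih =>
    rw [pow_succ, AlgEquiv.mul_apply, h, map_mul, AlgEquiv.commutes, ih, ← mul_assoc, ← map_mul,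
      ← ex_add]
    congr 3
    push_cast
    ring

/-- The lowest part of a Laurent polynomial is an eigenvector. -/
theorem ge_of_span {χ : (Fin n → ℤ) → K} {g : K ≃ₐ[ℂ] K} {z : Fin n → ℝ}
    (h : ∀ m, g (χ m) = algebraMap ℂ K (ex (form m z)) * χ m) {y : Fin n → ℤ} {w : DivVal n K}
    (hw : Gauss χ y w) {c : ℝ} (hc : ∀ m, form m z = c * pair m y) {r : K}
    (hr : r ∈ Submodule.span ℂ (Set.range χ)) :
    w.Ge (w.ord r + 1) (g r - algebraMap ℂ K (ex (c * w.ord r)) * r) := by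
  classical
  obtain ⟨a, rfl⟩ := Finsupp.mem_span_range_iff_exists_finsupp.1 hr
  have h1 : (a.sum fun i b => b • χ i) = ∑ u ∈ a.support, algebraMap ℂ K (a u) * χ u := by
    unfold Finsupp.sum
    exact Finset.sum_congr rfl fun u _ => Algebra.smul_def _ _
  rw [h1]
  obtain ⟨d, hd⟩ : ∃ d, d = w.ord (∑ u ∈ a.support, algebraMap ℂ K (a u) * χ u) := ⟨_, rfl⟩
  rw [← hd]
  have h2 : g (∑ u ∈ a.support, algebraMap ℂ K (a u) * χ u) -
      algebraMap ℂ K (ex (c * d)) * ∑ u ∈ a.support, algebraMap ℂ K (a u) * χ u =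
      ∑ u ∈ a.support, algebraMap ℂ K (a u * (ex (form u z) - ex (c * d))) * χ u := by
    rw [map_sum, Finset.mul_sum, ← Finset.sum_sub_distrib]
    refine Finset.sum_congr rfl fun u _ => ?_
    rw [map_mul, AlgEquiv.commutes, h, map_mul, map_sub]
    ring
  rw [h2]
  refine DivVal.Ge.sum _ _ fun u hu => ?_
  have h3 : d ≤ pair u y := by
    rw [hd]
    exact hw.le a.support a u hu (Finsupp.mem_support_iff.1 hu)
  rcases h3.lt_or_eq with h4 | h4
  · refine DivVal.Ge.const_mul (Or.inr ?_) _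
    rw [hw.chi]
    omega
  · rw [hc u, h4, sub_self, mul_zero, map_zero, zero_mul]
    exact DivVal.Ge.zero w _

/-- The orders of the invariant functions. -/
theorem ex_ord {χ : (Fin n → ℤ) → K} (hχ : TorusField χ) {g : K ≃ₐ[ℂ] K} {z : Fin n → ℝ}
    (h : ∀ m, g (χ m) = algebraMap ℂ K (ex (form m z)) * χ m) {y : Fin n → ℤ} {w : DivVal n K}
    (hw : Gauss χ y w) {c : ℝ} (hc : ∀ m, form m z = c * pair m y) {f : K} (hf : f ≠ 0)
    (hgf : g f = f) : ex (c * w.ord f) = 1 := by
  obtain ⟨r, hr, s, hs, hs0, hfs⟩ := hχ.frac f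
  have hr0 : r ≠ 0 := by
    rw [← hfs]
    exact mul_ne_zero hf hs0
  have h1 := ge_of_span h hw hc hr
  have h2 := ge_of_span h hw hc hs
  have h3 : w.ord r = w.ord f + w.ord s := by rw [← hfs, w.ord_mul _ _ hf hs0]
  have h4 : w.Ge (w.ord r + 1) (f * (g s - algebraMap ℂ K (ex (c * w.ord s)) * s)) := by
    have := (DivVal.Ge.self w f).mul h2
    rwa [← add_assoc, ← h3] at this
  have h5 : f * (g s - algebraMap ℂ K (ex (c * w.ord s)) * s) =
      g r - algebraMap ℂ K (ex (c * w.ord s)) * r := by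
    rw [← hfs, map_mul, hgf]
    ring
  rw [h5] at h4
  have h6 := h4.sub h1
  have h7 : g r - algebraMap ℂ K (ex (c * w.ord s)) * r -
      (g r - algebraMap ℂ K (ex (c * w.ord r)) * r) =
      algebraMap ℂ K (ex (c * w.ord r) - ex (c * w.ord s)) * r := by
    rw [map_sub]
    ring
  rw [h7] at h6
  have h8 : ex (c * w.ord r) - ex (c * w.ord s) = 0 := by
    by_contra hne
    have h9 := h6.le (mul_ne_zero ((map_ne_zero _).2 hne) hr0)
    rw [DivVal.ord_const_mul w hne] at h9
    omega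
  have h9 : c * (w.ord r : ℝ) = c * w.ord f + c * w.ord s := by
    rw [h3]
    push_cast
    ring
  rw [h9, ex_add, sub_eq_zero] at h8
  exact mul_right_cancel₀ (ex_ne _) (h8.trans (one_mul _).symm)

end UPX

open UPX TDC in
/-- UPX -/
theorem t_UPX (h : Stmt_QTH) : Stmt_UPX := by
  classical
  intro n X Y G π T T' hn hQ hC hJ hJ' D g hg z hz0 hzS hact
  have hχ : TorusField D.χ := D.coord.toTorusField
  have hact' : ∀ m, g (D.χ m) = algebraMap ℂ X.K (ex (form m z)) * D.χ m := hact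
  have : Finite G := hQ.finite
  obtain ⟨N, hN, hgN⟩ : ∃ k : ℕ, 0 < k ∧ g ^ k = 1 := by
    have h1 := isOfFinOrder_of_finite (⟨g, hg⟩ : G)
    refine ⟨orderOf (⟨g, hg⟩ : G), h1.orderOf_pos, ?_⟩
    have h2 := pow_orderOf_eq_one (⟨g, hg⟩ : G)
    exact congrArg Subtype.val h2
  have hNR : (0 : ℝ) < N := by exact_mod_cast hN
  -- the integral vector
  have hint : ∀ m : Fin n → ℤ, ∃ l : ℤ, (N : ℝ) * form m z = l := by
    intro m
    apply ex_eq_one
    have h1 := pow_chi hact' N m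
    rw [hgN] at h1
    have h2 : algebraMap ℂ X.K (ex (N * form m z)) * D.χ m = algebraMap ℂ X.K 1 * D.χ m := by
      rw [← h1, map_one, one_mul]
      rfl
    exact (algebraMap ℂ X.K).injective (mul_right_cancel₀ (chi_ne hχ m) h2)
  choose l hl using hint
  obtain ⟨U, hU⟩ : ∃ U : Fin n → ℤ, (N : ℝ) • z = toR U := by
    refine ⟨fun i => l (Pi.single i 1), ?_⟩
    funext i
    have h1 := hl (Pi.single i 1)
    rw [QFin.form_single] at h1
    exact h1
  have hU0 : U ≠ 0 := by
    rintro rfl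
    rw [toR_zero] at hU
    rcases smul_eq_zero.1 hU with h1 | h1
    · exact hNR.ne' h1
    · exact hz0 h1
  obtain ⟨κ, u0, hκ, hUκ, hu⟩ := exists_primitive U hU0
  have hκR : (0 : ℝ) < κ := by
    have : 0 < κ := by omega
    exact_mod_cast this
  have hform : ∀ m, form m z = κ / N * pair m u0 := by
    intro m
    have h1 : (N : ℝ) * form m z = κ * pair m u0 := by
      rw [← QFin.form_smul, hU, form_toR, hUκ, pair_smul]
      push_cast
      rfl
    field_simp
    linarith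
  have hcN : (0 : ℝ) < κ / N := div_pos hκR hNR
  have hnn : ∀ u ∈ D.S, 0 ≤ pair u u0 := by
    intro u hu
    have h1 := hzS u hu
    rw [hform] at h1
    have h2 : (0 : ℝ) ≤ pair u u0 := nonneg_of_mul_nonneg_right h1 hcN
    exact_mod_cast h2
  obtain ⟨w, hw⟩ := c_GAV D.χ hχ X.trdeg u0 hu
  obtain ⟨hth, hat, -⟩ := c_TRAY X D.χ D.S hn D.coord u0 w hw hnn
  have hdw : T.disc w = D.ψ (toR u0) := by
    rw [D.disc w hth, ordVec_gauss hw, hw.form, Int.cast_zero, zero_add]
  obtain ⟨v, e, ho⟩ := (c_QGAL X Y G π hn hQ).1 w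
  have heR : (0 : ℝ) < e := by exact_mod_cast ho.1
  have hdv := QFin.disc_over c_QPUL hn hQ hC hth ho
  rw [hdw] at hdv
  refine ⟨v, (h X Y G π hQ w v e ho).1 hth, ?_, ?_⟩
  · -- the ramification index
    have h1 : (N : ℝ) ≤ κ * e := by
      obtain ⟨b, hb, hb1⟩ := v.unif
      have h9 : π b ≠ 0 := fun h => hb ((map_eq_zero π).1 h)
      have h10 : g (π b) = π b := (hQ.inv _).1 ⟨b, rfl⟩ _ hg
      have h11 := ex_ord hχ hact' hw hform h9 h10
      rw [ho.2, hb1, mul_one] at h11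
      obtain ⟨j, hj⟩ := ex_eq_one h11
      have h12 : (κ : ℝ) * e = N * j := by
        rw [← hj]
        push_cast
        field_simp
      have h13 : κ * e = N * j := by exact_mod_cast h12
      have h14 : (N : ℤ) ≤ κ * e := by
        refine Int.le_of_dvd (mul_pos (by omega) (by exact_mod_cast ho.1)) ⟨j, h13⟩
      exact_mod_cast h14
    have h2 : 0 ≤ D.ψ (toR u0) := by
      have h3 : toR u0 ∈ coneOf (fun i => toR (D.ρ i)) := by
        rw [D.cone]
        intro u hu
        rw [form_toR]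
        exact_mod_cast hnn u hu
      obtain ⟨c, hc, he⟩ := h3
      rw [he, map_sum]
      refine Finset.sum_nonneg fun i _ => ?_
      rw [map_smul, D.ψρ, smul_eq_mul, mul_one]
      exact hc i
    have h3 : (N : ℝ) * D.ψ z = κ * D.ψ (toR u0) := by
      rw [← smul_eq_mul, ← map_smul, hU, hUκ, toR_smul, map_smul, smul_eq_mul]
    have h4 : 0 ≤ T'.disc v := by
      rw [hdv] at h2
      exact nonneg_of_mul_nonneg_right h2 heR
    have h5 : (N : ℝ) * T'.disc v ≤ N * D.ψ z := by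
      rw [h3, hdv]
      nlinarith
    exact le_of_mul_le_mul_left h5 hNR
  · intro hpos
    refine (t_QAT X Y G π hQ w v e ho).1 (hat fun u hu hu0 => ?_)
    have h1 := hpos u hu hu0
    rw [hform] at h1
    have h2 : (0 : ℝ) < pair u u0 := (mul_pos_iff_of_pos_left hcN).1 h1
    exact_mod_cast h2

end

end XG
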