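import Pool.Agent.MldGeo.QAll
import Pool.Agent.MldGeo.Closed5
import Pool.Agent.MldGap.Level

set_option autoImplicit false

/-!
# XG: the statements on quotients of toric varieties without hypotheses
-/

namespace XG

open MldGeo

theorem c_QGAL : Stmt_QGAL := t_QGAL t_EXR t_EXT t_INE c_EXF

theorem c_UNQ : Stmt_UNQ := t_UNQ c_LOC

theorem c_QPUL : Stmt_QPUL := t_PULQ c_QGAL c_UNQ c_TXT c_FSM t_TBAS

theorem c_SHF : Stmt_SHF := t_SHF t_POW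

theorem c_DDER : Stmt_DDER := t_DDER t_FRA t_TBAS (t_LOGD t_FRA) c_FRM

theorem c_FNC : Stmt_FNC := t_FNC t_CH1 t_VDM

theorem c_RSI : Stmt_RSI := t_RSI t_CH1 c_FNC

theorem c_LGB : Stmt_LGB := t_LGB t_CH1 t_FRA c_DDER t_TBAS

theorem c_QV : Stmt_QV := t_QV t_EIG t_COC t_LAU t_EXPL t_RATF t_CH1 (t_CH2 t_CH1) t_EMBK c_RSI
  c_LGB t_DVL (t_ROT t_CH1)

theorem c_QLG : Stmt_QLG := t_QLG t_FRA c_DDER t_EIG t_TBAS

theorem c_INVP : Stmt_INVP := t_INVP c_QGAL c_QPUL c_GAV c_TRAY c_FDL t_TBAS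

theorem c_TQM : Stmt_TQM := t_TQM t_POW

end XG
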