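import Pool.Agent.XG.St

set_option autoImplicit false

/-!
# XG, RFT: no toric reflections
-/

namespace XG

open MldGeo MldGap MldAcc MldQ

namespace RFT

variable {n : ℕ}

theorem form_toR (u y : Fin n → ℤ) : form u (toR y) = (pair u y : ℝ) := by
  simp [form, toR, pair]

theorem chi_ne {K : Type} [Field K] [Algebra ℂ K] {χ : (Fin n → ℤ) → K} (h : TorusField χ)
    (u : Fin n → ℤ) : χ u ≠ 0 := by
  intro h0
  have h1 := h.add u (-u)
  rw [add_neg_cancel, h.zero, h0, zero_mul] at h1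
  exact one_ne_zero h1

theorem exp_ne_one {t : ℝ} (h0 : 0 < t) (h1 : t < 1) :
    Complex.exp (2 * Real.pi * Complex.I * (t : ℂ)) ≠ 1 := by
  intro h
  rw [Complex.exp_eq_one_iff] at h
  obtain ⟨k, hk⟩ := h
  have h2 : (2 * Real.pi * Complex.I : ℂ) ≠ 0 := Complex.two_pi_I_ne_zero
  have h3 : (t : ℂ) = (k : ℂ) := by
    have h4 : (2 * Real.pi * Complex.I : ℂ) * (t : ℂ) = 2 * Real.pi * Complex.I * (k : ℂ) := by
      rw [hk]; ring
    exact mul_left_cancel₀ h2 h4
  have h5 : t = (k : ℝ) := by exact_mod_cast h3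
  rw [h5] at h0 h1
  have h6 : (0 : ℤ) < k := by exact_mod_cast h0
  have h7 : k < (1 : ℤ) := by exact_mod_cast h1
  omega

end RFT

theorem t_RFT (h1 : Stmt_RFE) (h2 : Stmt_PDR) : Stmt_RFT := by
  intro n X Y G π T T' hn hq hc hT hT' D g hg i t ht0 ht1 hact
  have hχ := D.coord.toTorusField
  have hform : ∀ m : Fin n → ℤ, form m (t • toR (D.ρ i)) = t * (pair m (D.ρ i) : ℝ) := by
    intro m
    rw [map_smul, RFT.form_toR, smul_eq_mul]
  have hg1 : g ≠ 1 := by
    rintro rfl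
    obtain ⟨u, hu⟩ := D.prim i
    have h := hact u
    rw [hform, hu] at h
    have h3 : algebraMap ℂ X.K
        (Complex.exp (2 * Real.pi * Complex.I * ((t * ((1 : ℤ) : ℝ) : ℝ) : ℂ))) = 1 := by
      have h4 : (1 : X.K) * D.χ u = algebraMap ℂ X.K
          (Complex.exp (2 * Real.pi * Complex.I * ((t * ((1 : ℤ) : ℝ) : ℝ) : ℂ))) * D.χ u := by
        rw [one_mul]; exact h
      exact (mul_right_cancel₀ (RFT.chi_ne hχ u) h4).symm
    have h5 : Complex.exp (2 * Real.pi * Complex.I * (t : ℂ)) = 1 := by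
      apply (algebraMap ℂ X.K).injective
      rw [map_one, ← h3]
      congr 3
      push_cast
      ring
    exact RFT.exp_ne_one ht0 ht1 h5
  obtain ⟨w1, hw1⟩ := c_GAV D.χ hχ X.trdeg (D.ρ i) (D.prim i)
  obtain ⟨P, hPm, hP⟩ := (c_TRAY X D.χ D.S hn D.coord (D.ρ i) w1 hw1 (D.nonneg i)).2.2 (D.face i)
  have hge : ∀ a : X.R, w1.Ge 1 (g (a : X.K) - a) := by
    intro a
    obtain ⟨F, c, hF, ha⟩ := D.coord.span_R a a.2
    rw [ha, map_sum, ← Finset.sum_sub_distrib]
    refine DivVal.Ge.sum F _ fun u hu => ?_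
    have h3 : g (algebraMap ℂ X.K (c u) * D.χ u) - algebraMap ℂ X.K (c u) * D.χ u =
        algebraMap ℂ X.K (c u * (Complex.exp (2 * Real.pi * Complex.I *
          ((t * (pair u (D.ρ i) : ℝ) : ℝ) : ℂ)) - 1)) * D.χ u := by
      rw [map_mul, AlgEquiv.commutes, hact u, hform, map_mul, map_sub, map_one]
      ring
    rw [h3]
    rcases (D.nonneg i u (hF u hu)).eq_or_lt with h4 | h4
    · rw [← h4]
      left
      simp
    · refine DivVal.Ge.const_mul ?_ _
      right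
      rw [hw1.chi]
      omega
  obtain ⟨v1, e1, hov⟩ := (c_QGAL X Y G π hn hq).1 w1
  have he : 2 ≤ e1 := h1 X Y G π hq g hg hg1 P w1 hP hge v1 e1 hov
  have hX : T.logDisc w1 = 1 := by
    have h3 := hT P (1 - T.logDisc w1) ⟨hPm, w1, hP, by ring⟩
    linarith
  obtain ⟨P', hP'm, hP'⟩ := h2 X Y G π hn hq P w1 v1 e1 hP hPm hov
  have hY : T'.logDisc v1 = 1 := by
    have h3 := hT' P' (1 - T'.logDisc v1) ⟨hP'm, v1, hP', by ring⟩
    linarith
  have h3 := hc.div w1 v1 e1 P hPm hP hov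
  rw [hX, hY, mul_one] at h3
  have h4 : (1 : ℕ) = e1 := by exact_mod_cast h3
  omega

end XG
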