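import Pool.Agent.XG.Closed
import Pool.Agent.G4.TFX
import Pool.Agent.MldQ.Shift
import Pool.Agent.MldX.XGDefs
import Pool.Agent.G5.St

set_option autoImplicit false

/-!
# Sharp gaps for quotients of toric pairs by finite groups: statements

`Y = X / G`, `G` a finite group of automorphisms of `X` which fix `x`, `(X, B)` the crepant pullback of
`(Y, B')`, no ideals; every `g ∈ G` normalises a torus of dimension `n` which acts on `X` with `x` as
attractive fixed point and leaves `B` invariant (the torus depends on `g`).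

Part A: coefficients of `B` hyperstandard, all dimensions, all levels: the explicit bound
`levelBound n p q` below the level `p / q` holds for the minimal log discrepancy of `(Y, B')` at the
image `y` of `x`; at the integer levels it is attained.

Part B: `B = 0`: the bound for the TOTAL minimal log discrepancy (centres which contain `y`), `n = 2, 3, 4`.

Part C: `B = B' = 0`, closed points: the bound below one, `n = 2, 3, 4`.

The germs, triples, valuations are those of `Pool.Agent.MldGeo`. The theorems `c_QGAL`, `c_QPUL`, `c_SHF`,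
`c_QLG`, `c_INVP`, `c_TQM` (`Pool/Agent/XG/Closed.lean`), `c_TOR`, `c_TRAY`, `c_GAV`, `c_PSI`, `c_TDC`, `c_FDL`,
`c_REG`, `c_FSM` (`MldGeo/Closed5.lean`) and `t_QMON`, `t_POW`, `t_CON`, `t_EIG`, `t_DIA`, `t_DIV`, `t_OLC`, `t_QAT`
are proved statements.
-/

namespace XG

open MldGeo MldGap MldAcc MldQ

noncomputable section

/-- The representative of `t` modulo one in `(0, 1]`. -/
def thr (t : ℝ) : ℝ := t - ⌈t⌉ + 1

/-- The rank of `φ - 1`. -/
def rk {n : ℕ} (φ : (Fin n → ℝ) →ₗ[ℝ] (Fin n → ℝ)) : ℕ :=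
  Module.finrank ℝ (LinearMap.range (φ - 1))

/-! ## Part A -/

/-- DIMB. PROOF. `avg k φ` (`MldQ/Shift.lean`) is the projection to the fixed space of `φ`
(`avg_fix`, `avg_mem_fix`) with the kernel `range (φ - 1)` (`φ^j - 1` is a multiple of `φ - 1`, so
`x - avg x ∈ range (φ - 1)`; `avg (φ x) = avg x`). Let `F_j = ker (φ^j - 1) ⊇ F = ker (φ - 1)`,
`dim F_j = n - rk (φ^j)` (rank-nullity), `dim F = n - rk φ`. `avg` maps `F_j` onto `F`, so
`dim (F_j ∩ ker avg) = dim F_j - dim F = rk φ - rk (φ^j)`. Let `W = span e ⊆ F_j`, `dim W = card S`; the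
image of `W` under `avg` is the span of the `E (p s)`, i.e. of all `E i`, of dimension `card I`; the kernel
of `avg` on `W` is contained in `F_j ∩ ker avg`. -/
def Stmt_DIMB : Prop :=
  ∀ {n k j : ℕ} (φ : (Fin n → ℝ) →ₗ[ℝ] (Fin n → ℝ)), 0 < k → φ ^ k = 1 →
    ∀ {S I : Type} [Fintype S] [Fintype I] (e : S → Fin n → ℝ) (E : I → Fin n → ℝ) (p : S → I),
      (∀ s, (φ ^ j) (e s) = e s) → LinearIndependent ℝ e → LinearIndependent ℝ E →
      (∀ s, avg k φ (e s) = E (p s)) → Function.Surjective p →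
      Fintype.card S + rk (φ ^ j) ≤ Fintype.card I + rk φ

/-- EIGM: diagonalization of real matrices of finite order. PROOF. `t_DIA`-like: complexify; `A^k = 1` and
`X^k - 1` has simple roots, so `A` is diagonalizable over `ℂ` (`MldGeo/DIA.lean` for the element of
`GL (Fin n) ℂ` defined by `A`), the eigenvalues `l r` satisfy `l r ^ k = 1`, so
`l r = exp (2 π i a r / k)`, `a r < k`. `rank (A^j - 1) = rank (diagonal (l^j - 1)) = #{r | l r ^ j ≠ 1}`,
and `l r ^ j = 1` iff `k ∣ j * a r` (the rank does not change under the extension of scalars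
`ℝ → ℂ`: e.g. count with `Matrix.rank_map` or use `charpoly`, or the rank of `A` as the dimension of the
span of the columns). Last: the multiset of the eigenvalues (roots of the characteristic polynomial,
which is real) is invariant under complex conjugation. Let `f z = (j * m) % k` for `z = exp (2 π i m / k)`,
so `∑ r, f (l r) = ∑ r, f (conj (l r))`, and `f z + f (conj z) = k` if `z^j ≠ 1` and `0` if `z^j = 1`. -/
def Stmt_EIGM : Prop :=
  ∀ {n k : ℕ} (A : Matrix (Fin n) (Fin n) ℝ), 0 < k → A ^ k = 1 →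
    ∃ (R : Matrix (Fin n) (Fin n) ℂ) (a : Fin n → ℕ), R.det ≠ 0 ∧
      A.map (algebraMap ℝ ℂ) * R =
        R * Matrix.diagonal (fun r => Complex.exp (2 * Real.pi * Complex.I * a r / k)) ∧
      (∀ r, a r < k) ∧
      ∀ j : ℕ, (A ^ j - 1).rank = (Finset.univ.filter fun r => ¬ k ∣ j * a r).card ∧
        2 * ∑ r, (j * a r) % k = k * (Finset.univ.filter fun r => ¬ k ∣ j * a r).card

/-- EIGA (uses EIGM): the arguments of the eigenvalues `≠ 1`. PROOF. `A = LinearMap.toMatrix' φ`; the index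
set `{r | a r ≠ 0}` has `rk φ` elements (`j = 1`), `α = a r / k`; `thr (j α) = 1` if `k ∣ j a r` and
`((j a r) % k) / k` otherwise; the sum over `a r ≠ 0` is `#{a r ≠ 0, k ∣ j a r} + (1/k) ∑ (j a r) % k
= rk φ - rk (φ^j) + rk (φ^j) / 2`. -/
def Stmt_EIGA : Prop :=
  ∀ {n k : ℕ} (φ : (Fin n → ℝ) →ₗ[ℝ] (Fin n → ℝ)), 0 < k → φ ^ k = 1 →
    ∃ α : Fin (rk φ) → ℝ, (∀ i, 0 < α i ∧ α i < 1) ∧
      ∀ j : ℕ, ∑ i, thr (j * α i) = (rk φ : ℝ) - (rk (φ ^ j) : ℝ) / 2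

/-- SHP: the shifts of the powers. PROOF. As `MldQ.shift_pow`: `(φ^j)^k = 1`;
`∑ l < k, (φ^j)^l (trans g j + v) = trans g (j * k) + k • avg k (φ^j) v`, and
`trans g (j * k) = trans g (k * j) = j • trans g k = j • k • u` (`trans_mul`, `IsShift.eq`;
`trans g (j * l) = ∑ i < l, (φ^j)^i (trans g j)` by induction on `l` with `trans_add`). -/
def Stmt_SHP : Prop :=
  ∀ {n k : ℕ} (g : Aff n) (u : Fin n → ℝ), 0 < k → g.1 ^ k = 1 → IsShift g u →
    ∀ (j : ℕ) (v : Fin n → ℝ),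
      IsShift ((g.1 ^ j, trans g j + v) : Aff n) ((j : ℝ) • u + avg k (g.1 ^ j) v)

/-- CLO: an interior fixed point in terms of the averages of the rays. PROOF. `e i = m i • ray i`.
`coneOf e = coneOf Q.ray` (as in `MldGap/Toric.lean`), so `u = ∑ c i • e i`, `c i ≥ 0`,
`u = avg k φ u = ∑ c i • avg k φ (e i)` (`avg_fix`, `IsShift.fix`). `caratheodory` for the family
`avg k φ (e i)`. These vectors are in the fixed space, of dimension `n - rk φ`, so
`card I ≤ n - rk φ`. -/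
def Stmt_CLO : Prop :=
  ∀ {n k : ℕ} (Q : TQ n) (m : Q.ι → ℕ), (∀ i, 0 < m i) → ∀ g ∈ Q.Γ, 0 < k → g.1 ^ k = 1 →
    ∀ u, g.1 u = u → u ∈ coneOf Q.ray →
      ∃ (I : Finset Q.ι) (x : Q.ι → ℝ), (∀ i ∈ I, 0 < x i) ∧
        u = ∑ i ∈ I, x i • avg k g.1 ((m i : ℝ) • Q.ray i) ∧
        LinearIndependent ℝ (fun i : I => avg k g.1 ((m i : ℝ) • Q.ray i)) ∧ I.card + rk g.1 ≤ n

/-- CLK (uses DIMB, SHP): the powers. PROOF. `e i = m i • ray i`, `μ i = m i (1 - b i) ∈ [0, 1]`.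
(1) `ψ ∘ φ = ψ` (`φ = g.1`): `ψ (φ (ray i)) = ψ (ray i') = 1 - b i' = 1 - b i = ψ (ray i)` by `map_ray`, and the rays
span `ℝ^n` (`full`: a set with nonempty interior; or evaluate on an interior point plus small
vectors). So `ψ (avg k (φ^j) v) = ψ v`. (2) `avg k φ x = avg k (φ^j) (avg k φ x) =
(1/k) ∑ l < k, avg k (φ^j) (φ^l x)`. So `j • u = ∑ (i, l) ∈ I × Fin k, (j x i / k) • E' (i, l)`,
`E' (i, l) = avg k (φ^j) (φ^l (e i))`. `caratheodory` for the family `E'` on `I × Fin k`: `j • u = ∑ s ∈ S', c s • E' s`,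
`c s > 0`, independent. (3) `avg k φ (E' (i, l)) = avg k φ (e i)`, so applying `avg k φ` and the
independence of the `avg k φ (e i)`, `i ∈ I`: for every `i ∈ I` the sum of the `c s` over the
`s ∈ S'` with first component `i` is `j x i > 0`. So the first projection `S' → I` is surjective;
DIMB (`(φ^j) (E' s) = E' s` by `avg_mem_fix`): `card S' + rk (φ^j) ≤ card I + rk φ`.
(4) `u' = ∑ thr (c s) • E' s = j • u - ∑ (⌈c s⌉ - 1) • E' s = j • u + avg k (φ^j) v`, `v ∈ N` (`φ^l (e i) ∈ N` by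
`map_lattice`). SHP: it is a shift of `(φ^j, trans g j + v) ∈ Γ` (`pow_mem`, `add_mem`). (5) It is an interior
point: with a small `t > 0` (`t c s ≤ thr (c s)` for all `s`) `u' = t • (j • u) + ∑ (thr (c s) - t c s) • E' s`,
`interior_smul_mem`, `interior_add_mem`; `E' s ∈ coneOf Q.ray` (`φ` permutes the rays, averages).
(6) `ψ (u') = ∑ s, μ (s.1) thr (c s)`. For fixed `i` with `N i ≥ 1` elements `s` over `i`:
`∑ thr (c s) - thr (j x i)` is an integer (`thr t - t` is an integer) and `< N i` (`thr ≤ 1`, `thr > 0`), so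
`∑ thr (c s) ≤ N i - 1 + thr (j x i)`. Sum over `i`, `0 ≤ μ i ≤ 1`, `∑ N i = card S'`. -/
def Stmt_CLK : Prop :=
  ∀ {n k : ℕ} (Q : TQ n) (m : Q.ι → ℕ), (∀ i, 0 < m i) →
    (∀ i, (m i : ℝ) * (1 - Q.b i) ≤ 1) → ∀ g ∈ Q.Γ, 0 < k → g.1 ^ k = 1 → ∀ u, IsShift g u →
    u ∈ interior (coneOf Q.ray) → ∀ (I : Finset Q.ι) (x : Q.ι → ℝ), (∀ i ∈ I, 0 < x i) →
    u = ∑ i ∈ I, x i • avg k g.1 ((m i : ℝ) • Q.ray i) →
    LinearIndependent ℝ (fun i : I => avg k g.1 ((m i : ℝ) • Q.ray i)) → ∀ j : ℕ, 0 < j →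
      ∃ g' ∈ Q.Γ, ∃ u', IsShift g' u' ∧ u' ∈ interior (coneOf Q.ray) ∧
        (codim g' : ℝ) / 2 + Q.ψ u' ≤
          ∑ i ∈ I, (m i : ℝ) * (1 - Q.b i) * thr (j * x i) + (rk g.1 : ℝ) -
            (rk (g.1 ^ j) : ℝ) / 2

/-- CLA (uses CLO, CLK, EIGA): every value in terms of at most `n` numbers. PROOF. `k` from
`Q.finite_order` (or from the shift). `K = I ⊕ Fin (rk g.1)`, `θ = Sum.elim x α`, `γ = Sum.elim μ 1`,
`μ i = m i (1 - b i)`. `∑ γ θ = ψ u + rk / 2` (EIGA with `j = 1`, `thr (α i) = α i`; `ψ (avg (e i)) = μ i`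
as in CLK (1)). For `j`, `y`: CLK; `thr (j θ i) ≤ j θ i - y i` because `j θ i - y i > 0` and the
difference is an integer; `γ i ≥ 0`; EIGA for the second part. -/
def Stmt_CLA : Prop :=
  ∀ {n : ℕ} (Q : TQ n) (m : Q.ι → ℕ), (∀ i, 0 < m i) →
    (∀ i, (m i : ℝ) * (1 - Q.b i) ≤ 1) → ∀ g ∈ Q.Γ, ∀ u, IsShift g u →
    u ∈ interior (coneOf Q.ray) →
      ∃ (K : Type) (_ : Fintype K) (θ γ : K → ℝ), Fintype.card K ≤ n ∧ (∀ i, 0 < θ i) ∧
        (∀ i, γ i = 1 ∨ ∃ i', γ i = (m i' : ℝ) * (1 - Q.b i')) ∧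
        (codim g : ℝ) / 2 + Q.ψ u = ∑ i, γ i * θ i ∧
        ∀ j : ℕ, 0 < j → ∀ y : K → ℤ, (∀ i, (y i : ℝ) < j * θ i) →
          ∃ g' ∈ Q.Γ, ∃ u', IsShift g' u' ∧ u' ∈ interior (coneOf Q.ray) ∧
            (codim g' : ℝ) / 2 + Q.ψ u' ≤ ∑ i, γ i * (j * θ i - y i)

/-- LVL (uses CLA): the gap. PROOF. As `toric_bound` in `MldGap/Toric.lean`. `c`, `m` from the
hypothesis; `m i (1 - b i) = c i / q` (`Q.disc = Q.ψ` because there are no ideals). Take a value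
`v < (mldQ + p/q)/2` in `Q.values` (`TQ.exists_value`), CLA: `θ`, `γ = c' / q`, `c' ≤ q` natural numbers.
`z i = ⌈θ i⌉ - 1 ≥ 0`, `x i = θ i - z i ∈ (0, 1]`. For `j ≥ 1` and `y i < j x i` the integers
`y i + j z i` are `< j θ i`, so `mldQ ≤ ∑ γ i (j x i - y i)` (`csInf_le`, the values are `≥ 0`:
`Q.ψ ≥ 0` on the cone, `ToricGerm.ψ_nonneg`). With `j = 1`, `y = 0`: `mldQ ≤ ∑ γ x =: s ≤ v`. The theorem
`MldGap.core` for the family `x` on `K` with the integers `c'`: its last hypothesis: `k ≥ 2`,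
`y i < k x i`, `∑ c' y = (k - 1) p` gives `mldQ ≤ k s - (k - 1) p / q`, against `s < (mldQ + p/q)/2` and
`k ≥ 2`. So `s ≤ gapSeq q (p/q) (card K) ≤ levelBound n p q` (`gapSeq_fst_mono`). -/
def Stmt_LVL : Prop :=
  ∀ {n p q : ℕ} (Q : TQ n), 0 < p → 0 < q → IsEmpty Q.J →
    (∀ i, ∃ c m : ℕ, c ≤ q ∧ 0 < m ∧ Q.b i = 1 - (c : ℝ) / q / m) → Q.mldQ < (p : ℝ) / q →
      Q.mldQ ≤ levelBound n p q

/-- The minimal log discrepancies of the crepant quotients of toric pairs with hyperstandard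
coefficients. -/
def mlds (n q : ℕ) : Set ℝ :=
  {μ | ∃ (X Y : Germ n) (G : Subgroup (X.K ≃ₐ[ℂ] X.K)) (π : Y.K →ₐ[ℂ] X.K) (T : Triple X)
    (T' : Triple Y), IsQuot X Y G π ∧ Crepant π T T' ∧ IsEmpty T.J ∧ IsEmpty T'.J ∧
    T.Hyperstandard q ∧ (∀ g ∈ G, ∃ A : TorusAction X n, A.Normal g ∧ A.InvTriple T) ∧
    T'.mld = μ}

/-- ASA (uses LVL): the gap for the geometric minimal log discrepancies. PROOF. `1 ∈ G` gives a torus, so
`T.LC` by `TDG.lc` (`MldGeo/TDG.lean`; the coefficients are `≤ 1`), `T.Effective`,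
`T.CoeffIn D` with `D = {b | ∃ c m, c ≤ q ∧ 0 < m ∧ b = 1 - c / q / m}` (no ideals). The proof of `QFin.main`
(`MldGeo/QFin.lean`) gives `T'.mld = (P g0).Q.mldQ` and `(P g0).Q.CoeffIn (insert 0 D)`, `0 ∈ D`
(`c = q`, `m = 1`; `q > 0`), `Q.J` is empty because `(P g0).model.ideals` is an equivalence with `T.J`
(copy the proof of `QFin.main` with this stronger conclusion). -/
def Stmt_ASA : Prop :=
  ∀ {n p q : ℕ}, 0 < n → 0 < p → 0 < q → ∀ μ ∈ mlds n q, μ < (p : ℝ) / q →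
    μ ≤ levelBound n p q

/-- TRVX: the trivial group. PROOF. `Y = X`, `G = ⊥`, `π = AlgHom.id ℂ X.K`, `T' = T`. `IsQuot`: all
conditions are trivial (`g ∈ ⊥` is `1`). `Crepant`: `LiesOver id w v e` gives `w.ord b = e * v.ord b`;
`e = 1` (take `b` with `w.ord b = 1`), so `w.ord = v.ord`, and `logDisc`, `idealPart` depend only on
`ord` (`regForms`, `formOrd`, `idealOrd`): e.g. show `w = v` by `cases`/`congr` (all other fields are proofs).
`T.Toric 1`: the torus `A`; `Normalised 1` is trivial. -/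
def Stmt_TRVX : Prop :=
  ∀ {n : ℕ} (X : MldX.Germ n) (A : MldX.TorusAction X n) (T : MldX.Triple X), A.Attractive →
    IsEmpty T.J → A.InvTriple T →
      (∀ q : ℕ, T.Hyperstandard q → T.mld ∈ MldX.crepantMlds n q) ∧
      (T.NoBoundary → T.mld ∈ MldX.crepantFreeMlds n ∧ T.totalMld ∈ MldX.crepantTotalMlds n)

/-- TQG: a quotient of `ℂⁿ` by a finite group of diagonal matrices has a torus action with attractive
fixed point. PROOF. Copy `G4/TQX.lean` (it uses only the first part of `IsQuotient`) and add the two fields of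
`MldGeo.TorusAction`: `const`: a regular function of weight `0` corresponds to a multiple of the
monomial `1` (`L 0 = 0`, `ex_inj`); `vanish`: for `u ≠ 0` it corresponds to a multiple of a monomial
`≠ 1`, whose constant coefficient is `0` (second part of `IsQuotient`). -/
def Stmt_TQG : Prop :=
  ∀ {n : ℕ} (X : Germ n) (G : Subgroup (GL (Fin n) ℂ)) [Finite G], X.IsQuotient G →
    (∀ g ∈ G, ∀ i j, i ≠ j → (g : Matrix (Fin n) (Fin n) ℂ) i j = 0) →
    Nonempty (TorusAction X n)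

/-! ## Part B -/

/-- The total minimal log discrepancies of the crepant quotients of toric germs without
boundary. -/
def tmlds (n : ℕ) : Set ℝ :=
  {μ | ∃ (X Y : Germ n) (G : Subgroup (X.K ≃ₐ[ℂ] X.K)) (π : Y.K →ₐ[ℂ] X.K) (T : Triple X)
    (T' : Triple Y), IsQuot X Y G π ∧ Crepant π T T' ∧ IsEmpty T.J ∧ IsEmpty T'.J ∧
    T.NoBoundary ∧ (∀ g ∈ G, ∃ A : TorusAction X n, A.Normal g) ∧ G4.tmld T' = μ}

/-- Toric data of `(X, T)`, `T` without boundary and ideals. -/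
structure TDat {n : ℕ} (X : Germ n) (T : Triple X) where
  χ : (Fin n → ℤ) → X.K
  S : AddSubmonoid (Fin n → ℤ)
  coord : ToricCoord X χ S
  r : ℕ
  ρ : Fin r → Fin n → ℤ
  prim : ∀ i, ∃ u, pair u (ρ i) = 1
  nonneg : ∀ i, ∀ u ∈ S, 0 ≤ pair u (ρ i)
  face : ∀ i, ∃ w : Fin (n - 1) → Fin n → ℤ, (∀ j, w j ∈ S) ∧ LinearIndependent ℤ w ∧
    ∀ j, pair (w j) (ρ i) = 0
  cone : coneOf (fun i => toR (ρ i)) = {y | ∀ u ∈ S, 0 ≤ form u y}
  int : interior (coneOf fun i => toR (ρ i)) = {y | ∀ u ∈ S, u ≠ 0 → 0 < form u y}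
  ψ : (Fin n → ℝ) →ₗ[ℝ] ℝ
  ψρ : ∀ i, ψ (toR (ρ i)) = 1
  disc : ∀ w : DivVal n X.K, X.Through w →
    T.disc w = w.logOrd (torForm χ) + ψ (toR (ordVec χ w))

/-- The automorphism `g` is the element `exp (2 π i z)` of the torus. -/
def TDat.Acts {n : ℕ} {X : Germ n} {T : Triple X} (D : TDat X T) (g : X.K ≃ₐ[ℂ] X.K)
    (z : Fin n → ℝ) : Prop :=
  ∀ m, g (D.χ m) =
    algebraMap ℂ X.K (Complex.exp (2 * Real.pi * Complex.I * (form m z : ℝ))) * D.χ m

/-- TDT: toric data exist. PROOF. The first part of the proof of `G4.t_TFX` (`G4/TFX.lean`): `hT`, `hG`,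
`t_CON`, `c_PSI`, `hψρ`, `hdisc`. -/
def Stmt_TDT : Prop :=
  ∀ {n : ℕ} (X : Germ n) (A : TorusAction X n) (T : Triple X), 0 < n → IsEmpty T.J →
    T.NoBoundary → ∃ D : TDat X T, GradedBy A D.χ D.S

/-- QTH: the centres. PROOF. As `t_QAT` (`MldGeo/QAT.lean`), which treats `At` (there the regular functions on
`X` have order `≥ 0` because they are integral over those on `Y`, `chp`). `Y.Through v ⟹ X.Through w`:
if `a ∉ X.m` then the norm `∏ g ∈ G, g a = π b` with `b ∈ Y.R`, `b ∉ Y.m` (all `g a ∉ X.m`: `g a ∈ X.m` implies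
`a = g⁻¹ g a ∈ X.m`), so `v.ord b = 0`, and all factors `g a ∈ X.R` have order `≥ 0`, so `w.ord a = 0`.
`X.Through w ⟹ Y.Through v`: for `b ∈ Y.R` `e * v.ord b = w.ord (π b)`, `π b ∈ X.R`, `π b ∉ X.m` if `b ∉ Y.m`. -/
def Stmt_QTH : Prop :=
  ∀ {n : ℕ} (X Y : Germ n) (G : Subgroup (X.K ≃ₐ[ℂ] X.K)) (π : Y.K →ₐ[ℂ] X.K),
    IsQuot X Y G π → ∀ (w : DivVal n X.K) (v : DivVal n Y.K) (e : ℕ), Over π w v e →
      (X.Through w ↔ Y.Through v)

/-- QLZ (uses EIGM): QLG without the condition `ordVec χ w ≠ 0`. PROOF. In `t_QLG` (`MldGeo/QLG.lean`) the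
condition is only used in `QLG.eigmat`; the matrix `R` and the numbers `a` (with `a r < k`,
`2 ∑ a r = k * cod φ`) exist without it by EIGM for the real matrix of `φ`
(`A i j = φ (Pi.single j 1) i`; `cod φ = finrank (range (dual φ - 1))` is the rank of the transpose of
`A - 1`). -/
def Stmt_QLZ : Prop :=
  ∀ {n : ℕ} {K : Type} [Field K] [Algebra ℂ K] (χ : (Fin n → ℤ) → K), TorusField χ →
    Algebra.trdeg ℂ K = (n : Cardinal) → 0 < n → ∀ (σ : K ≃ₐ[ℂ] K)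
    (φ : (Fin n → ℤ) →ₗ[ℤ] (Fin n → ℤ)) (c : (Fin n → ℤ) → ℂ) (k : ℕ), MonAut χ σ φ c k →
    ∀ (w : DivVal n K) (e : ℕ), 0 < e → (∀ a, w.ord (σ a) = w.ord a) →
    (∀ a : K, a ≠ 0 → w.Ge (w.ord a + 1)
      (σ a - algebraMap ℂ K (Complex.exp (2 * Real.pi * Complex.I * w.ord a / e)) * a)) →
    (e : ℤ) * cod φ ≤ 2 * w.logOrd (torForm χ)

/-- CODR (uses EIGM): linear parts of codimension at most one. PROOF. `cod φ = 0`: `dual φ = 1`, so
`form (φ u) y = form u y` for all `y` (`QFin.form_dual`) and `φ u = u`. `cod φ = 1`: by EIGM (`j = 1`) exactly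
one `a r ≠ 0` and `2 a r = k`, so all eigenvalues are `1` or `-1`, `Φ² R = R`, `Φ² = 1`. The last part:
`φ - 1` has rank one: the vectors `φ m - m` are proportional (over `ℚ`): `dual φ - 1 = y ⊗ f`, so
`form (φ m - m) z = form m y * f z`; take `a = form m0 y`, `b = form m y` up to a common factor: there are
integers because `φ m - m` and `φ m0 - m0 ≠ 0` are integral vectors which are proportional over `ℝ`. -/
def Stmt_CODR : Prop :=
  ∀ {n k : ℕ} (φ : (Fin n → ℤ) →ₗ[ℤ] (Fin n → ℤ)), 0 < k → φ ^ k = 1 →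
    (cod φ = 0 → ∀ u, φ u = u) ∧
    (cod φ = 1 → (∀ u, φ (φ u) = u) ∧ (∃ u, φ u ≠ u) ∧
      ∀ m0 m : Fin n → ℤ, φ m0 ≠ m0 → ∃ a b : ℤ, 0 < a ∧ φ (a • m - b • m0) = a • m - b • m0)

/-- RFP: the prime divisor of a reflection. PROOF. `φ² = 1`. Choose `m0 ∈ S` with `φ m0 ≠ m0` (`S`
generates `ℤ^n`). `f = σ (χ m0) - χ m0 ∈ X.R`, `f ≠ 0` (`χ (φ m0)`, `χ m0` are independent). All `χ m` have
order `0` along `w` (`ord_chi`). `Pw = {a ∈ X.R | a = 0 ∨ 0 < w.ord a}` is a prime ideal, `Pw ≤ X.m`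
(`Through`), `f ∈ Pw` (`hσ`). Let `P ≤ Pw` be a minimal prime over `(f)` (`Ideal.exists_minimalPrimes_le`);
`P.height ≤ 1` (Krull, `Ideal.height_le_one_of_isPrincipal_of_mem_minimalPrimes`; `X.R` is noetherian,
see `MldGeo/DIV.lean` for the instance) and `≠ 0` since `f ≠ 0`. `t_DIV`: `w1` along `P`. For `s ∈ S`
`χ s ∉ Pw`, so `w1.ord (χ s) = 0`; so `w1.ord (χ m) = 0` for all `m` (`S` generates). For `m` put
`h m = σ (χ m) / χ m = c m * χ (φ m - m)`, multiplicative in `m`; `h m0 - 1 = f / χ m0` has order `≥ 1` along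
`w1`. CODR: `φ (a m - b m0) = a m - b m0`, so `h (a m - b m0) = c (a m - b m0)`, a constant, and it is
`1` because along `w` `σ (χ m) - χ m` has order `≥ 1` (`hσ`, `ord χ = 0`). So `(h m)^a = (h m0)^b`,
`(h m)^a - 1 = ∏_{ζ^a = 1} (h m - ζ)` has order `≥ 1` along `w1`, all factors have order `≥ 0`, so for one `ζ`
`w1.Ge 1 (h m - ζ)`. For `m ∈ S`: `σ (χ m) - ζ χ m ∈ X.R` has positive order along `w1`, so it is in
`P ≤ Pw`, so it has order `≥ 1` along `w`; and `σ (χ m) - χ m` too, so `(1 - ζ) χ m` has order `≥ 1`,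
`ζ = 1`. So `w1.Ge 1 (σ (χ m) - χ m)` for all `m ∈ S`, hence for all elements of `X.R` (`span_R`). -/
def Stmt_RFP : Prop :=
  ∀ {n k : ℕ} (X : Germ n) (χ : (Fin n → ℤ) → X.K) (S : AddSubmonoid (Fin n → ℤ)), 0 < n →
    ToricCoord X χ S → ∀ (σ : X.K ≃ₐ[ℂ] X.K) (φ : (Fin n → ℤ) →ₗ[ℤ] (Fin n → ℤ))
    (c : (Fin n → ℤ) → ℂ), MonAut χ σ φ c k → (∀ a ∈ X.R, σ a ∈ X.R) → (∃ u, φ u ≠ u) →
    (∀ m0 m : Fin n → ℤ, φ m0 ≠ m0 → ∃ a b : ℤ, 0 < a ∧ φ (a • m - b • m0) = a • m - b • m0) →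
    ∀ w : DivVal n X.K, X.Through w → ordVec χ w = 0 →
    (∀ a : X.K, w.ord a = 0 → a ≠ 0 → w.Ge 1 (σ a - a)) →
    ∃ (P : Ideal X.R) (w1 : DivVal n X.K), P ≤ X.m ∧ X.IsOrdAlong w1 P ∧
      ∀ a : X.R, w1.Ge 1 (σ (a : X.K) - a)

/-- RFE: the ramification index. PROOF. (1) For all `a : X.K` with `w1.Ge 0 a`: `w1.Ge 0 (σ a)` and
`w1.Ge 1 (σ a - a)`: `t_OLC`: `a * s = r`, `r, s ∈ X.R`, `s ∉ P`, so `w1.ord s = 0`, `σ s - s` has order `≥ 1`, so
`w1.ord (σ s) = 0`; `σ a - a = (σ r * s - r * σ s) / (s * σ s)`, the numerator is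
`(σ r - r) s - r (σ s - s)`. (2) Suppose `e = 1`. Let `b` be a uniformizer of `v`, `t = π b`, so `w1.ord t = 1`, `σ t = t`.
Let `N > 0`, `σ^N = 1` (`G` is finite), `A a = (1/N) ∑ j < N, σ^j a`. For all `j` and `a` with `w1.Ge 0 a`:
`w1.Ge j (a - A a)`. Induction: `j = 0`: clear; `a - A a` has order `≥ 1` by (1); write `a - A a = t a'`,
`w1.Ge 0 a'`, `A a' = A (a - A a) / t = 0`, so `a' = a' - A a'` has order `≥ j`, `a - A a` has order `≥ j + 1`. So
`a = A a` and `σ a = a` for all `a` with `w1.Ge 0 a`, hence for all `a` (`a` or `a⁻¹`), `σ = 1`. So `e ≥ 2`. -/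
def Stmt_RFE : Prop :=
  ∀ {n : ℕ} (X Y : Germ n) (G : Subgroup (X.K ≃ₐ[ℂ] X.K)) (π : Y.K →ₐ[ℂ] X.K),
    IsQuot X Y G π → ∀ σ ∈ G, σ ≠ 1 → ∀ (P : Ideal X.R) (w1 : DivVal n X.K),
    X.IsOrdAlong w1 P → (∀ a : X.R, w1.Ge 1 (σ (a : X.K) - a)) →
    ∀ (v : DivVal n Y.K) (e : ℕ), Over π w1 v e → 2 ≤ e

/-- LWX (uses TDT, QTH, QLZ, CODR, RFP, RFE): the lower bound. PROOF. `w`, `e` over `v` and `σ ∈ G` from
`c_QGAL`; `X.Through w` (QTH). `T.disc w = T.logDisc w = e * T'.logDisc v = e * T'.disc v`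
(`c_QPUL`, `MLQ.disc_eq` for the empty `J`). Let `A`, `D` be given for `σ` (`hD`). `t_QMON`: `MonAut D.χ σ φ c k`.
`U = ordVec D.χ w`, `z = (1/e) • toR U`; `pair (φ m) U = pair m U` (`hord`), `T.disc w = logOrd + e ψ z`,
`z` is in the cone (`pair u U = w.ord (χ u) ≥ 0` for `u ∈ S`), `ψ z ≥ 0`; QLZ: `e * cod φ ≤ 2 logOrd`. So
`cod φ / 2 + ψ z ≤ T'.disc v < 1`, so `cod φ ≤ 1`. For `m` with `φ m = m`: `c m = exp (2 π i form m z)` (as in
`QFin.lower`). Case `cod φ = 0`, `z ≠ 0`: `φ = 1` (CODR), `D.Acts σ z`: second alternative with `g = σ`. Case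
`cod φ = 0`, `z = 0`: `U = 0`, `c = 1`, `σ (χ m) = χ m`, so `σ = 1` (`frac`), for a uniformizer `t` of `w`
`(1 - exp (2 π i / e)) t` has order `≥ 2`, so `e = 1`; `G4.TFX.one_le`: `logOrd ≥ 1`,
`T'.disc v = T.disc w ≥ 1`, contradiction. Case `cod φ = 1`, `z ≠ 0`: `φ² = 1`,
`σ² (χ m) = c (m + φ m) χ m` and `φ (m + φ m) = m + φ m`, `form (m + φ m) z = form m (2 z)`
(`form (φ m) z = form m z`); so `D.Acts (σ * σ) (2 • z)`, `ψ (2 z) = 2 ψ z ≤ 2 T'.disc v - 1 < T'.disc v`. Case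
`cod φ = 1`, `z = 0`: RFP, RFE, `c_QGAL` (a `v1` below `w1`, `e1 ≥ 2`); `X.Through w1` (`P ≤ X.m`), `T.logDisc w1 = 1`
(`T.NoBoundary`), `1 = e1 * T'.logDisc v1`, `T'.disc v1 ≤ 1/2`: first alternative. If `Y.At v` then `X.At w`
(`t_QAT`), so `pair u U > 0` for `u ∈ S`, `u ≠ 0` (`coord.pos`), `U ≠ 0` (`QFin.exists_ne`), `z ≠ 0`: only the
cases `z ≠ 0` occur, and `z`, `2 z` are positive on `S \ {0}`. -/
def Stmt_LWX : Prop :=
  ∀ {n : ℕ} (X Y : Germ n) (G : Subgroup (X.K ≃ₐ[ℂ] X.K)) (π : Y.K →ₐ[ℂ] X.K) (T : Triple X)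
    (T' : Triple Y), 0 < n → IsQuot X Y G π → Crepant π T T' → IsEmpty T.J → IsEmpty T'.J →
    T.NoBoundary → ∀ D : G → TDat X T,
    (∀ g : G, ∃ A : TorusAction X n, A.Normal (g : X.K ≃ₐ[ℂ] X.K) ∧
      GradedBy A (D g).χ (D g).S) →
    ∀ v : DivVal n Y.K, Y.Through v → T'.disc v < 1 →
      (¬ Y.At v ∧ ∃ v1 : DivVal n Y.K, Y.Through v1 ∧ T'.disc v1 ≤ 1 / 2) ∨
      ∃ (s : G), ∃ g ∈ G, ∃ z : Fin n → ℝ, z ≠ 0 ∧ (∀ u ∈ (D s).S, 0 ≤ form u z) ∧
        (D s).Acts g z ∧ (D s).ψ z ≤ T'.disc v ∧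
        (Y.At v → ∀ u ∈ (D s).S, u ≠ 0 → 0 < form u z)

/-- UPX (uses QTH): the upper bound. PROOF. `N > 0` with `g^N = 1`; `exp (2 π i N form m z) = 1` for all `m`, so
`N • z = toR U` with an integral vector `U ≠ 0`. `exists_primitive` (TDC.lean): `U = κ • u0`, `κ ≥ 1`, `pair u u0 = 1`
for some `u`. `c_GAV`: `w` with `Gauss D.χ u0 w`; `c_TRAY`: `X.Through w` (`κ pair u u0 = N form u z ≥ 0` for
`u ∈ S`). `T.disc w = 0 + ψ (toR u0)` (`Gauss.form`, `ordVec_gauss`). `c_QGAL`: `Over π w v e`; QTH: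
`Y.Through v`; `T.disc w = e * T'.disc v` (as in LWX). Let `N' = N / gcd N κ`. Claim: `N'` divides `e`. For every
`f ≠ 0` in `X.K` with `g f = f` `N'` divides `w.ord f`: let `f s = r`, `r = ∑ c m χ m`, `s = ∑ d m χ m` not zero; the
lowest parts of `r`, `s` are eigenvectors of `g` with the eigenvalues `exp (2 π i κ j / N)`, `j` the order (`Gauss.chi`,
`Gauss.le`: `w.ord (∑ c m χ m)` is the least `pair m u0`, `c m ≠ 0`), and `g (f s) = f (g s)`: so
`w.Ge (ord + 1) (g a - exp (2 π i κ (w.ord a) / N) a)` for `a = r, s`, hence for `f`; so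
`exp (2 π i κ (w.ord f) / N) = 1`. With `f = π b`, `b` a uniformizer of `v`: `w.ord (π b) = e`. So `e ≥ N'`,
`T'.disc v = ψ (u0) / e ≤ ψ (u0) gcd / N ≤ ψ (u0) κ / N = ψ z` (`ψ (u0) ≥ 0`: `u0` is in the cone). If `z` is
positive on `S \ {0}` then so is `u0`, `X.At w` (second part of TRAY) and `Y.At v` (`t_QAT`). -/
def Stmt_UPX : Prop :=
  ∀ {n : ℕ} (X Y : Germ n) (G : Subgroup (X.K ≃ₐ[ℂ] X.K)) (π : Y.K →ₐ[ℂ] X.K) (T : Triple X)
    (T' : Triple Y), 0 < n → IsQuot X Y G π → Crepant π T T' → IsEmpty T.J → IsEmpty T'.J →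
    ∀ (D : TDat X T), ∀ g ∈ G, ∀ z : Fin n → ℝ, z ≠ 0 → (∀ u ∈ D.S, 0 ≤ form u z) →
      D.Acts g z → ∃ v : DivVal n Y.K, Y.Through v ∧ T'.disc v ≤ D.ψ z ∧
        ((∀ u ∈ D.S, u ≠ 0 → 0 < form u z) → Y.At v)

/-- FIX (uses TDT, LWX, UPX): the bound. PROOF. Follow `G4.t_TFX`. Choose `D g` for every `g ∈ G` (TDT). The
discrepancies `T'.disc v`, `v` through `y`, are `≥ 0` (`e * T'.disc v = T.disc w ≥ 0`: `logOrd ≥ 0`
(`c_FDL`), `ψ ≥ 0` on the cone). If there is a `v1` with `T'.disc v1 ≤ 1/2` then `tmld T' ≤ 1/2 ≤ b`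
(`Core` for `(1/2, 0, …, 0)`). Otherwise by LWX for every `v` through `y` with `T'.disc v < 1` there are
`s`, `g`, `z` with `ψ z ≤ T'.disc v`. For fixed `s` the set `Z s` of the `z ≠ 0` in the cone of `D s` with
`(D s).Acts g z` for some `g ∈ G` and `ψ z ≤ 1` is finite: with `N = card G` `N • z` is integral
(`g^N = 1`) and bounded (as in `t_TFX`, `z = ∑ c i ρ i`, `∑ c i ≤ 1`). It is not empty for some `s`; let
`(s, z)` be a pair with `z ∈ Z s` of least value `ψ z < 1`; `tmld T' ≤ ψ z` (UPX). `caratheodory`: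
`z = ∑ i ∈ I, x i ρ i`. For an integer `k` with some `fract (k x i) ≠ 0` the vector
`∑ fract (k x i) ρ i = k z - ∑ ⌊k x i⌋ ρ i` is `≠ 0`, in the cone, and `Acts (g^k)` (`Acts` is additive in
`z`, and `toR` of an integral vector acts trivially), so its value is `≥ ψ z`. `core_of_le`. -/
def Stmt_FIX : Prop :=
  ∀ {n : ℕ} {b : ℝ}, 0 < n → G4.Core n b → ∀ μ ∈ tmlds n, μ < 1 → μ ≤ b

/-! ## Part C -/

/-- The minimal log discrepancies at closed points of the quotients of toric germs without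
boundary. -/
def cmlds (n : ℕ) : Set ℝ :=
  {μ | ∃ (X Y : Germ n) (G : Subgroup (X.K ≃ₐ[ℂ] X.K)) (π : Y.K →ₐ[ℂ] X.K) (T : Triple X)
    (T' : Triple Y), IsQuot X Y G π ∧ Crepant π T T' ∧ IsEmpty T.J ∧ IsEmpty T'.J ∧
    T.NoBoundary ∧ T'.NoBoundary ∧ (∀ g ∈ G, ∃ A : TorusAction X n, A.Normal g) ∧ T'.mld = μ}

/-- PDR: the image of a prime divisor. PROOF. By the definition of `IsOrdAlong` it suffices to find any
`P'` with `Y.IsOrdAlong v P'`; then `b ∈ P'` iff `b = 0` or `0 < v.ord b` iff `π b ∈ P`, so `P' ≤ Y.m` (`P ≤ X.m`).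
`t_HT1`: `v.ord ≥ 0` on `Y.R` is clear (`e * v.ord b = w.ord (π b)`), and one needs `n - 1` elements of `Y.R` which are
algebraically independent modulo the centre. `P` has height one in `X.R`, so `X.R / P` has
transcendence degree `n - 1` (see the proofs of `MldGeo/DIV.lean`, `HT1.lean`, `HTQ.lean`), and it is integral over
`Y.R / P'` (`QAT.chp`), so `Y.R / P'` contains `n - 1` algebraically independent elements. Alternative:
`P' = π⁻¹ P` is prime, `P' ≠ 0` (norm of an element of `P`), and if `0 ≠ Q' < P'` is prime then by going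
down (`Y.R` is normal, `X.R` integral over it: Mathlib, or going up and the transitivity of `G` on the
primes over `Q'`) there is a prime `0 ≠ Q < P`, against `P.height = 1`. -/
def Stmt_PDR : Prop :=
  ∀ {n : ℕ} (X Y : Germ n) (G : Subgroup (X.K ≃ₐ[ℂ] X.K)) (π : Y.K →ₐ[ℂ] X.K), 0 < n →
    IsQuot X Y G π → ∀ (P : Ideal X.R) (w : DivVal n X.K) (v : DivVal n Y.K) (e : ℕ),
    X.IsOrdAlong w P → P ≤ X.m → Over π w v e → ∃ P' : Ideal Y.R, P' ≤ Y.m ∧ Y.IsOrdAlong v P'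

/-- RFT (uses RFE, PDR): no toric reflections. PROOF. `g ≠ 1`: `pair u (ρ i) = 1` for some `u` (`prim`), so `g` acts on `χ u`
by `exp (2 π i t) ≠ 1`. `c_GAV`: `w1` with `Gauss D.χ (ρ i) w1`; `c_TRAY` (third part, `face`): `P ≤ X.m`,
`X.IsOrdAlong w1 P`. For `a ∈ X.R`, `a = ∑ c m χ m`, `m ∈ S` (`span_R`): `g a - a = ∑ c m (exp (2 π i t pair m (ρ i)) - 1) χ m`, the
terms with `pair m (ρ i) = 0` vanish, the others have order `≥ 1`. RFE with `v1`, `e1` from `c_QGAL`: `e1 ≥ 2`.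
`T.logDisc w1 = 1` (`T.NoBoundary`), `= e1 * T'.logDisc v1` (`Crepant.div`), and by PDR `T'.Coeff P' (1 - 1/e1)`,
against `T'.NoBoundary`. -/
def Stmt_RFT : Prop :=
  ∀ {n : ℕ} (X Y : Germ n) (G : Subgroup (X.K ≃ₐ[ℂ] X.K)) (π : Y.K →ₐ[ℂ] X.K) (T : Triple X)
    (T' : Triple Y), 0 < n → IsQuot X Y G π → Crepant π T T' → T.NoBoundary → T'.NoBoundary →
    ∀ (D : TDat X T), ∀ g ∈ G, ∀ (i : Fin D.r) (t : ℝ), 0 < t → t < 1 →
      ¬ D.Acts g (t • toR (D.ρ i))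

/-- FIC (uses TDT, LWX, UPX, RFT): the bound at closed points. PROOF. As FIX, with `Y.At` in place of `Y.Through`
and the `z` which are positive on `S \ {0}` (i.e. in the interior of the cone, `int`). In LWX only the second
alternative occurs. For the minimal `(s, z)`: `caratheodory`, enumerate `I` by `Fin m`, `m ≤ n`;
`G5.CPt 1 x`: `le`: otherwise `z - ρ i` is interior (`interior_of_pos`), with smaller value, and
`Acts g`; `lt`; `min`: `∑ thr (k x i) ρ i = k z - ∑ (⌈k x i⌉ - 1) ρ i`; `refl`: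
`fract (k x i) ρ i = k z - ∑ ⌊k x j⌋ ρ j` acts as `g^k`, against RFT. -/
def Stmt_FIC : Prop :=
  ∀ {n : ℕ} {b : ℝ}, 0 < n → G5.Core n 1 b → ∀ μ ∈ cmlds n, μ < 1 → μ ≤ b

end

end XG
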